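import Pool.Agent.Y995.IsingPlus.Equi

/-!
The estimate for one box: from the all-plus state it is very unlikely to see a droplet in the box.
-/

set_option autoImplicit false

namespace Pool.Agent.Y995.IsingPlus.Box

open Finset Matrix
open Pool.Agent.Results.MP_4cb49c_pr.RandomStart (glauber ising mset glauber_nonneg glauber_row
  glauber_balance ising_pos ising_sum mset_subset)
open Pool.Agent.Helper580.IsingGraph Pool.Agent.Helper580.IsingLat Pool.Agent.Helper580.IsingCut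
  Pool.Agent.Y995.IsingPlus.Geo Pool.Agent.Y995.IsingPlus.Filt Pool.Agent.Y995.IsingPlus.Expo
  Pool.Agent.Y995.IsingPlus.Equi Pool.Agent.Y995.IsingPlus.Dyn

/-- indicator of long components -/
noncomputable def hlg (b' : ℕ) (k : ℕ) : ℝ := if b' ≤ k then 1 else 0

/-- weight of short components -/
noncomputable def hsm (b : ℕ) (k : ℕ) : ℝ := if b ≤ k then 0 else ((k : ℝ) / b) ^ 2

theorem hlg_nn (b' k : ℕ) : 0 ≤ hlg b' k := by unfold hlg; split_ifs <;> norm_num

theorem hsm_nn (b k : ℕ) : 0 ≤ hsm b k := by unfold hsm; split_ifs <;> positivity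

theorem exp_two_lt : Real.exp 2 < 739 / 100 := by
  have h := Real.exp_one_lt_d9
  have h0 := Real.exp_pos 1
  have e : Real.exp 2 = Real.exp 1 * Real.exp 1 := by rw [← Real.exp_add]; norm_num
  rw [e]
  nlinarith

theorem exp_nat (k : ℕ) : Real.exp (k : ℝ) = Real.exp 1 ^ k := by
  rw [← Real.exp_nat_mul, mul_one]

theorem c1_bound {β : ℝ} (hβ : Real.exp (-(2 * β)) ≤ (1 / 2 : ℝ) ^ 36) (b' k : ℕ) :
    (Real.exp ((k : ℝ) * hlg b' k) - 1) * Real.exp (-(2 * β)) ^ k ≤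
      Real.exp (-(b' : ℝ)) * (1 / 2) ^ (17 * k) := by
  unfold hlg
  split_ifs with h
  · rw [mul_one]
    have hq0 := (Real.exp_pos (-(2 * β))).le
    calc (Real.exp (k : ℝ) - 1) * Real.exp (-(2 * β)) ^ k
        ≤ Real.exp (k : ℝ) * Real.exp (-(2 * β)) ^ k := by
          apply mul_le_mul_of_nonneg_right _ (pow_nonneg hq0 k)
          linarith
      _ ≤ Real.exp (k : ℝ) * ((1 / 2 : ℝ) ^ 36) ^ k := by
          apply mul_le_mul_of_nonneg_left (pow_le_pow_left₀ hq0 hβ k) (Real.exp_pos _).le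
      _ = (Real.exp 1 ^ 2 * (1 / 2 : ℝ) ^ 19) ^ k * (Real.exp (-(k : ℝ)) * (1 / 2) ^ (17 * k)) := by
          have h3 : Real.exp (k : ℝ) * Real.exp (-(k : ℝ)) = 1 := by
            rw [← Real.exp_add]; simp
          have h4 : (Real.exp 1 ^ 2) ^ k = Real.exp (k : ℝ) * Real.exp (k : ℝ) := by
            rw [exp_nat, ← pow_mul, two_mul, pow_add]
          have h5 : ((1 / 2 : ℝ) ^ 36) ^ k = ((1 / 2 : ℝ) ^ 19) ^ k * (1 / 2) ^ (17 * k) := by
            rw [pow_mul, ← mul_pow, ← pow_add]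
          rw [mul_pow, h4, h5]
          linear_combination (-Real.exp (k : ℝ) * ((1 / 2 : ℝ) ^ 19) ^ k * (1 / 2) ^ (17 * k)) * h3
      _ ≤ 1 * (Real.exp (-(b' : ℝ)) * (1 / 2) ^ (17 * k)) := by
          apply mul_le_mul
          · apply pow_le_one₀ (by positivity)
            have e : Real.exp 1 ^ 2 = Real.exp 2 := by rw [← Real.exp_nat_mul]; norm_num
            rw [e]
            have := exp_two_lt
            norm_num
            linarith
          · apply mul_le_mul_of_nonneg_right _ (by positivity)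
            apply Real.exp_le_exp.mpr
            have : (b' : ℝ) ≤ k := by exact_mod_cast h
            linarith
          · positivity
          · norm_num
      _ = _ := one_mul _
  · rw [mul_zero, Real.exp_zero, sub_self, zero_mul]
    positivity

theorem cube_le_exp (k : ℕ) : (k : ℝ) ^ 3 ≤ 6 * Real.exp k := by
  have h := Real.pow_div_factorial_le_exp (k : ℝ) (Nat.cast_nonneg k) 3
  have e : ((Nat.factorial 3 : ℕ) : ℝ) = 6 := by norm_num [Nat.factorial]
  rw [e, div_le_iff₀ (by norm_num)] at h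
  linarith

theorem exp_sub_one_le {z : ℝ} : Real.exp z - 1 ≤ z * Real.exp z := by
  have h := Real.add_one_le_exp (-z)
  have h2 := Real.exp_pos z
  have h3 : Real.exp (-z) * Real.exp z = 1 := by rw [← Real.exp_add]; simp
  nlinarith

theorem c2_bound {β : ℝ} (hβ : Real.exp (-(2 * β)) ≤ (1 / 2 : ℝ) ^ 36) (b k : ℕ) (hb : 1 ≤ b)
    (hk : 1 ≤ k) :
    (Real.exp ((k : ℝ) * hsm b k) - 1) * Real.exp (-(2 * β)) ^ k ≤
      (1 / (4608 * (b : ℝ) ^ 2)) * (1 / 2) ^ (17 * k) := by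
  unfold hsm
  split_ifs with h
  · rw [mul_zero, Real.exp_zero, sub_self, zero_mul]
    positivity
  · push Not at h
    have hq0 := (Real.exp_pos (-(2 * β))).le
    have hb0 : (0 : ℝ) < b := by exact_mod_cast hb
    have hkb : (k : ℝ) ≤ b := by exact_mod_cast h.le
    have hk0 : (0 : ℝ) ≤ k := Nat.cast_nonneg k
    have hz : (k : ℝ) * ((k : ℝ) / b) ^ 2 ≤ k := by
      have : ((k : ℝ) / b) ^ 2 ≤ 1 := by
        apply pow_le_one₀ (by positivity)
        rw [div_le_one hb0]; exact hkb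
      nlinarith
    have hz0 : 0 ≤ (k : ℝ) * ((k : ℝ) / b) ^ 2 := by positivity
    have step1 : Real.exp ((k : ℝ) * ((k : ℝ) / b) ^ 2) - 1 ≤
        (6 / (b : ℝ) ^ 2) * (Real.exp 1 ^ 2) ^ k := by
      calc Real.exp ((k : ℝ) * ((k : ℝ) / b) ^ 2) - 1
          ≤ ((k : ℝ) * ((k : ℝ) / b) ^ 2) * Real.exp ((k : ℝ) * ((k : ℝ) / b) ^ 2) :=
            exp_sub_one_le
        _ ≤ ((k : ℝ) * ((k : ℝ) / b) ^ 2) * Real.exp (k : ℝ) :=
            mul_le_mul_of_nonneg_left (Real.exp_le_exp.mpr hz) hz0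
        _ = ((k : ℝ) ^ 3 / (b : ℝ) ^ 2) * Real.exp (k : ℝ) := by
            congr 1; field_simp
        _ ≤ (6 * Real.exp k / (b : ℝ) ^ 2) * Real.exp (k : ℝ) := by
            apply mul_le_mul_of_nonneg_right _ (Real.exp_pos _).le
            apply div_le_div_of_nonneg_right (cube_le_exp k) (by positivity)
        _ = _ := by
            rw [exp_nat, ← pow_mul, mul_comm 2 k, pow_mul]; ring
    calc (Real.exp ((k : ℝ) * ((k : ℝ) / b) ^ 2) - 1) * Real.exp (-(2 * β)) ^ k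
        ≤ ((6 / (b : ℝ) ^ 2) * (Real.exp 1 ^ 2) ^ k) * ((1 / 2 : ℝ) ^ 36) ^ k := by
          apply mul_le_mul step1 (pow_le_pow_left₀ hq0 hβ k) (pow_nonneg hq0 k)
          positivity
      _ = (6 / (b : ℝ) ^ 2) * (Real.exp 1 ^ 2 * (1 / 2 : ℝ) ^ 19) ^ k * (1 / 2) ^ (17 * k) := by
          have h5 : ((1 / 2 : ℝ) ^ 36) ^ k = ((1 / 2 : ℝ) ^ 19) ^ k * (1 / 2) ^ (17 * k) := by
            rw [pow_mul, ← mul_pow, ← pow_add]
          rw [mul_pow, h5]
          ring
      _ ≤ (6 / (b : ℝ) ^ 2) * (1 / 27648) * (1 / 2) ^ (17 * k) := by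
          apply mul_le_mul_of_nonneg_right _ (by positivity)
          apply mul_le_mul_of_nonneg_left _ (by positivity)
          have e : Real.exp 1 ^ 2 = Real.exp 2 := by rw [← Real.exp_nat_mul]; norm_num
          have hη : Real.exp 1 ^ 2 * (1 / 2 : ℝ) ^ 19 ≤ 1 / 27648 := by
            rw [e]
            have := exp_two_lt
            norm_num
            linarith
          have hη0 : 0 ≤ Real.exp 1 ^ 2 * (1 / 2 : ℝ) ^ 19 := by positivity
          calc (Real.exp 1 ^ 2 * (1 / 2 : ℝ) ^ 19) ^ k ≤ (Real.exp 1 ^ 2 * (1 / 2 : ℝ) ^ 19) ^ 1 :=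
                pow_le_pow_of_le_one hη0 (hη.trans (by norm_num)) hk
            _ ≤ _ := by rw [pow_one]; exact hη
      _ = _ := by
          congr 1
          field_simp
          norm_num

/-- the edges near the square -/
noncomputable def near (c : V) (l b : ℕ) : Finset Ed :=
  (Finset.Icc (fun k => c k - ((b : ℤ) + 3)) (fun k => c k + (l : ℤ) - 1 + ((b : ℤ) + 3))) ×ˢ
    (Finset.univ : Finset (Fin 2))

theorem mem_near {c : V} {l b : ℕ} {e : Ed} :
    e ∈ near c l b ↔ ∀ k, c k - ((b : ℤ) + 3) ≤ e.1 k ∧ e.1 k ≤ c k + l - 1 + ((b : ℤ) + 3) := by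
  unfold near
  rw [Finset.mem_product, Finset.mem_Icc, Pi.le_def, Pi.le_def]
  constructor
  · rintro ⟨⟨h1, h2⟩, _⟩ k; exact ⟨h1 k, h2 k⟩
  · intro h; exact ⟨⟨fun k => (h k).1, fun k => (h k).2⟩, Finset.mem_univ _⟩

theorem card_near (c : V) (l b : ℕ) (hb : 2 * (b + 3) ≤ l) : (near c l b).card ≤ 8 * l ^ 2 := by
  unfold near
  rw [Finset.card_product, Pi.card_Icc]
  simp only [Int.card_Icc]
  have h : ∀ k : Fin 2, (c k + (l : ℤ) - 1 + ((b : ℤ) + 3) + 1 - (c k - ((b : ℤ) + 3))).toNat =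
      l + 2 * (b + 3) := by
    intro k; omega
  simp only [h, Finset.prod_const, Finset.card_univ, Fintype.card_fin]
  have : (l + 2 * (b + 3)) ^ 2 ≤ (2 * l) ^ 2 := Nat.pow_le_pow_left (by omega) 2
  calc (l + 2 * (b + 3)) ^ 2 * 2 ≤ (2 * l) ^ 2 * 2 := Nat.mul_le_mul_right _ this
    _ = 8 * l ^ 2 := by ring

/-- number of pivotal sites -/
theorem piv_count (b b' : ℕ) (hb : 64 * b' + 4 < b) (c : V) (l : ℕ) (Λ S : Finset V) :
    ((Λ.filter (fun x => fl b (sq c l) (symmDiff S {x}) ≠ fl b (sq c l) S)).card : ℝ) ≤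
      32 * ∑ e ∈ (ed S).filter (fun e => e ∈ near c l b), hlg b' (cpt (ed S) e).card := by
  classical
  set R := (ed S).filter (fun e => e ∈ near c l b ∧ b' ≤ (cpt (ed S) e).card) with hR
  have hsub : Λ.filter (fun x => fl b (sq c l) (symmDiff S {x}) ≠ fl b (sq c l) S) ⊆
      R.biUnion (fun e => Λ.filter (fun x => e ∈ N x)) := by
    intro x hx
    rw [Finset.mem_filter] at hx
    obtain ⟨⟨y, hy, hyx⟩, e, he, heN, hec⟩ := fl_pivot b b' hb (sq c l) S x hx.2
    rw [Finset.mem_biUnion]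
    refine ⟨e, ?_, Finset.mem_filter.mpr ⟨hx.1, heN⟩⟩
    rw [hR, Finset.mem_filter]
    refine ⟨he, ?_, hec⟩
    rw [mem_near]
    intro k
    have h1 := mem_sq.mp hy k
    have h2 := abs_le.mp (hyx k)
    have h3 := abs_le.mp (N_close heN k)
    constructor <;> omega
  have h2 : (Λ.filter (fun x => fl b (sq c l) (symmDiff S {x}) ≠ fl b (sq c l) S)).card ≤
      R.card * 32 :=
    (Finset.card_le_card hsub).trans
      (Finset.card_biUnion_le_card_mul _ _ 32 (fun e _ => card_sites e Λ))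
  have h3 : (R.card : ℝ) =
      ∑ e ∈ (ed S).filter (fun e => e ∈ near c l b), hlg b' (cpt (ed S) e).card := by
    unfold hlg
    rw [← Finset.sum_filter, Finset.filter_filter, Finset.sum_const, nsmul_eq_mul, mul_one]
  rw [← h3]
  have h4 : ((Λ.filter (fun x => fl b (sq c l) (symmDiff S {x}) ≠ fl b (sq c l) S)).card : ℝ) ≤
      ((R.card * 32 : ℕ) : ℝ) := by exact_mod_cast h2
  push_cast at h4
  linarith

/-- the filtered volume is close to the volume -/
theorem close_count (b : ℕ) (hb : 1 ≤ b) (c : V) (l : ℕ) (S : Finset V) :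
    |(cnt (sq c l) S : ℝ) - fl b (sq c l) S| ≤
      9 * (b : ℝ) ^ 2 * ∑ e ∈ (ed S).filter (fun e => e ∈ near c l b), hsm b (cpt (ed S) e).card := by
  classical
  refine (fl_close b (sq c l) S).trans ?_
  have h := sml_count b (sq c l) S (near c l b) (by
    rintro e ⟨y, hy, hyx⟩
    rw [mem_near]
    intro k
    have h1 := mem_sq.mp hy k
    have h2 := abs_le.mp (hyx k)
    constructor <;> omega)
  have h' : (((sq c l).filter (fun y => pot 0 (sml b (ed S)) y = 1)).card : ℝ) ≤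
      ∑ e ∈ (sml b (ed S)).filter (fun e => e ∈ near c l b),
        (2 * ((cpt (ed S) e).card : ℝ) + 1) ^ 2 := by
    exact_mod_cast h
  refine h'.trans ?_
  have hb0 : (0 : ℝ) < b := by exact_mod_cast hb
  have hsub : (sml b (ed S)).filter (fun e => e ∈ near c l b) ⊆
      (ed S).filter (fun e => e ∈ near c l b) :=
    Finset.filter_subset_filter _ (Finset.filter_subset _ _)
  rw [Finset.mul_sum]
  refine (Finset.sum_le_sum (fun e he => ?_)).trans
    (Finset.sum_le_sum_of_subset_of_nonneg hsub (fun e _ _ => ?_))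
  · rw [Finset.mem_filter] at he
    have he2 := Finset.mem_filter.mp he.1
    have hk : 1 ≤ (cpt (ed S) e).card := Finset.card_pos.mpr ⟨e, self_mem he2.1⟩
    have hk' : (1 : ℝ) ≤ (cpt (ed S) e).card := by exact_mod_cast hk
    unfold hsm
    rw [if_neg he2.2]
    have e1 : 9 * (b : ℝ) ^ 2 * (((cpt (ed S) e).card : ℝ) / b) ^ 2 =
        9 * ((cpt (ed S) e).card : ℝ) ^ 2 := by
      field_simp
    rw [e1]
    nlinarith
  · exact mul_nonneg (by positivity) (hsm_nn _ _)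

theorem box_eq (L : ℕ) : box 2 L = Finset.Icc (fun _ => (1 : ℤ)) (fun _ => (L : ℤ)) := rfl

/-- the good configurations -/
def Good (b b' l : ℕ) (c : V) (Y : ℝ) (S : Finset V) : Prop :=
  ∑ e ∈ (ed S).filter (fun e => e ∈ near c l b), hlg b' (cpt (ed S) e).card < Y ∧
  ∑ e ∈ (ed S).filter (fun e => e ∈ near c l b), hsm b (cpt (ed S) e).card <
    (l : ℝ) ^ 2 / (288 * (b : ℝ) ^ 2)

/-- the bad configurations are rare -/
theorem bad_rare {β : ℝ} (hβ : Real.exp (-(2 * β)) ≤ (1 / 2 : ℝ) ^ 36) (L b b' l : ℕ) (c : V)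
    (hb : 1 ≤ b) (hbl : 2 * (b + 3) ≤ l) (hexp : 8 * (l : ℝ) ^ 2 * Real.exp (-(b' : ℝ)) ≤ 1)
    (Y : ℝ) (𝒢 : Finset (box 2 L → ℤˣ)) (h𝒢 : ∀ σ, σ ∈ 𝒢 ↔ Good b b' l c Y (mset σ)) :
    ∑ σ ∈ 𝒢ᶜ, ising (box 2 L) β σ ≤
      Real.exp (1 - Y) + Real.exp (-((l : ℝ) ^ 2 / (576 * (b : ℝ) ^ 2))) := by
  classical
  set Q1 : Finset V → Prop := fun S =>
    Y ≤ ∑ e ∈ (ed S).filter (fun e => e ∈ near c l b), hlg b' (cpt (ed S) e).card with hQ1
  set Q2 : Finset V → Prop := fun S => (l : ℝ) ^ 2 / (288 * (b : ℝ) ^ 2) ≤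
    ∑ e ∈ (ed S).filter (fun e => e ∈ near c l b), hsm b (cpt (ed S) e).card with hQ2
  have hsub : 𝒢ᶜ ⊆ Finset.univ.filter (fun σ : box 2 L → ℤˣ => Q1 (mset σ)) ∪
      Finset.univ.filter (fun σ : box 2 L → ℤˣ => Q2 (mset σ)) := by
    intro σ hσ
    rw [Finset.mem_compl, h𝒢] at hσ
    unfold Good at hσ
    rw [Finset.mem_union, Finset.mem_filter, Finset.mem_filter]
    by_contra hcon
    push Not at hcon
    apply hσ
    have a1 := hcon.1 (Finset.mem_univ _)
    have a2 := hcon.2 (Finset.mem_univ _)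
    simp only [hQ1, hQ2, not_le] at a1 a2
    exact ⟨a1, a2⟩
  have hb0 : (0 : ℝ) < b := by exact_mod_cast hb
  have hnear : ((near c l b).card : ℝ) ≤ 8 * (l : ℝ) ^ 2 := by
    exact_mod_cast card_near c l b hbl
  have hZ := Zf_pos nb (box 2 L) β
  have hP1 : ∑ σ ∈ Finset.univ.filter (fun σ : box 2 L → ℤˣ => Q1 (mset σ)),
      ising (box 2 L) β σ ≤ Real.exp (1 - Y) := by
    have hpe := prob_eq (box 2 L) β Q1
    rw [hpe, div_le_iff₀ hZ]
    have h := tail (fun _ => (1 : ℤ)) (fun _ => (L : ℤ)) β (near c l b) (hlg b') (hlg_nn b')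
      (Real.exp (-(b' : ℝ))) Y (fun k _ => c1_bound hβ b' k)
    rw [← box_eq] at h
    refine h.trans ?_
    rw [mul_comm]
    apply mul_le_mul_of_nonneg_right _ hZ.le
    apply Real.exp_le_exp.mpr
    have : ((near c l b).card : ℝ) * Real.exp (-(b' : ℝ)) ≤
        8 * (l : ℝ) ^ 2 * Real.exp (-(b' : ℝ)) :=
      mul_le_mul_of_nonneg_right hnear (Real.exp_pos _).le
    linarith
  have hP2 : ∑ σ ∈ Finset.univ.filter (fun σ : box 2 L → ℤˣ => Q2 (mset σ)),
      ising (box 2 L) β σ ≤ Real.exp (-((l : ℝ) ^ 2 / (576 * (b : ℝ) ^ 2))) := by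
    have hpe := prob_eq (box 2 L) β Q2
    rw [hpe, div_le_iff₀ hZ]
    have h := tail (fun _ => (1 : ℤ)) (fun _ => (L : ℤ)) β (near c l b) (hsm b) (hsm_nn b)
      (1 / (4608 * (b : ℝ) ^ 2)) ((l : ℝ) ^ 2 / (288 * (b : ℝ) ^ 2))
      (fun k hk => c2_bound hβ b k hb hk)
    rw [← box_eq] at h
    refine h.trans ?_
    rw [mul_comm]
    apply mul_le_mul_of_nonneg_right _ hZ.le
    apply Real.exp_le_exp.mpr
    have h3 : ((near c l b).card : ℝ) * (1 / (4608 * (b : ℝ) ^ 2)) ≤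
        8 * (l : ℝ) ^ 2 * (1 / (4608 * (b : ℝ) ^ 2)) :=
      mul_le_mul_of_nonneg_right hnear (by positivity)
    have h4 : 8 * (l : ℝ) ^ 2 * (1 / (4608 * (b : ℝ) ^ 2)) - (l : ℝ) ^ 2 / (288 * (b : ℝ) ^ 2) =
        -((l : ℝ) ^ 2 / (576 * (b : ℝ) ^ 2)) := by
      have hb2 : (b : ℝ) ^ 2 ≠ 0 := by positivity
      field_simp
      ring
    linarith
  calc ∑ σ ∈ 𝒢ᶜ, ising (box 2 L) β σ
      ≤ ∑ σ ∈ Finset.univ.filter (fun σ : box 2 L → ℤˣ => Q1 (mset σ)) ∪
          Finset.univ.filter (fun σ : box 2 L → ℤˣ => Q2 (mset σ)), ising (box 2 L) β σ :=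
        Finset.sum_le_sum_of_subset_of_nonneg hsub (fun σ _ _ => (ising_pos _ β σ).le)
    _ ≤ ∑ σ ∈ Finset.univ.filter (fun σ : box 2 L → ℤˣ => Q1 (mset σ)), ising (box 2 L) β σ +
          ∑ σ ∈ Finset.univ.filter (fun σ : box 2 L → ℤˣ => Q2 (mset σ)), ising (box 2 L) β σ := by
        rw [← Finset.sum_union_inter]
        have : 0 ≤ ∑ σ ∈ Finset.univ.filter (fun σ : box 2 L → ℤˣ => Q1 (mset σ)) ∩
            Finset.univ.filter (fun σ : box 2 L → ℤˣ => Q2 (mset σ)), ising (box 2 L) β σ :=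
          Finset.sum_nonneg fun σ _ => (ising_pos _ β σ).le
        linarith
    _ ≤ _ := add_le_add hP1 hP2

end Pool.Agent.Y995.IsingPlus.Box
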