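import Mathlib

/-!
A bound for finite reversible chains: a function with small quadratic variation on a good set cannot
change much between the times `0` and `t`.
-/

set_option autoImplicit false

namespace Pool.Agent.Y995.IsingPlus.Chain

open Finset Matrix

variable {Ω : Type*} [Fintype Ω] [DecidableEq Ω]

/-- rows of powers of a nonnegative matrix with small row sums -/
theorem row_pow (K : Matrix Ω Ω ℝ) (hK : ∀ x y, 0 ≤ K x y) (r : ℝ) (hr : 0 ≤ r)
    (hrow : ∀ x, ∑ y, K x y ≤ r) (t : ℕ) (x : Ω) : ∑ y, (K ^ t) x y ≤ r ^ t := by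
  induction t generalizing x with
  | zero => simp [Matrix.one_apply]
  | succ t ih =>
    rw [pow_succ']
    simp_rw [Matrix.mul_apply]
    rw [Finset.sum_comm]
    simp_rw [← Finset.mul_sum]
    calc ∑ z, K x z * ∑ y, (K ^ t) z y ≤ ∑ z, K x z * r ^ t :=
          Finset.sum_le_sum fun z _ => mul_le_mul_of_nonneg_left (ih z) (hK x z)
      _ = (∑ z, K x z) * r ^ t := by rw [Finset.sum_mul]
      _ ≤ r * r ^ t := mul_le_mul_of_nonneg_right (hrow x) (pow_nonneg hr t)
      _ = r ^ (t + 1) := by ring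

theorem pow_nn (K : Matrix Ω Ω ℝ) (hK : ∀ x y, 0 ≤ K x y) (t : ℕ) (x y : Ω) :
    0 ≤ (K ^ t) x y := by
  induction t generalizing x y with
  | zero => simp only [pow_zero, Matrix.one_apply]; split_ifs <;> norm_num
  | succ t ih =>
    rw [pow_succ, Matrix.mul_apply]
    exact Finset.sum_nonneg fun c _ => mul_nonneg (ih x c) (hK c y)

theorem pow_mono (K L : Matrix Ω Ω ℝ) (hK : ∀ x y, 0 ≤ K x y) (hKL : ∀ x y, K x y ≤ L x y)
    (t : ℕ) (x y : Ω) : (K ^ t) x y ≤ (L ^ t) x y := by
  induction t generalizing x y with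
  | zero => simp
  | succ t ih =>
    rw [pow_succ, pow_succ, Matrix.mul_apply, Matrix.mul_apply]
    refine Finset.sum_le_sum fun c _ => mul_le_mul (ih x c) (hKL c y) (hK c y) ?_
    exact pow_nn L (fun a b => (hK a b).trans (hKL a b)) t x c

/-- Cauchy-Schwarz along paths -/
theorem cs_pow (H K L : Matrix Ω Ω ℝ) (hK : ∀ x y, 0 ≤ K x y) (hL : ∀ x y, 0 ≤ L x y)
    (h : ∀ x y, H x y ^ 2 ≤ K x y * L x y) (t : ℕ) (x y : Ω) :
    (H ^ t) x y ^ 2 ≤ (K ^ t) x y * (L ^ t) x y := by
  induction t generalizing x y with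
  | zero =>
    simp only [pow_zero, Matrix.one_apply]
    split_ifs <;> norm_num
  | succ t ih =>
    rw [pow_succ H, pow_succ K, pow_succ L, Matrix.mul_apply, Matrix.mul_apply, Matrix.mul_apply]
    apply Finset.sum_sq_le_sum_mul_sum_of_sq_le_mul
    · intro c _
      exact mul_nonneg (pow_nn K hK t x c) (hK c y)
    · intro c _
      exact mul_nonneg (pow_nn L hL t x c) (hL c y)
    · intro c _
      calc ((H ^ t) x c * H c y) ^ 2 = (H ^ t) x c ^ 2 * H c y ^ 2 := by ring
        _ ≤ ((K ^ t) x c * (L ^ t) x c) * (K c y * L c y) :=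
            mul_le_mul (ih x c) (h c y) (sq_nonneg _)
              (mul_nonneg (pow_nn K hK t x c) (pow_nn L hL t x c))
        _ = _ := by ring

/-- reversal -/
theorem rev_pow (K L : Matrix Ω Ω ℝ) (p : Ω → ℝ) (h : ∀ x y, p x * K x y = p y * L y x)
    (t : ℕ) (x y : Ω) : p x * (K ^ t) x y = p y * (L ^ t) y x := by
  induction t generalizing x y with
  | zero =>
    simp only [pow_zero, Matrix.one_apply]
    by_cases hxy : x = y
    · subst hxy; rfl
    · rw [if_neg hxy, if_neg (Ne.symm hxy)]; simp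
  | succ t ih =>
    rw [pow_succ, pow_succ', Matrix.mul_apply, Matrix.mul_apply, Finset.mul_sum, Finset.mul_sum]
    refine Finset.sum_congr rfl fun c _ => ?_
    calc p x * ((K ^ t) x c * K c y) = (p x * (K ^ t) x c) * K c y := by ring
      _ = (p c * K c y) * (L ^ t) c x := by rw [ih x c]; ring
      _ = p y * (L y c * (L ^ t) c x) := by rw [h c y]; ring

/-- conjugation by a diagonal weight -/
theorem conj_pow (K H : Matrix Ω Ω ℝ) (F : Ω → ℝ)
    (h : ∀ x y, H x y = K x y * Real.exp (F x - F y)) (t : ℕ) (x y : Ω) :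
    (H ^ t) x y = (K ^ t) x y * Real.exp (F x - F y) := by
  induction t generalizing x y with
  | zero =>
    simp only [pow_zero, Matrix.one_apply]
    by_cases hxy : x = y
    · subst hxy; simp
    · rw [if_neg hxy]; simp
  | succ t ih =>
    rw [pow_succ, pow_succ, Matrix.mul_apply, Matrix.mul_apply, Finset.sum_mul]
    refine Finset.sum_congr rfl fun c _ => ?_
    rw [ih x c, h c y]
    have : Real.exp (F x - F y) = Real.exp (F x - F c) * Real.exp (F c - F y) := by
      rw [← Real.exp_add]; congr 1; ring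
    rw [this]; ring

/-- the chain killed outside the good set -/
def kill (P : Matrix Ω Ω ℝ) (G : Finset Ω) : Matrix Ω Ω ℝ :=
  fun x y => if x ∈ G ∧ y ∈ G then P x y else 0

theorem kill_nn {P : Matrix Ω Ω ℝ} (hP : ∀ x y, 0 ≤ P x y) (G : Finset Ω) (x y : Ω) :
    0 ≤ kill P G x y := by
  unfold kill; split_ifs
  · exact hP x y
  · exact le_refl _

theorem kill_le {P : Matrix Ω Ω ℝ} (hP : ∀ x y, 0 ≤ P x y) (G : Finset Ω) (x y : Ω) :
    kill P G x y ≤ P x y := by
  unfold kill; split_ifs
  · exact le_refl _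
  · exact hP x y

/-- mass lost by killing -/
theorem lost (P : Matrix Ω Ω ℝ) (hP : ∀ x y, 0 ≤ P x y) (hrow : ∀ x, ∑ y, P x y = 1)
    (p : Ω → ℝ) (hp : ∀ x, 0 ≤ p x) (hp1 : ∑ x, p x = 1)
    (hbal : ∀ x y, p x * P x y = p y * P y x) (G : Finset Ω) (t : ℕ) :
    1 - 2 * t * ∑ x ∈ Gᶜ, p x ≤ ∑ x, ∑ y, p x * (kill P G ^ t) x y := by
  have hstat : ∀ (s : ℕ) (z : Ω), ∑ x, p x * (P ^ s) x z = p z := by
    intro s z
    have h1 : ∀ x, p x * (P ^ s) x z = p z * (P ^ s) z x := fun x => rev_pow P P p hbal s x z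
    rw [Finset.sum_congr rfl fun x _ => h1 x, ← Finset.mul_sum]
    have : ∀ (s : ℕ) (z : Ω), ∑ x, (P ^ s) z x = 1 := by
      intro s
      induction s with
      | zero => intro z; simp [Matrix.one_apply]
      | succ s ih =>
        intro z
        rw [pow_succ']
        simp_rw [Matrix.mul_apply]
        rw [Finset.sum_comm]
        simp_rw [← Finset.mul_sum, ih, mul_one]
        exact hrow z
    rw [this, mul_one]
  induction t with
  | zero => simp [Matrix.one_apply, hp1]
  | succ t ih =>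
    have hk : ∀ z, 1 - (if z ∈ G then 0 else 1) - ∑ y ∈ Gᶜ, P z y ≤ ∑ y, kill P G z y := by
      intro z
      by_cases hz : z ∈ G
      · have e : ∑ y, kill P G z y = ∑ y ∈ G, P z y := by
          unfold kill
          simp only [hz, true_and]
          rw [← Finset.sum_filter]
          congr 1
          ext y; simp
        rw [if_pos hz, e]
        have := Finset.sum_add_sum_compl G (fun y => P z y)
        rw [hrow z] at this
        linarith
      · rw [if_neg hz]
        have h1 : 0 ≤ ∑ y ∈ Gᶜ, P z y := Finset.sum_nonneg fun y _ => hP z y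
        have h2 : 0 ≤ ∑ y, kill P G z y := Finset.sum_nonneg fun y _ => kill_nn hP G z y
        linarith
    have h1 : ∑ x, ∑ y, p x * (kill P G ^ (t + 1)) x y =
        ∑ z, (∑ x, p x * (kill P G ^ t) x z) * ∑ y, kill P G z y := by
      simp_rw [pow_succ, Matrix.mul_apply, Finset.mul_sum, Finset.sum_mul]
      rw [Finset.sum_congr rfl fun x _ => Finset.sum_comm]
      rw [Finset.sum_comm]
      refine Finset.sum_congr rfl fun z _ => ?_
      rw [Finset.sum_comm]
      refine Finset.sum_congr rfl fun y _ => Finset.sum_congr rfl fun x _ => ?_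
      ring
    have hle : ∀ z, ∑ x, p x * (kill P G ^ t) x z ≤ p z := by
      intro z
      rw [← hstat t z]
      exact Finset.sum_le_sum fun x _ => mul_le_mul_of_nonneg_left
        (pow_mono _ _ (kill_nn hP G) (kill_le hP G) t x z) (hp x)
    have hnn : ∀ z, 0 ≤ ∑ x, p x * (kill P G ^ t) x z := fun z =>
      Finset.sum_nonneg fun x _ => mul_nonneg (hp x) (pow_nn _ (kill_nn hP G) t x z)
    have h2 : ∑ z, (∑ x, p x * (kill P G ^ t) x z) *
        (1 - (if z ∈ G then 0 else 1) - ∑ y ∈ Gᶜ, P z y) ≤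
        ∑ z, (∑ x, p x * (kill P G ^ t) x z) * ∑ y, kill P G z y :=
      Finset.sum_le_sum fun z _ => mul_le_mul_of_nonneg_left (hk z) (hnn z)
    have h3 : ∑ z, (∑ x, p x * (kill P G ^ t) x z) * (if z ∈ G then (0 : ℝ) else 1) ≤
        ∑ x ∈ Gᶜ, p x := by
      have : ∑ x ∈ Gᶜ, p x = ∑ z, p z * (if z ∈ G then (0 : ℝ) else 1) := by
        rw [← Finset.sum_filter_add_sum_filter_not Finset.univ (fun z => z ∈ G)
          (fun z => p z * (if z ∈ G then (0 : ℝ) else 1))]
        rw [Finset.sum_eq_zero (s := Finset.univ.filter (fun z => z ∈ G)), zero_add]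
        · apply Finset.sum_congr
          · ext z; simp
          · intro z hz
            rw [Finset.mem_filter] at hz
            rw [if_neg hz.2, mul_one]
        · intro z hz
          rw [Finset.mem_filter] at hz
          rw [if_pos hz.2, mul_zero]
      rw [this]
      refine Finset.sum_le_sum fun z _ => mul_le_mul_of_nonneg_right (hle z) ?_
      split_ifs <;> norm_num
    have h4 : ∑ z, (∑ x, p x * (kill P G ^ t) x z) * ∑ y ∈ Gᶜ, P z y ≤ ∑ x ∈ Gᶜ, p x := by
      calc ∑ z, (∑ x, p x * (kill P G ^ t) x z) * ∑ y ∈ Gᶜ, P z y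
          ≤ ∑ z, p z * ∑ y ∈ Gᶜ, P z y := Finset.sum_le_sum fun z _ =>
            mul_le_mul_of_nonneg_right (hle z) (Finset.sum_nonneg fun y _ => hP z y)
        _ = ∑ y ∈ Gᶜ, ∑ z, p z * P z y := by
            simp_rw [Finset.mul_sum]; rw [Finset.sum_comm]
        _ = ∑ y ∈ Gᶜ, p y := by
            refine Finset.sum_congr rfl fun y _ => ?_
            simp_rw [hbal _ y]
            rw [← Finset.mul_sum, hrow, mul_one]
    have h5 : ∑ z, (∑ x, p x * (kill P G ^ t) x z) *
        (1 - (if z ∈ G then 0 else 1) - ∑ y ∈ Gᶜ, P z y) =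
        ∑ x, ∑ y, p x * (kill P G ^ t) x y -
        ∑ z, (∑ x, p x * (kill P G ^ t) x z) * (if z ∈ G then (0 : ℝ) else 1) -
        ∑ z, (∑ x, p x * (kill P G ^ t) x z) * ∑ y ∈ Gᶜ, P z y := by
      rw [Finset.sum_comm (f := fun x y => p x * (kill P G ^ t) x y),
        ← Finset.sum_sub_distrib, ← Finset.sum_sub_distrib]
      refine Finset.sum_congr rfl fun z _ => by ring
    rw [h1]
    refine le_trans ?_ h2
    rw [h5]
    push_cast
    linarith

theorem exp_le_quad {u : ℝ} (hu : |u| ≤ 1) : Real.exp u ≤ 1 + u + u ^ 2 := by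
  have := abs_le.mp (Real.abs_exp_sub_one_sub_id_le hu)
  linarith [this.2]

/-- the exponential row bound -/
theorem row_exp (P : Matrix Ω Ω ℝ) (hP : ∀ x y, 0 ≤ P x y) (hrow : ∀ x, ∑ y, P x y = 1)
    (f : Ω → ℝ) (a γ θ : ℝ) (x : Ω) (ha : ∀ y, P x y ≠ 0 → |f y - f x| ≤ a)
    (hγ : ∑ y, P x y * (f y - f x) ^ 2 ≤ γ) (hθ : 2 * |θ| * a ≤ 1) (ha0 : 0 ≤ a) :
    ∑ y, P x y * Real.exp (θ * (f y - ∑ z, P x z * f z)) ≤ 1 + θ ^ 2 * γ := by
  set g := ∑ z, P x z * f z with hg
  have hgx : g - f x = ∑ z, P x z * (f z - f x) := by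
    simp_rw [mul_sub]
    rw [Finset.sum_sub_distrib, ← Finset.sum_mul, hrow x, one_mul]
  have hgx' : |g - f x| ≤ a := by
    rw [hgx]
    refine (Finset.abs_sum_le_sum_abs _ _).trans ?_
    calc ∑ z, |P x z * (f z - f x)| ≤ ∑ z, P x z * a := by
          refine Finset.sum_le_sum fun z _ => ?_
          rw [abs_mul, abs_of_nonneg (hP x z)]
          by_cases hz : P x z = 0
          · rw [hz]; simp
          · exact mul_le_mul_of_nonneg_left (ha z hz) (hP x z)
      _ = a := by rw [← Finset.sum_mul, hrow x, one_mul]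
  have hterm : ∀ y, P x y * Real.exp (θ * (f y - g)) ≤
      P x y * (1 + θ * (f y - g) + θ ^ 2 * (f y - g) ^ 2) := by
    intro y
    by_cases hy : P x y = 0
    · rw [hy]; simp
    · apply mul_le_mul_of_nonneg_left _ (hP x y)
      have h1 : |f y - g| ≤ 2 * a := by
        have e : f y - g = (f y - f x) - (g - f x) := by ring
        rw [e]
        have h2 := abs_le.mp (ha y hy)
        have h3 := abs_le.mp hgx'
        rw [abs_le]; constructor <;> linarith
      have h2 : |θ * (f y - g)| ≤ 1 := by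
        rw [abs_mul]
        calc |θ| * |f y - g| ≤ |θ| * (2 * a) := mul_le_mul_of_nonneg_left h1 (abs_nonneg _)
          _ = 2 * |θ| * a := by ring
          _ ≤ 1 := hθ
      refine (exp_le_quad h2).trans (le_of_eq ?_)
      ring
  refine (Finset.sum_le_sum fun y _ => hterm y).trans ?_
  have e : ∑ y, P x y * (1 + θ * (f y - g) + θ ^ 2 * (f y - g) ^ 2) =
      1 + θ ^ 2 * ∑ y, P x y * (f y - g) ^ 2 := by
    have e1 : ∀ y, P x y * (1 + θ * (f y - g) + θ ^ 2 * (f y - g) ^ 2) =
        P x y + (θ * (P x y * f y) - θ * g * P x y) + θ ^ 2 * (P x y * (f y - g) ^ 2) := by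
      intro y; ring
    simp_rw [e1]
    rw [Finset.sum_add_distrib, Finset.sum_add_distrib, Finset.sum_sub_distrib,
      ← Finset.mul_sum, ← Finset.mul_sum, ← Finset.mul_sum, hrow x, ← hg]
    ring
  rw [e]
  have hvar : ∑ y, P x y * (f y - g) ^ 2 ≤ ∑ y, P x y * (f y - f x) ^ 2 := by
    have e2 : ∑ y, P x y * (f y - f x) ^ 2 = ∑ y, P x y * (f y - g) ^ 2 + (g - f x) ^ 2 := by
      have e1 : ∀ y, P x y * (f y - f x) ^ 2 = P x y * (f y - g) ^ 2 +
          (2 * (g - f x) * (P x y * f y) - 2 * (g - f x) * g * P x y) +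
          (g - f x) ^ 2 * P x y := by
        intro y; ring
      simp_rw [e1]
      rw [Finset.sum_add_distrib, Finset.sum_add_distrib, Finset.sum_sub_distrib,
        ← Finset.mul_sum, ← Finset.mul_sum, ← Finset.mul_sum, hrow x, ← hg]
      ring
    rw [e2]
    have := sq_nonneg (g - f x)
    linarith
  have : θ ^ 2 * ∑ y, P x y * (f y - g) ^ 2 ≤ θ ^ 2 * γ :=
    mul_le_mul_of_nonneg_left (hvar.trans hγ) (sq_nonneg _)
  linarith

/-- **Main bound.** For a reversible chain, if `f` has jumps at most `a` and quadratic variation at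
most `γ` on the good set, then it is unlikely that the chain goes from `{f ≥ k}` to `{f ≤ k'}` in
`t` steps. -/
theorem main (P : Matrix Ω Ω ℝ) (hP : ∀ x y, 0 ≤ P x y) (hrow : ∀ x, ∑ y, P x y = 1)
    (p : Ω → ℝ) (hp : ∀ x, 0 ≤ p x) (hp1 : ∑ x, p x = 1)
    (hbal : ∀ x y, p x * P x y = p y * P y x) (f : Ω → ℝ) (a γ θ k k' : ℝ) (G A D : Finset Ω)
    (ha : ∀ x y, P x y ≠ 0 → |f y - f x| ≤ a) (ha0 : 0 ≤ a) (hγ0 : 0 ≤ γ)
    (hγ : ∀ x ∈ G, ∑ y, P x y * (f y - f x) ^ 2 ≤ γ) (hθ0 : 0 ≤ θ) (hθ : 2 * θ * a ≤ 1)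
    (hA : ∀ x ∈ A, x ∈ G → k ≤ f x) (hD : ∀ x ∈ D, x ∈ G → f x ≤ k') (t : ℕ) :
    ∑ x ∈ A, ∑ y ∈ D, p x * (P ^ t) x y ≤
      Real.exp (-(θ * (k - k' - a))) * (1 + θ ^ 2 * γ) ^ t + (2 * t + 1) * ∑ x ∈ Gᶜ, p x := by
  set g : Ω → ℝ := fun x => ∑ z, P x z * f z with hg
  set Q := kill P G with hQ
  have hQ0 : ∀ x y, 0 ≤ Q x y := kill_nn hP G
  set r : ℝ := 1 + θ ^ 2 * γ with hr
  have hr0 : 0 ≤ r := by positivity
  have hr1 : 1 ≤ r := by
    have : 0 ≤ θ ^ 2 * γ := by positivity
    linarith
  -- the two exponential kernels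
  let K : ℝ → Matrix Ω Ω ℝ := fun η x y => Q x y * Real.exp (η * (f y - g x))
  have hK0 : ∀ η x y, 0 ≤ K η x y := fun η x y => mul_nonneg (hQ0 x y) (Real.exp_pos _).le
  have hKrow : ∀ η, |η| = θ → ∀ x, ∑ y, K η x y ≤ r := by
    intro η hη x
    by_cases hx : x ∈ G
    · calc ∑ y, K η x y ≤ ∑ y, P x y * Real.exp (η * (f y - g x)) :=
            Finset.sum_le_sum fun y _ =>
              mul_le_mul_of_nonneg_right (kill_le hP G x y) (Real.exp_pos _).le
        _ ≤ 1 + η ^ 2 * γ := row_exp P hP hrow f a γ η x (ha x) (hγ x hx) (by rw [hη]; exact hθ) ha0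
        _ = r := by rw [hr, ← sq_abs η, hη]
    · have : ∀ y, K η x y = 0 := by
        intro y
        simp only [K, hQ, kill, hx, false_and, if_false, zero_mul]
      simp only [this, Finset.sum_const_zero]
      exact hr0
  -- the conjugated kernel
  let F : Ω → ℝ := fun x => θ * ((f x + g x) / 2)
  let H : Matrix Ω Ω ℝ := fun x y => Q x y * Real.exp (F x - F y)
  let L : Matrix Ω Ω ℝ := fun x y => Q x y * Real.exp (θ * (f x - g y))
  have hL0 : ∀ x y, 0 ≤ L x y := fun x y => mul_nonneg (hQ0 x y) (Real.exp_pos _).le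
  have hHKL : ∀ x y, H x y ^ 2 ≤ K (-θ) x y * L x y := by
    intro x y
    apply le_of_eq
    simp only [H, K, L, F]
    have e : Real.exp (θ * ((f x + g x) / 2) - θ * ((f y + g y) / 2)) ^ 2 =
        Real.exp (-θ * (f y - g x)) * Real.exp (θ * (f x - g y)) := by
      rw [sq, ← Real.exp_add, ← Real.exp_add]; congr 1; ring
    rw [mul_pow, e]; ring
  have hrev : ∀ x y, p x * L x y = p y * K θ y x := by
    intro x y
    simp only [L, K, hQ, kill]
    by_cases hx : x ∈ G <;> by_cases hy : y ∈ G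
    · simp only [hx, hy, and_self, if_true]
      rw [← mul_assoc, ← mul_assoc, hbal x y]
    · simp [hx, hy]
    · simp [hx, hy]
    · simp [hx, hy]
  have hLsum : ∑ x, ∑ y, p x * (L ^ t) x y ≤ r ^ t := by
    have h1 : ∀ x y, p x * (L ^ t) x y = p y * ((K θ) ^ t) y x := fun x y =>
      rev_pow L (K θ) p hrev t x y
    simp_rw [h1]
    rw [Finset.sum_comm]
    calc ∑ y, ∑ x, p y * ((K θ) ^ t) y x = ∑ y, p y * ∑ x, ((K θ) ^ t) y x := by
          simp_rw [Finset.mul_sum]
      _ ≤ ∑ y, p y * r ^ t := Finset.sum_le_sum fun y _ => mul_le_mul_of_nonneg_left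
          (row_pow _ (hK0 θ) r hr0 (hKrow θ (abs_of_nonneg hθ0)) t y) (hp y)
      _ = r ^ t := by rw [← Finset.sum_mul, hp1, one_mul]
  have hKsum : ∑ x, ∑ y, p x * ((K (-θ)) ^ t) x y ≤ r ^ t := by
    calc ∑ y, ∑ x, p y * ((K (-θ)) ^ t) y x = ∑ y, p y * ∑ x, ((K (-θ)) ^ t) y x := by
          simp_rw [Finset.mul_sum]
      _ ≤ ∑ y, p y * r ^ t := Finset.sum_le_sum fun y _ => mul_le_mul_of_nonneg_left
          (row_pow _ (hK0 (-θ)) r hr0 (hKrow (-θ) (by rw [abs_neg, abs_of_nonneg hθ0])) t y) (hp y)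
      _ = r ^ t := by rw [← Finset.sum_mul, hp1, one_mul]
  have hHsum : ∑ q : Ω × Ω, p q.1 * (H ^ t) q.1 q.2 ≤ r ^ t := by
    have h1 : (∑ q : Ω × Ω, p q.1 * (H ^ t) q.1 q.2) ^ 2 ≤
        (∑ q : Ω × Ω, p q.1 * ((K (-θ)) ^ t) q.1 q.2) * ∑ q : Ω × Ω, p q.1 * (L ^ t) q.1 q.2 := by
      apply Finset.sum_sq_le_sum_mul_sum_of_sq_le_mul
      · intro q _
        exact mul_nonneg (hp _) (pow_nn _ (hK0 _) t _ _)
      · intro q _
        exact mul_nonneg (hp _) (pow_nn _ hL0 t _ _)
      · intro q _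
        have := cs_pow H (K (-θ)) L (hK0 _) hL0 hHKL t q.1 q.2
        calc (p q.1 * (H ^ t) q.1 q.2) ^ 2 = p q.1 ^ 2 * (H ^ t) q.1 q.2 ^ 2 := by ring
          _ ≤ p q.1 ^ 2 * (((K (-θ)) ^ t) q.1 q.2 * (L ^ t) q.1 q.2) :=
              mul_le_mul_of_nonneg_left this (sq_nonneg _)
          _ = _ := by ring
    have h2 : (∑ q : Ω × Ω, p q.1 * ((K (-θ)) ^ t) q.1 q.2) ≤ r ^ t := by
      rw [Fintype.sum_prod_type]; exact hKsum
    have h3 : (∑ q : Ω × Ω, p q.1 * (L ^ t) q.1 q.2) ≤ r ^ t := by
      rw [Fintype.sum_prod_type]; exact hLsum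
    have h4 : 0 ≤ ∑ q : Ω × Ω, p q.1 * (L ^ t) q.1 q.2 :=
      Finset.sum_nonneg fun q _ => mul_nonneg (hp _) (pow_nn _ hL0 t _ _)
    have h5 : 0 ≤ r ^ t := pow_nonneg hr0 t
    apply le_of_sq_le_sq _ h5
    calc _ ≤ _ := h1
      _ ≤ r ^ t * r ^ t := mul_le_mul h2 h3 h4 h5
      _ = (r ^ t) ^ 2 := by ring
  -- from the killed chain to the bound
  have hgf : ∀ x, |g x - f x| ≤ a := by
    intro x
    have hgx : g x - f x = ∑ z, P x z * (f z - f x) := by
      simp_rw [mul_sub]
      rw [Finset.sum_sub_distrib, ← Finset.sum_mul, hrow x, one_mul]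
    rw [hgx]
    refine (Finset.abs_sum_le_sum_abs _ _).trans ?_
    calc ∑ z, |P x z * (f z - f x)| ≤ ∑ z, P x z * a := by
          refine Finset.sum_le_sum fun z _ => ?_
          rw [abs_mul, abs_of_nonneg (hP x z)]
          by_cases hz : P x z = 0
          · rw [hz]; simp
          · exact mul_le_mul_of_nonneg_left (ha x z hz) (hP x z)
      _ = a := by rw [← Finset.sum_mul, hrow x, one_mul]
  have hpair : ∀ x ∈ A, ∀ y ∈ D, x ∈ G → y ∈ G → p x * (Q ^ t) x y ≤
      Real.exp (-(θ * (k - k' - a))) * (p x * (H ^ t) x y) := by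
    intro x hx y hy hxG hyG
    have hH : (H ^ t) x y = (Q ^ t) x y * Real.exp (F x - F y) :=
      conj_pow Q H F (fun _ _ => rfl) t x y
    rw [hH]
    have h1 : θ * (k - k' - a) ≤ F x - F y := by
      have hx1 := hA x hx hxG
      have hy1 := hD y hy hyG
      have hx2 := abs_le.mp (hgf x)
      have hy2 := abs_le.mp (hgf y)
      have : k - k' - a ≤ (f x + g x) / 2 - (f y + g y) / 2 := by linarith
      calc θ * (k - k' - a) ≤ θ * ((f x + g x) / 2 - (f y + g y) / 2) :=
            mul_le_mul_of_nonneg_left this hθ0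
        _ = F x - F y := by simp only [F]; ring
    have h2 : 1 ≤ Real.exp (-(θ * (k - k' - a))) * Real.exp (F x - F y) := by
      rw [← Real.exp_add]
      apply Real.one_le_exp
      linarith
    have h3 : 0 ≤ p x * (Q ^ t) x y := mul_nonneg (hp x) (pow_nn Q hQ0 t x y)
    calc p x * (Q ^ t) x y = p x * (Q ^ t) x y * 1 := by ring
      _ ≤ p x * (Q ^ t) x y * (Real.exp (-(θ * (k - k' - a))) * Real.exp (F x - F y)) :=
          mul_le_mul_of_nonneg_left h2 h3
      _ = _ := by ring
  -- split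
  have hGp : 0 ≤ ∑ x ∈ Gᶜ, p x := Finset.sum_nonneg fun x _ => hp x
  have hH0 : ∀ x y, 0 ≤ H x y := fun x y => mul_nonneg (hQ0 x y) (Real.exp_pos _).le
  have hbig : ∑ x ∈ A, ∑ y ∈ D, (if x ∈ G ∧ y ∈ G then p x * (Q ^ t) x y else 0) ≤
      Real.exp (-(θ * (k - k' - a))) * r ^ t := by
    calc ∑ x ∈ A, ∑ y ∈ D, (if x ∈ G ∧ y ∈ G then p x * (Q ^ t) x y else 0)
        ≤ ∑ x ∈ A, ∑ y ∈ D, Real.exp (-(θ * (k - k' - a))) * (p x * (H ^ t) x y) := by
          refine Finset.sum_le_sum fun x hx => Finset.sum_le_sum fun y hy => ?_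
          split_ifs with h
          · exact hpair x hx y hy h.1 h.2
          · exact mul_nonneg (Real.exp_pos _).le (mul_nonneg (hp x) (pow_nn H hH0 t x y))
      _ ≤ ∑ x, ∑ y, Real.exp (-(θ * (k - k' - a))) * (p x * (H ^ t) x y) := by
          refine (Finset.sum_le_sum fun x _ => Finset.sum_le_sum_of_subset_of_nonneg
            (Finset.subset_univ D) fun y _ _ => ?_).trans
            (Finset.sum_le_sum_of_subset_of_nonneg (Finset.subset_univ A) fun x _ _ => ?_)
          · exact mul_nonneg (Real.exp_pos _).le (mul_nonneg (hp x) (pow_nn H hH0 t x y))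
          · exact Finset.sum_nonneg fun y _ =>
              mul_nonneg (Real.exp_pos _).le (mul_nonneg (hp x) (pow_nn H hH0 t x y))
      _ = Real.exp (-(θ * (k - k' - a))) * ∑ q : Ω × Ω, p q.1 * (H ^ t) q.1 q.2 := by
          rw [Fintype.sum_prod_type]
          simp_rw [Finset.mul_sum]
      _ ≤ _ := mul_le_mul_of_nonneg_left hHsum (Real.exp_pos _).le
  -- the rest
  have hPrest : ∑ x ∈ A, ∑ y ∈ D, (p x * (P ^ t) x y -
      (if x ∈ G ∧ y ∈ G then p x * (Q ^ t) x y else 0)) ≤ (2 * t + 1) * ∑ x ∈ Gᶜ, p x := by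
    have hnn : ∀ x y, 0 ≤ p x * (P ^ t) x y -
        (if x ∈ G ∧ y ∈ G then p x * (Q ^ t) x y else 0) := by
      intro x y
      have h1 : p x * (Q ^ t) x y ≤ p x * (P ^ t) x y :=
        mul_le_mul_of_nonneg_left (pow_mono Q P hQ0 (kill_le hP G) t x y) (hp x)
      have h2 : 0 ≤ p x * (P ^ t) x y := mul_nonneg (hp x) (pow_nn P hP t x y)
      split_ifs <;> linarith
    calc ∑ x ∈ A, ∑ y ∈ D, (p x * (P ^ t) x y -
          (if x ∈ G ∧ y ∈ G then p x * (Q ^ t) x y else 0))
        ≤ ∑ x, ∑ y, (p x * (P ^ t) x y -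
          (if x ∈ G ∧ y ∈ G then p x * (Q ^ t) x y else 0)) := by
          refine (Finset.sum_le_sum fun x _ => Finset.sum_le_sum_of_subset_of_nonneg
            (Finset.subset_univ D) fun y _ _ => hnn x y).trans
            (Finset.sum_le_sum_of_subset_of_nonneg (Finset.subset_univ A) fun x _ _ =>
              Finset.sum_nonneg fun y _ => hnn x y)
      _ ≤ (2 * t + 1) * ∑ x ∈ Gᶜ, p x := by
          have hone : ∀ (s : ℕ) (z : Ω), ∑ x, (P ^ s) z x = 1 := by
            intro s
            induction s with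
            | zero => intro z; simp [Matrix.one_apply]
            | succ s ih =>
              intro z
              rw [pow_succ']
              simp_rw [Matrix.mul_apply]
              rw [Finset.sum_comm]
              simp_rw [← Finset.mul_sum, ih, mul_one]
              exact hrow z
          have hPs : ∑ x, ∑ y, p x * (P ^ t) x y = 1 := by
            simp_rw [← Finset.mul_sum, hone, mul_one]
            exact hp1
          have hQs := lost P hP hrow p hp hp1 hbal G t
          rw [← hQ] at hQs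
          have hd : ∑ x, ∑ y, (p x * (Q ^ t) x y -
              (if x ∈ G ∧ y ∈ G then p x * (Q ^ t) x y else 0)) ≤ ∑ x ∈ Gᶜ, p x := by
            cases t with
            | zero =>
              have e : ∀ x, ∑ y, (p x * (Q ^ 0) x y -
                  (if x ∈ G ∧ y ∈ G then p x * (Q ^ 0) x y else 0)) =
                  if x ∈ G then 0 else p x := by
                intro x
                simp only [pow_zero, Matrix.one_apply]
                by_cases hx : x ∈ G
                · rw [if_pos hx]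
                  apply Finset.sum_eq_zero
                  intro y _
                  by_cases hxy : x = y
                  · subst hxy; simp [hx]
                  · simp [hxy]
                · rw [if_neg hx]
                  simp [hx]
              simp_rw [e]
              apply le_of_eq
              have e2 : ∑ x ∈ Gᶜ, p x = ∑ x ∈ Gᶜ, (if x ∈ G then 0 else p x) :=
                Finset.sum_congr rfl fun x hx => by
                  rw [if_neg (Finset.mem_compl.mp hx)]
              rw [e2]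
              symm
              apply Finset.sum_subset (Finset.subset_univ _)
              intro x _ hx
              rw [Finset.mem_compl, not_not] at hx
              rw [if_pos hx]
            | succ t =>
              have e : ∀ x y, p x * (Q ^ (t + 1)) x y -
                  (if x ∈ G ∧ y ∈ G then p x * (Q ^ (t + 1)) x y else 0) = 0 := by
                intro x y
                by_cases hx : x ∈ G
                · by_cases hy : y ∈ G
                  · simp [hx, hy]
                  · have : (Q ^ (t + 1)) x y = 0 := by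
                      rw [pow_succ, Matrix.mul_apply]
                      apply Finset.sum_eq_zero
                      intro z _
                      have : Q z y = 0 := by simp [hQ, kill, hy]
                      rw [this, mul_zero]
                    simp [this]
                · have : (Q ^ (t + 1)) x y = 0 := by
                    rw [pow_succ', Matrix.mul_apply]
                    apply Finset.sum_eq_zero
                    intro z _
                    have : Q x z = 0 := by simp [hQ, kill, hx]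
                    rw [this, zero_mul]
                  simp [this]
              simp only [e, Finset.sum_const_zero]
              exact hGp
          have hsplit : ∑ x, ∑ y, (p x * (P ^ t) x y -
              (if x ∈ G ∧ y ∈ G then p x * (Q ^ t) x y else 0)) =
              (∑ x, ∑ y, p x * (P ^ t) x y - ∑ x, ∑ y, p x * (Q ^ t) x y) +
              ∑ x, ∑ y, (p x * (Q ^ t) x y -
                (if x ∈ G ∧ y ∈ G then p x * (Q ^ t) x y else 0)) := by
            rw [← Finset.sum_sub_distrib, ← Finset.sum_add_distrib]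
            refine Finset.sum_congr rfl fun x _ => ?_
            rw [← Finset.sum_sub_distrib, ← Finset.sum_add_distrib]
            refine Finset.sum_congr rfl fun y _ => by ring
          rw [hsplit, hPs]
          linarith
  have hfin : ∑ x ∈ A, ∑ y ∈ D, p x * (P ^ t) x y =
      ∑ x ∈ A, ∑ y ∈ D, (if x ∈ G ∧ y ∈ G then p x * (Q ^ t) x y else 0) +
      ∑ x ∈ A, ∑ y ∈ D, (p x * (P ^ t) x y -
        (if x ∈ G ∧ y ∈ G then p x * (Q ^ t) x y else 0)) := by
    rw [← Finset.sum_add_distrib]
    refine Finset.sum_congr rfl fun x _ => ?_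
    rw [← Finset.sum_add_distrib]
    refine Finset.sum_congr rfl fun y _ => by ring
  rw [hfin]
  linarith

end Pool.Agent.Y995.IsingPlus.Chain
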