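import Pool.Agent.Y995.IsingPlus.OneBox

/-!
Total variation distance from equilibrium of the dynamics started from all plus.
-/

set_option autoImplicit false

namespace Pool.Agent.Y995.IsingPlus.Core

open Finset Matrix
open Pool.Agent.Results.MP_4cb49c_pr.RandomStart (glauber ising mset glauber_nonneg glauber_row
  glauber_balance ising_pos ising_sum mset_subset tv)
open Pool.Agent.Helper580.IsingGraph Pool.Agent.Helper580.IsingLat Pool.Agent.Helper580.IsingCut
  Pool.Agent.Y995.IsingPlus.Geo Pool.Agent.Y995.IsingPlus.Filt Pool.Agent.Y995.IsingPlus.Expo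
  Pool.Agent.Y995.IsingPlus.Equi Pool.Agent.Y995.IsingPlus.Dyn Pool.Agent.Y995.IsingPlus.Box

/-- the point mass at the all-plus configuration -/
noncomputable def plus (Λ : Finset V) : (Λ → ℤˣ) → ℝ := fun σ => if ∀ x, σ x = 1 then 1 else 0

theorem plus_vecMul (Λ : Finset V) (M : Matrix (Λ → ℤˣ) (Λ → ℤˣ) ℝ) (η : Λ → ℤˣ) :
    (plus Λ ᵥ* M) η = M (fun _ => 1) η := by
  classical
  simp only [Matrix.vecMul, dotProduct, plus]
  rw [Finset.sum_eq_single (fun _ => (1 : ℤˣ))]
  · simp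
  · intro σ _ hσ
    rw [if_neg, zero_mul]
    intro h
    exact hσ (funext h)
  · intro h
    exact absurd (Finset.mem_univ _) h

theorem tv_ge {Ω : Type*} [Fintype Ω] [DecidableEq Ω] (μ ν : Ω → ℝ) (hμ : ∑ ω, μ ω = 1)
    (hν : ∑ ω, ν ω = 1) (A : Finset Ω) : ∑ ω ∈ A, ν ω - ∑ ω ∈ A, μ ω ≤ tv μ ν := by
  unfold tv
  have h1 := Finset.sum_add_sum_compl A (fun ω => |μ ω - ν ω|)
  have h2 := Finset.sum_add_sum_compl A μ
  have h3 := Finset.sum_add_sum_compl A ν
  have h4 : ∑ ω ∈ A, ν ω - ∑ ω ∈ A, μ ω ≤ ∑ ω ∈ A, |μ ω - ν ω| := by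
    rw [← Finset.sum_sub_distrib]
    refine Finset.sum_le_sum fun ω _ => ?_
    rw [abs_sub_comm]
    exact le_abs_self _
  have h5 : ∑ ω ∈ Aᶜ, μ ω - ∑ ω ∈ Aᶜ, ν ω ≤ ∑ ω ∈ Aᶜ, |μ ω - ν ω| := by
    rw [← Finset.sum_sub_distrib]
    exact Finset.sum_le_sum fun ω _ => le_abs_self _
  linarith

theorem sum_biUnion_le' {ι Ω : Type*} [DecidableEq ι] [DecidableEq Ω] (I : Finset ι)
    (A : ι → Finset Ω) (f : Ω → ℝ) (hf : ∀ ω, 0 ≤ f ω) :
    ∑ ω ∈ I.biUnion A, f ω ≤ ∑ p ∈ I, ∑ ω ∈ A p, f ω := by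
  induction I using Finset.induction_on with
  | empty => simp
  | insert a I ha ih =>
    rw [Finset.biUnion_insert, Finset.sum_insert ha]
    have h := Finset.sum_union_inter (s₁ := A a) (s₂ := I.biUnion A) (f := f)
    have h2 : 0 ≤ ∑ ω ∈ A a ∩ I.biUnion A, f ω := Finset.sum_nonneg fun ω _ => hf ω
    linarith

/-- corners of the boxes -/
def corner (l : ℕ) (p : ℕ × ℕ) : V := fun k => 1 + (if k = 0 then (p.1 : ℤ) else (p.2 : ℤ)) * l

theorem sq_sub {l m L : ℕ} (hm : m * l ≤ L) {p : ℕ × ℕ}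
    (hp : p ∈ Finset.range m ×ˢ Finset.range m) : sq (corner l p) l ⊆ box 2 L := by
  intro x hx
  rw [mem_sq] at hx
  rw [mem_box]
  rw [Finset.mem_product, Finset.mem_range, Finset.mem_range] at hp
  intro k
  have h1 := hx k
  unfold corner at h1
  have key : ∀ i : ℕ, i < m → (i : ℤ) * l + l ≤ L := by
    intro i hi
    have : (i + 1) * l ≤ m * l := Nat.mul_le_mul_right l hi
    have h2 : (i + 1) * l ≤ L := this.trans hm
    have h3 : (((i + 1) * l : ℕ) : ℤ) ≤ L := by exact_mod_cast h2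
    push_cast at h3
    linarith
  have pos : ∀ i : ℕ, (0 : ℤ) ≤ (i : ℤ) * l := fun i => by positivity
  by_cases hk : k = 0
  · rw [if_pos hk] at h1
    have := key p.1 hp.1
    have := pos p.1
    constructor <;> linarith [h1.1, h1.2]
  · rw [if_neg hk] at h1
    have := key p.2 hp.2
    have := pos p.2
    constructor <;> linarith [h1.1, h1.2]

theorem sq_disj {l : ℕ} {p q : ℕ × ℕ} (hpq : p ≠ q) :
    Disjoint (sq (corner l p) l) (sq (corner l q) l) := by
  rw [Finset.disjoint_left]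
  intro x hx hx'
  rw [mem_sq] at hx hx'
  apply hpq
  have key : ∀ (i j : ℕ) (z : ℤ), 1 + (i : ℤ) * l ≤ z → z ≤ 1 + (i : ℤ) * l + l - 1 →
      1 + (j : ℤ) * l ≤ z → z ≤ 1 + (j : ℤ) * l + l - 1 → i = j := by
    intro i j z h1 h2 h3 h4
    rcases lt_trichotomy i j with h | h | h
    · have : (i + 1) * l ≤ j * l := Nat.mul_le_mul_right l h
      have h5 : (((i + 1) * l : ℕ) : ℤ) ≤ ((j * l : ℕ) : ℤ) := by exact_mod_cast this
      push_cast at h5
      linarith
    · exact h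
    · have : (j + 1) * l ≤ i * l := Nat.mul_le_mul_right l h
      have h5 : (((j + 1) * l : ℕ) : ℤ) ≤ ((i * l : ℕ) : ℤ) := by exact_mod_cast this
      push_cast at h5
      linarith
  have h0 := hx 0
  have h0' := hx' 0
  have h1 := hx 1
  have h1' := hx' 1
  unfold corner at h0 h0' h1 h1'
  simp only [if_true] at h0 h0'
  have h10 : (1 : Fin 2) ≠ 0 := by decide
  rw [if_neg h10] at h1 h1'
  exact Prod.ext (key _ _ _ h0.1 h0.2 h0'.1 h0'.2) (key _ _ _ h1.1 h1.2 h1'.1 h1'.2)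

theorem tv_core {β : ℝ} (hβ0 : 0 ≤ β) (L l m : ℕ) (hL : 1 ≤ L) (hl : 1 ≤ l)
    (hm : m * l ≤ L) (t : ℕ) (ε : ℝ)
    (hone : ∀ p ∈ Finset.range m ×ˢ Finset.range m,
      ∑ η ∈ Finset.univ.filter (fun η : box 2 L → ℤˣ =>
        ¬ 2 * cnt (sq (corner l p) l) (mset η) < (sq (corner l p) l).card),
        (glauber (box 2 L) β ^ t) (fun _ => 1) η ≤ ε)
    (hε : (m : ℝ) ^ 2 * ε ≤ 1 / 4)
    (hdrop : 4 ≤ (1 + Real.exp (-(2 * β * ((4 * l : ℕ) : ℝ)))) ^ (m * m)) :
    1 / 4 < tv (plus (box 2 L) ᵥ* glauber (box 2 L) β ^ t) (ising (box 2 L) β) := by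
  classical
  set Λ := box 2 L with hΛ
  have hΛne : Λ.Nonempty := by
    refine ⟨fun _ => 1, ?_⟩
    rw [hΛ, mem_box]
    intro i
    constructor
    · exact le_refl _
    · exact_mod_cast hL
  set I := Finset.range m ×ˢ Finset.range m with hI
  set ℬ := I.image (fun p => sq (corner l p) l) with hℬ
  have hinj : Set.InjOn (fun p => sq (corner l p) l) (I : Set (ℕ × ℕ)) := by
    intro p _ q _ h
    by_contra hne
    have hd := sq_disj (l := l) hne
    simp only at h
    rw [h] at hd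
    have : (sq (corner l q) l).card = 0 := by
      rw [Finset.disjoint_self_iff_empty] at hd
      rw [hd, Finset.card_empty]
    rw [card_sq] at this
    have : 0 < l ^ 2 := by positivity
    omega
  have hcardℬ : ℬ.card = m * m := by
    rw [hℬ, Finset.card_image_of_injOn hinj, hI, Finset.card_product, Finset.card_range]
  have hnd := no_droplet hβ0 Λ (4 * l) ℬ
    (by
      intro B hB
      rw [hℬ, Finset.mem_image] at hB
      obtain ⟨p, hp, rfl⟩ := hB
      exact sq_sub hm hp)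
    (by
      intro B hB B' hB' hne
      rw [hℬ, Finset.mem_image] at hB hB'
      obtain ⟨p, hp, rfl⟩ := hB
      obtain ⟨q, hq, rfl⟩ := hB'
      apply sq_disj
      rintro rfl
      exact hne rfl)
    (by
      intro B hB
      rw [hℬ, Finset.mem_image] at hB
      obtain ⟨p, hp, rfl⟩ := hB
      exact card_ed_sq _ l)
  rw [hcardℬ] at hnd
  -- the event that there is a droplet
  set none : Finset V → Prop := fun S => ∀ B ∈ ℬ, 2 * cnt B S < B.card with hnone
  set 𝒩 := Finset.univ.filter (fun η : Λ → ℤˣ => none (mset η)) with h𝒩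
  have hZ := Zf_pos nb Λ β
  have hπN : ∑ σ ∈ 𝒩, ising Λ β σ ≤ 1 / 4 := by
    have hpe := prob_eq Λ β none
    rw [h𝒩, hpe, div_le_iff₀ hZ]
    have h0 : 0 ≤ ∑ S ∈ Λ.powerset.filter none, wt nb β S :=
      Finset.sum_nonneg fun S _ => (wt_pos nb β S).le
    have h1 := mul_le_mul_of_nonneg_right hdrop h0
    have h2 := h1.trans hnd
    linarith
  have hπA : 3 / 4 ≤ ∑ σ ∈ 𝒩ᶜ, ising Λ β σ := by
    have h1 := Finset.sum_add_sum_compl 𝒩 (ising Λ β)
    have h2 := ising_sum Λ β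
    rw [h2] at h1
    linarith
  have hμsum : ∑ ω, (plus Λ ᵥ* glauber Λ β ^ t) ω = 1 := by
    simp_rw [plus_vecMul]
    have : ∀ (s : ℕ) (z : Λ → ℤˣ), ∑ x, (glauber Λ β ^ s) z x = 1 := by
      intro s
      induction s with
      | zero => intro z; simp [Matrix.one_apply]
      | succ s ih =>
        intro z
        rw [pow_succ']
        simp_rw [Matrix.mul_apply]
        rw [Finset.sum_comm]
        simp_rw [← Finset.mul_sum, ih, mul_one]
        exact glauber_row Λ hΛne β z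
    exact this t _
  have hμA : ∑ ω ∈ 𝒩ᶜ, (plus Λ ᵥ* glauber Λ β ^ t) ω ≤ 1 / 4 := by
    simp_rw [plus_vecMul]
    have hnn : ∀ η, 0 ≤ (glauber Λ β ^ t) (fun _ => 1) η := fun η =>
      Chain.pow_nn _ (glauber_nonneg Λ β) t _ _
    calc ∑ η ∈ 𝒩ᶜ, (glauber Λ β ^ t) (fun _ => 1) η
        ≤ ∑ η ∈ I.biUnion (fun p => Finset.univ.filter (fun η : Λ → ℤˣ =>
            ¬ 2 * cnt (sq (corner l p) l) (mset η) < (sq (corner l p) l).card)),
            (glauber Λ β ^ t) (fun _ => 1) η := by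
          apply Finset.sum_le_sum_of_subset_of_nonneg
          · intro η hη
            rw [Finset.mem_compl, h𝒩, Finset.mem_filter] at hη
            rw [Finset.mem_biUnion]
            by_contra hcon
            apply hη
            refine ⟨Finset.mem_univ _, ?_⟩
            rw [hnone]
            intro B hB
            rw [hℬ, Finset.mem_image] at hB
            obtain ⟨p, hp, rfl⟩ := hB
            by_contra hlt
            exact hcon ⟨p, hp, Finset.mem_filter.mpr ⟨Finset.mem_univ _, hlt⟩⟩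
          · intro η _ _
            exact hnn η
      _ ≤ ∑ p ∈ I, ∑ η ∈ Finset.univ.filter (fun η : Λ → ℤˣ =>
            ¬ 2 * cnt (sq (corner l p) l) (mset η) < (sq (corner l p) l).card),
            (glauber Λ β ^ t) (fun _ => 1) η :=
          sum_biUnion_le' _ _ _ hnn
      _ ≤ ∑ p ∈ I, ε := Finset.sum_le_sum hone
      _ = (m : ℝ) ^ 2 * ε := by
          rw [Finset.sum_const, hI, Finset.card_product, Finset.card_range, nsmul_eq_mul]
          push_cast; ring
      _ ≤ 1 / 4 := hε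
  have := tv_ge (plus Λ ᵥ* glauber Λ β ^ t) (ising Λ β) hμsum (ising_sum Λ β) 𝒩ᶜ
  linarith

end Pool.Agent.Y995.IsingPlus.Core
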