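import Pool.Agent.Y995.IsingPlus.Filt

/-!
Exponential moments of functionals of the boundary components, by the Peierls argument.
-/

set_option autoImplicit false

namespace Pool.Agent.Y995.IsingPlus.Expo

open Finset Pool.Agent.Helper580.IsingGKS Pool.Agent.Helper580.IsingGraph
  Pool.Agent.Helper580.IsingLat Pool.Agent.Helper580.IsingCut Pool.Agent.Y995.IsingPlus.Geo
  Pool.Agent.Y995.IsingPlus.Filt

/-- all edges with an end in `Λ` or next to it -/
def EL (Λ : Finset V) : Finset Ed := (Λ ∪ Λ.biUnion nb) ×ˢ (Finset.univ : Finset (Fin 2))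

theorem ed_sub_EL {S Λ : Finset V} (h : S ⊆ Λ) : ed S ⊆ EL Λ := by
  intro e he
  unfold ed at he
  rw [Finset.mem_filter, Finset.mem_product] at he
  unfold EL
  rw [Finset.mem_product]
  refine ⟨?_, Finset.mem_univ _⟩
  rcases Finset.mem_union.mp he.1.1 with h1 | h1
  · exact Finset.mem_union_left _ (h h1)
  · exact Finset.mem_union_right _ (Finset.biUnion_subset_biUnion_of_subset_left _ h h1)

/-- the components -/
noncomputable def cps (T : Finset Ed) : Finset (Finset Ed) := T.image (cpt T)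

theorem mem_cps {T : Finset Ed} {γ : Finset Ed} : γ ∈ cps T ↔ ∃ e ∈ T, cpt T e = γ := by
  unfold cps; rw [Finset.mem_image]

theorem cps_disj {T : Finset Ed} {γ γ' : Finset Ed} (h : γ ∈ cps T) (h' : γ' ∈ cps T)
    (hne : γ ≠ γ') : Disjoint γ γ' := by
  obtain ⟨e, he, rfl⟩ := mem_cps.mp h
  obtain ⟨e', he', rfl⟩ := mem_cps.mp h'
  rw [Finset.disjoint_left]
  intro u hu hu'
  exact hne (by rw [← cpt_eq he hu, ← cpt_eq he' hu'])

/-- the family of connected sets of edges -/
noncomputable def univ' (Λ : Finset V) : Finset (Finset Ed) := by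
  classical
  exact (EL Λ).powerset.filter (fun γ => CC pn γ ∧ γ.Nonempty)

theorem mem_univ' {Λ : Finset V} {γ : Finset Ed} :
    γ ∈ univ' Λ ↔ γ ⊆ EL Λ ∧ CC pn γ ∧ γ.Nonempty := by
  classical
  unfold univ'
  rw [Finset.mem_filter, Finset.mem_powerset]

theorem cps_sub {S Λ : Finset V} (h : S ⊆ Λ) : cps (ed S) ⊆ univ' Λ := by
  intro γ hγ
  obtain ⟨e, he, rfl⟩ := mem_cps.mp hγ
  rw [mem_univ']
  exact ⟨(cpt_sub _ _).trans (ed_sub_EL h), cpt_cc he, e, self_mem he⟩

section flip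

variable (lo hi : V)

/-- **Peierls**: the weight of the configurations with given boundary components -/
theorem peierls_family (β : ℝ) (𝒮 : Finset (Finset Ed)) :
    ∑ S ∈ (Finset.Icc lo hi).powerset.filter (fun S => 𝒮 ⊆ cps (ed S)), wt nb β S ≤
      Real.exp (-(2 * β)) ^ (∑ γ ∈ 𝒮, γ.card) * Zf nb (Finset.Icc lo hi) β := by
  classical
  set Λ := Finset.Icc lo hi with hΛ
  have hmemΛ : ∀ x : V, x ∈ Λ ↔ ∀ k, lo k ≤ x k ∧ x k ≤ hi k := by
    intro x
    rw [hΛ, Finset.mem_Icc, Pi.le_def, Pi.le_def]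
    exact ⟨fun h k => ⟨h.1 k, h.2 k⟩, fun h => ⟨fun k => (h k).1, fun k => (h k).2⟩⟩
  set 𝒜 := Λ.powerset.filter (fun S => 𝒮 ⊆ cps (ed S)) with h𝒜
  rcases Finset.eq_empty_or_nonempty 𝒜 with hemp | hne
  · rw [hemp, Finset.sum_empty]
    exact mul_nonneg (pow_nonneg (Real.exp_pos _).le _) (Zf_pos nb Λ β).le
  obtain ⟨S0, hS0⟩ := hne
  rw [h𝒜, Finset.mem_filter, Finset.mem_powerset] at hS0
  set T0 := 𝒮.biUnion id with hT0
  have hcardT0 : T0.card = ∑ γ ∈ 𝒮, γ.card := by
    rw [hT0, Finset.card_biUnion]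
    · rfl
    · intro γ hγ γ' hγ' hne
      exact cps_disj (hS0.2 hγ) (hS0.2 hγ') hne
  have hsub : ∀ S, 𝒮 ⊆ cps (ed S) → T0 ⊆ ed S := by
    intro S hS e he
    rw [hT0, Finset.mem_biUnion] at he
    obtain ⟨γ, hγ, he⟩ := he
    obtain ⟨u, hu, rfl⟩ := mem_cps.mp (hS hγ)
    exact cpt_sub _ _ he
  have hcl : Closed T0 := by
    apply closed_part (hsub S0 hS0.2)
    intro u hu
    rw [hT0, Finset.mem_biUnion] at hu
    obtain ⟨γ, hγ, hu⟩ := hu
    obtain ⟨v, hv, rfl⟩ := mem_cps.mp (hS0.2 hγ)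
    rw [cpt_eq hv hu]
    exact Finset.subset_biUnion_of_mem id hγ
  have hbr : BR lo hi T0 :=
    BR.mono (br_ed (fun x hx => (hmemΛ x).mp (hS0.1 hx))) (hsub S0 hS0.2)
  set U0 := Λ.filter (fun x => pot 0 T0 x = 1) with hU0
  have hmemU : ∀ x : V, x ∈ U0 ↔ pot 0 T0 x = 1 := by
    intro x
    rw [hU0, Finset.mem_filter]
    constructor
    · exact fun h => h.2
    · intro h
      refine ⟨?_, h⟩
      rw [hmemΛ]
      by_contra hx
      rw [zero_out hbr hcl hx] at h
      exact absurd h (by decide)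
  have hedU : ed U0 = T0 := by
    ext e
    rw [mem_ed, hmemU, hmemU]
    have hst := step hbr hcl 0 e.2 e.1
    have hz : ∀ a b c : ZMod 2, a = b + c → (¬ (a = 1 ↔ b = 1) ↔ c = 1) := by decide
    rw [hz _ _ _ hst]
    unfold om
    by_cases he : (e.1, e.2) ∈ T0
    · rw [if_pos he]; simpa using he
    · rw [if_neg he]
      constructor
      · intro h; exact absurd h (by decide)
      · intro h; exact absurd h he
  have hwt : ∀ S ∈ 𝒜, wt nb β S =
      Real.exp (-(2 * β)) ^ (∑ γ ∈ 𝒮, γ.card) * wt nb β (symmDiff S U0) := by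
    intro S hS
    rw [h𝒜, Finset.mem_filter, Finset.mem_powerset] at hS
    have h1 := hsub S hS.2
    have h2 : (ed (symmDiff S U0)).card + T0.card = (ed S).card := by
      rw [ed_symmDiff, hedU]
      have : symmDiff (ed S) T0 = ed S \ T0 := by
        ext e
        rw [Finset.mem_symmDiff, Finset.mem_sdiff]
        constructor
        · rintro (h | h)
          · exact h
          · exact absurd (h1 h.1) h.2
        · exact Or.inl
      rw [this, Finset.card_sdiff_of_subset h1]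
      have := Finset.card_le_card h1
      omega
    unfold wt
    rw [← hcardT0, ← Real.exp_nat_mul, ← Real.exp_add, card_ed, card_ed, ← h2]
    congr 1
    push_cast
    ring
  rw [Finset.sum_congr rfl hwt, ← Finset.mul_sum]
  apply mul_le_mul_of_nonneg_left _ (pow_nonneg (Real.exp_pos _).le _)
  have hinj : Set.InjOn (fun S => symmDiff S U0) (𝒜 : Set (Finset V)) := by
    intro S _ S' _ h
    exact symmDiff_left_injective _ h
  rw [← Finset.sum_image (f := fun S => wt nb β S) (g := fun S => symmDiff S U0) hinj]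
  unfold Zf
  apply Finset.sum_le_sum_of_subset_of_nonneg
  · intro S' hS'
    rw [Finset.mem_image] at hS'
    obtain ⟨S, hS, rfl⟩ := hS'
    rw [h𝒜, Finset.mem_filter, Finset.mem_powerset] at hS
    rw [Finset.mem_powerset]
    intro x hx
    rw [Finset.mem_symmDiff] at hx
    rcases hx with hx | hx
    · exact hS.1 hx.1
    · exact (Finset.mem_filter.mp hx.1).1
  · intro S _ _
    exact (wt_pos nb β S).le

/-- expectation of products over components -/
theorem moment (β : ℝ) (w : Finset Ed → ℝ) (hw : ∀ γ, 0 ≤ w γ) :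
    ∑ S ∈ (Finset.Icc lo hi).powerset, wt nb β S * ∏ γ ∈ cps (ed S), (1 + w γ) ≤
      Zf nb (Finset.Icc lo hi) β *
        Real.exp (∑ γ ∈ univ' (Finset.Icc lo hi), w γ * Real.exp (-(2 * β)) ^ γ.card) := by
  classical
  set Λ := Finset.Icc lo hi with hΛ
  set 𝒰 := univ' Λ with h𝒰
  have h1 : ∀ S ∈ Λ.powerset, wt nb β S * ∏ γ ∈ cps (ed S), (1 + w γ) =
      ∑ 𝒮 ∈ 𝒰.powerset, (if 𝒮 ⊆ cps (ed S) then wt nb β S * ∏ γ ∈ 𝒮, w γ else 0) := by
    intro S hS
    rw [Finset.mem_powerset] at hS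
    rw [Finset.prod_one_add, Finset.mul_sum, ← Finset.sum_filter]
    apply Finset.sum_congr
    · ext 𝒮
      rw [Finset.mem_filter, Finset.mem_powerset, Finset.mem_powerset]
      exact ⟨fun h => ⟨h.trans (cps_sub hS), h⟩, fun h => h.2⟩
    · intros; rfl
  rw [Finset.sum_congr rfl h1, Finset.sum_comm]
  have h2 : ∀ 𝒮 ∈ 𝒰.powerset, ∑ S ∈ Λ.powerset,
      (if 𝒮 ⊆ cps (ed S) then wt nb β S * ∏ γ ∈ 𝒮, w γ else 0) ≤
      Zf nb Λ β * ∏ γ ∈ 𝒮, (w γ * Real.exp (-(2 * β)) ^ γ.card) := by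
    intro 𝒮 _
    rw [← Finset.sum_filter, ← Finset.sum_mul]
    have h3 := peierls_family lo hi β 𝒮
    have h4 : 0 ≤ ∏ γ ∈ 𝒮, w γ := Finset.prod_nonneg fun γ _ => hw γ
    calc _ ≤ (Real.exp (-(2 * β)) ^ (∑ γ ∈ 𝒮, γ.card) * Zf nb Λ β) * ∏ γ ∈ 𝒮, w γ :=
          mul_le_mul_of_nonneg_right h3 h4
      _ = _ := by
          rw [Finset.prod_mul_distrib, Finset.prod_pow_eq_pow_sum]
          ring
  refine (Finset.sum_le_sum h2).trans ?_
  rw [← Finset.mul_sum, ← Finset.prod_one_add]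
  apply mul_le_mul_of_nonneg_left _ (Zf_pos nb Λ β).le
  rw [Real.exp_sum]
  apply Finset.prod_le_prod
  · intro γ _
    have := mul_nonneg (hw γ) (pow_nonneg (Real.exp_pos (-(2 * β))).le γ.card)
    linarith
  · intro γ _
    rw [add_comm]
    exact Real.add_one_le_exp _

/-- product over components as an exponential of a sum over edges -/
theorem prod_cps (T E : Finset Ed) (h : ℕ → ℝ) :
    ∏ γ ∈ cps T, (1 + (Real.exp (((γ.filter (fun e => e ∈ E)).card : ℝ) * h γ.card) - 1)) =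
      Real.exp (∑ e ∈ T.filter (fun e => e ∈ E), h (cpt T e).card) := by
  classical
  have h1 : ∀ γ ∈ cps T, 1 + (Real.exp (((γ.filter (fun e => e ∈ E)).card : ℝ) * h γ.card) - 1) =
      Real.exp (((γ.filter (fun e => e ∈ E)).card : ℝ) * h γ.card) := fun γ _ => by ring
  rw [Finset.prod_congr rfl h1, ← Real.exp_sum]
  congr 1
  have hmaps : ∀ e ∈ T.filter (fun e => e ∈ E), cpt T e ∈ cps T := fun e he =>
    mem_cps.mpr ⟨e, (Finset.mem_filter.mp he).1, rfl⟩
  rw [← Finset.sum_fiberwise_of_maps_to hmaps]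
  refine Finset.sum_congr rfl fun γ hγ => ?_
  obtain ⟨u, hu, rfl⟩ := mem_cps.mp hγ
  have hfib : (T.filter (fun e => e ∈ E)).filter (fun e => cpt T e = cpt T u) =
      (cpt T u).filter (fun e => e ∈ E) := by
    ext e
    simp only [Finset.mem_filter]
    constructor
    · rintro ⟨⟨h1, h2⟩, h3⟩
      exact ⟨by rw [← h3]; exact self_mem h1, h2⟩
    · rintro ⟨h1, h2⟩
      exact ⟨⟨cpt_sub _ _ h1, h2⟩, cpt_eq hu h1⟩
  rw [hfib]
  have h2 : ∀ e ∈ (cpt T u).filter (fun e => e ∈ E), h (cpt T e).card = h (cpt T u).card := by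
    intro e he
    rw [cpt_eq hu (Finset.mem_filter.mp he).1]
  rw [Finset.sum_congr rfl h2, Finset.sum_const, nsmul_eq_mul]

/-- **Exponential moment.** -/
theorem expo (β : ℝ) (E : Finset Ed) (h : ℕ → ℝ) (hh : ∀ k, 0 ≤ h k) (c : ℝ)
    (hc : ∀ k : ℕ, 1 ≤ k → (Real.exp ((k : ℝ) * h k) - 1) * Real.exp (-(2 * β)) ^ k ≤
      c * (1 / 2) ^ (17 * k)) :
    ∑ S ∈ (Finset.Icc lo hi).powerset, wt nb β S *
        Real.exp (∑ e ∈ (ed S).filter (fun e => e ∈ E), h (cpt (ed S) e).card) ≤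
      Zf nb (Finset.Icc lo hi) β * Real.exp (E.card * c) := by
  classical
  set Λ := Finset.Icc lo hi with hΛ
  let w : Finset Ed → ℝ := fun γ =>
    Real.exp (((γ.filter (fun e => e ∈ E)).card : ℝ) * h γ.card) - 1
  have hw : ∀ γ, 0 ≤ w γ := by
    intro γ
    have : 1 ≤ Real.exp (((γ.filter (fun e => e ∈ E)).card : ℝ) * h γ.card) :=
      Real.one_le_exp (mul_nonneg (Nat.cast_nonneg _) (hh _))
    simp only [w]; linarith
  have h1 := moment lo hi β w hw
  have h2 : ∀ S : Finset V, ∏ γ ∈ cps (ed S), (1 + w γ) =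
      Real.exp (∑ e ∈ (ed S).filter (fun e => e ∈ E), h (cpt (ed S) e).card) :=
    fun S => prod_cps (ed S) E h
  simp_rw [h2] at h1
  refine h1.trans ?_
  apply mul_le_mul_of_nonneg_left _ (Zf_pos nb Λ β).le
  apply Real.exp_le_exp.mpr
  have hc0 : 0 ≤ c := by
    have h30 := hc 1 le_rfl
    have h3 : 0 ≤ (Real.exp (((1 : ℕ) : ℝ) * h 1) - 1) * Real.exp (-(2 * β)) ^ 1 := by
      apply mul_nonneg
      · have : 1 ≤ Real.exp (((1 : ℕ) : ℝ) * h 1) :=
          Real.one_le_exp (mul_nonneg (Nat.cast_nonneg _) (hh _))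
        linarith
      · positivity
    by_contra hneg
    push Not at hneg
    have h31 : c * (1 / 2) ^ (17 * 1) < 0 := mul_neg_of_neg_of_pos hneg (by positivity)
    exact absurd (h3.trans h30) (not_le.mpr h31)
  -- bound each term by a sum over the edges of `E`
  have h3 : ∀ γ ∈ univ' Λ, w γ * Real.exp (-(2 * β)) ^ γ.card ≤
      ∑ e ∈ E, (if e ∈ γ then c * (1 / 2 : ℝ) ^ (17 * γ.card) else 0) := by
    intro γ hγ
    rw [mem_univ'] at hγ
    have hk : 1 ≤ γ.card := Finset.card_pos.mpr hγ.2.2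
    by_cases hE : (γ.filter (fun e => e ∈ E)) = ∅
    · have : w γ = 0 := by simp only [w, hE]; simp
      rw [this, zero_mul]
      apply Finset.sum_nonneg
      intro e _
      split_ifs
      · positivity
      · exact le_refl _
    · obtain ⟨e0, he0⟩ := Finset.nonempty_iff_ne_empty.mpr hE
      rw [Finset.mem_filter] at he0
      have h4 : w γ ≤ Real.exp ((γ.card : ℝ) * h γ.card) - 1 := by
        simp only [w]
        have : ((γ.filter (fun e => e ∈ E)).card : ℝ) ≤ γ.card := by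
          exact_mod_cast Finset.card_filter_le _ _
        have := Real.exp_le_exp.mpr (mul_le_mul_of_nonneg_right this (hh γ.card))
        linarith
      calc w γ * Real.exp (-(2 * β)) ^ γ.card
          ≤ (Real.exp ((γ.card : ℝ) * h γ.card) - 1) * Real.exp (-(2 * β)) ^ γ.card :=
            mul_le_mul_of_nonneg_right h4 (by positivity)
        _ ≤ c * (1 / 2) ^ (17 * γ.card) := hc _ hk
        _ = (if e0 ∈ γ then c * (1 / 2 : ℝ) ^ (17 * γ.card) else 0) := by rw [if_pos he0.1]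
        _ ≤ _ := by
            refine Finset.single_le_sum
              (f := fun e => (if e ∈ γ then c * (1 / 2 : ℝ) ^ (17 * γ.card) else 0))
              (fun e _ => ?_) he0.2
            split_ifs
            · positivity
            · exact le_refl _
  refine (Finset.sum_le_sum h3).trans ?_
  rw [Finset.sum_comm]
  have h5 : ∀ e ∈ E, ∑ γ ∈ univ' Λ, (if e ∈ γ then c * (1 / 2 : ℝ) ^ (17 * γ.card) else 0) ≤
      c := by
    intro e _
    rw [← Finset.sum_filter, ← Finset.mul_sum]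
    have := count (pn (d := 2)) (8 * 2) card_pn e ((univ' Λ).filter (fun γ => e ∈ γ))
      (fun T hT => (Finset.mem_filter.mp hT).2)
      (fun T hT => (mem_univ'.mp (Finset.mem_filter.mp hT).1).2.1)
    calc c * ∑ γ ∈ (univ' Λ).filter (fun γ => e ∈ γ), (1 / 2 : ℝ) ^ (17 * γ.card)
        ≤ c * 1 := mul_le_mul_of_nonneg_left this hc0
      _ = c := mul_one c
  refine (Finset.sum_le_sum h5).trans ?_
  rw [Finset.sum_const, nsmul_eq_mul]

/-- **Tail bound.** -/
theorem tail (β : ℝ) (E : Finset Ed) (h : ℕ → ℝ) (hh : ∀ k, 0 ≤ h k) (c M : ℝ)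
    (hc : ∀ k : ℕ, 1 ≤ k → (Real.exp ((k : ℝ) * h k) - 1) * Real.exp (-(2 * β)) ^ k ≤
      c * (1 / 2) ^ (17 * k)) :
    ∑ S ∈ (Finset.Icc lo hi).powerset.filter (fun S =>
        M ≤ ∑ e ∈ (ed S).filter (fun e => e ∈ E), h (cpt (ed S) e).card), wt nb β S ≤
      Zf nb (Finset.Icc lo hi) β * Real.exp (E.card * c - M) := by
  classical
  have h1 := expo lo hi β E h hh c hc
  have h2 : Real.exp M * ∑ S ∈ (Finset.Icc lo hi).powerset.filter (fun S =>
        M ≤ ∑ e ∈ (ed S).filter (fun e => e ∈ E), h (cpt (ed S) e).card), wt nb β S ≤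
      ∑ S ∈ (Finset.Icc lo hi).powerset, wt nb β S *
        Real.exp (∑ e ∈ (ed S).filter (fun e => e ∈ E), h (cpt (ed S) e).card) := by
    rw [Finset.mul_sum]
    refine (Finset.sum_le_sum (fun S hS => ?_)).trans
      (Finset.sum_le_sum_of_subset_of_nonneg (Finset.filter_subset _ _) (fun S _ _ => ?_))
    · rw [Finset.mem_filter] at hS
      rw [mul_comm]
      exact mul_le_mul_of_nonneg_left (Real.exp_le_exp.mpr hS.2) (wt_pos nb β S).le
    · exact mul_nonneg (wt_pos nb β S).le (Real.exp_pos _).le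
  have h3 := h2.trans h1
  have h4 : Real.exp (E.card * c - M) = Real.exp (E.card * c) / Real.exp M := Real.exp_sub _ _
  rw [h4, ← mul_div_assoc, le_div_iff₀ (Real.exp_pos M)]
  linarith

end flip

end Pool.Agent.Y995.IsingPlus.Expo
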