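import Pool.Agent.Results.MP_4cb49c_pr.RandomStart
import Pool.Agent.Y995.IsingPlus.Chain
import Pool.Agent.Y995.IsingPlus.Expo

/-!
The heat bath dynamics with plus boundary condition: monotonicity and transitions.
-/

set_option autoImplicit false

namespace Pool.Agent.Y995.IsingPlus.Dyn

open Finset Matrix
open Pool.Agent.Results.MP_4cb49c_pr.RandomStart
open Pool.Agent.Helper580.IsingDyn (hb sum_units)
open Pool.Agent.Helper580.IsingGraph (bd wt Zf E Zf_pos wt_pos)
open Pool.Agent.Helper580.IsingLat (nb)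
open Pool.Agent.Helper580.IsingCut (ed)

section mono

variable {d : ℕ} (Λ : Finset (Fin d → ℤ)) (β : ℝ)

/-- the coordinatewise order on configurations -/
def Le (σ τ : Λ → ℤˣ) : Prop := ∀ x, ((σ x : ℤ) : ℝ) ≤ ((τ x : ℤ) : ℝ)

/-- decreasing functions -/
def Dec (f : (Λ → ℤˣ) → ℝ) : Prop := ∀ σ τ, Le Λ σ τ → f τ ≤ f σ

theorem unit_le (s : ℤˣ) : ((s : ℤ) : ℝ) ≤ (((1 : ℤˣ) : ℤ) : ℝ) := by
  rcases Int.units_eq_one_or s with h | h <;> rw [h] <;> norm_num

theorem neg_le_unit (s : ℤˣ) : (((-1 : ℤˣ) : ℤ) : ℝ) ≤ ((s : ℤ) : ℝ) := by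
  rcases Int.units_eq_one_or s with h | h <;> rw [h] <;> norm_num

theorem le_plus (σ : Λ → ℤˣ) : Le Λ σ (fun _ => 1) := fun x => unit_le (σ x)

theorem le_update {σ τ : Λ → ℤˣ} (h : Le Λ σ τ) (x : Λ) (s : ℤˣ) :
    Le Λ (Function.update σ x s) (Function.update τ x s) := by
  intro y
  by_cases hy : y = x
  · subst hy; simp
  · rw [Function.update_of_ne hy, Function.update_of_ne hy]; exact h y

theorem update_le (σ : Λ → ℤˣ) (x : Λ) :
    Le Λ (Function.update σ x (-1)) (Function.update σ x 1) := by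
  intro y
  by_cases hy : y = x
  · subst hy; simp
  · rw [Function.update_of_ne hy, Function.update_of_ne hy]

theorem field_mono {σ τ : Λ → ℤˣ} (h : Le Λ σ τ) (x : Λ) : field Λ x σ ≤ field Λ x τ := by
  unfold field
  have : ∀ y : Λ, (if Adj x.1 y.1 then ((σ y : ℤ) : ℝ) else 0) ≤
      (if Adj x.1 y.1 then ((τ y : ℤ) : ℝ) else 0) := by
    intro y
    split_ifs
    · exact h y
    · exact le_refl _
  have := Finset.sum_le_sum fun (y : Λ) (_ : y ∈ Finset.univ) => this y
  linarith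

theorem rate_mono (hβ : 0 ≤ β) {σ τ : Λ → ℤˣ} (h : Le Λ σ τ) (x : Λ) :
    rate Λ β x σ 1 ≤ rate Λ β x τ 1 := by
  rw [rate_eq, rate_eq, sum_units, sum_units]
  have hf := field_mono Λ h x
  set F := field Λ x σ
  set F' := field Λ x τ
  have e1 : (((1 : ℤˣ) : ℤ) : ℝ) = 1 := by norm_num
  have e2 : (((-1 : ℤˣ) : ℤ) : ℝ) = -1 := by norm_num
  rw [e1, e2]
  rw [div_le_div_iff₀ (by positivity) (by positivity), mul_add, mul_add, ← Real.exp_add,
    ← Real.exp_add, ← Real.exp_add, ← Real.exp_add]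
  have h1 : β * (1 * F) + β * (1 * F') = β * (1 * F') + β * (1 * F) := by ring
  have h2 : Real.exp (β * (1 * F) + β * (-1 * F')) ≤ Real.exp (β * (1 * F') + β * (-1 * F)) := by
    apply Real.exp_le_exp.mpr
    nlinarith
  rw [h1]
  linarith

theorem dec_hb (hβ : 0 ≤ β) {f : (Λ → ℤˣ) → ℝ} (hf : Dec Λ f) : Dec Λ (hb (rate Λ β) f) := by
  intro σ τ h
  unfold Pool.Agent.Helper580.IsingDyn.hb
  apply div_le_div_of_nonneg_right _ (Nat.cast_nonneg _)
  apply Finset.sum_le_sum
  intro x _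
  rw [sum_units, sum_units]
  have h1 := rate_mono Λ β hβ h x
  have s1 := rate_sum Λ β x σ
  have s2 := rate_sum Λ β x τ
  rw [sum_units] at s1 s2
  have p1 := (rate_pos Λ β x τ 1).le
  have p2 := (rate_pos Λ β x τ (-1)).le
  have a1 := hf _ _ (le_update Λ h x 1)
  have a2 := hf _ _ (le_update Λ h x (-1))
  have a3 := hf _ _ (update_le Λ σ x)
  have e1 : rate Λ β x τ (-1) = 1 - rate Λ β x τ 1 := by linarith
  have e2 : rate Λ β x σ (-1) = 1 - rate Λ β x σ 1 := by linarith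
  rw [e1] at p2 ⊢
  rw [e2]
  nlinarith [mul_le_mul_of_nonneg_left a1 p1, mul_le_mul_of_nonneg_left a2 p2,
    mul_nonneg (sub_nonneg.mpr h1) (sub_nonneg.mpr a3)]

theorem dec_iter (hβ : 0 ≤ β) {f : (Λ → ℤˣ) → ℝ} (hf : Dec Λ f) (t : ℕ) :
    Dec Λ ((glauber Λ β ^ t) *ᵥ f) := by
  rw [glauber_iter]
  induction t with
  | zero => simpa using hf
  | succ t ih =>
    rw [Function.iterate_succ_apply']
    exact dec_hb Λ β hβ ih

/-- decreasing functions are smallest from the all-plus state -/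
theorem plus_le (hβ : 0 ≤ β) {f : (Λ → ℤˣ) → ℝ} (hf : Dec Λ f) (t : ℕ) (η : Λ → ℤˣ) :
    ((glauber Λ β ^ t) *ᵥ f) (fun _ => 1) ≤ ((glauber Λ β ^ t) *ᵥ f) η :=
  dec_iter Λ β hβ hf t η _ (le_plus Λ η)

theorem mset_sub {σ τ : Λ → ℤˣ} (h : Le Λ σ τ) : mset τ ⊆ mset σ := by
  intro x hx
  rw [mem_mset] at hx ⊢
  obtain ⟨hx, h1⟩ := hx
  refine ⟨hx, ?_⟩
  have h2 := h ⟨x, hx⟩
  rw [h1] at h2
  rcases Int.units_eq_one_or (σ ⟨x, hx⟩) with h3 | h3
  · rw [h3] at h2; norm_num at h2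
  · exact h3

theorem dec_indicator (A : Finset (Fin d → ℤ) → Prop) [DecidablePred A]
    (hA : ∀ S S', S ⊆ S' → A S → A S') :
    Dec Λ (fun σ => if A (mset σ) then (1 : ℝ) else 0) := by
  intro σ τ h
  simp only
  split_ifs with h1 h2
  · exact le_refl _
  · exact absurd (hA _ _ (mset_sub Λ h) h1) h2
  · norm_num
  · exact le_refl _

/-- comparison of the all-plus start with the stationary flow -/
theorem plus_flow (hβ : 0 ≤ β) (A : Finset (Fin d → ℤ) → Prop) [DecidablePred A]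
    (hA : ∀ S S', S ⊆ S' → A S → A S') (𝒟 : Finset (Λ → ℤˣ)) (t : ℕ) :
    (∑ η ∈ Finset.univ.filter (fun η : Λ → ℤˣ => A (mset η)), (glauber Λ β ^ t) (fun _ => 1) η) *
      ∑ σ ∈ 𝒟, ising Λ β σ ≤
    ∑ σ ∈ Finset.univ.filter (fun η : Λ → ℤˣ => A (mset η)), ∑ η ∈ 𝒟,
      ising Λ β σ * (glauber Λ β ^ t) σ η := by
  classical
  have e : ∀ η : Λ → ℤˣ, ((glauber Λ β ^ t) *ᵥ (fun σ => if A (mset σ) then (1 : ℝ) else 0)) η =
      ∑ σ ∈ Finset.univ.filter (fun σ : Λ → ℤˣ => A (mset σ)), (glauber Λ β ^ t) η σ := by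
    intro η
    rw [Finset.sum_filter]
    simp only [Matrix.mulVec, dotProduct, mul_ite, mul_one, mul_zero]
  rw [← e, Finset.mul_sum]
  calc ∑ σ ∈ 𝒟, ((glauber Λ β ^ t) *ᵥ (fun σ => if A (mset σ) then (1 : ℝ) else 0))
        (fun _ => 1) * ising Λ β σ
      ≤ ∑ σ ∈ 𝒟, ((glauber Λ β ^ t) *ᵥ (fun σ => if A (mset σ) then (1 : ℝ) else 0)) σ *
          ising Λ β σ := Finset.sum_le_sum fun σ _ => mul_le_mul_of_nonneg_right
            (plus_le Λ β hβ (dec_indicator Λ A hA) t σ) (ising_pos Λ β σ).le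
    _ = ∑ η ∈ 𝒟, ∑ σ ∈ Finset.univ.filter (fun σ : Λ → ℤˣ => A (mset σ)),
          ising Λ β η * (glauber Λ β ^ t) η σ := by
        refine Finset.sum_congr rfl fun η _ => ?_
        rw [e, mul_comm, Finset.mul_sum]
    _ = ∑ σ ∈ Finset.univ.filter (fun σ : Λ → ℤˣ => A (mset σ)), ∑ η ∈ 𝒟,
          ising Λ β η * (glauber Λ β ^ t) η σ := Finset.sum_comm
    _ = _ := by
        refine Finset.sum_congr rfl fun σ _ => Finset.sum_congr rfl fun η _ => ?_
        exact Chain.rev_pow (glauber Λ β) (glauber Λ β) (ising Λ β)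
          (glauber_balance Λ β) t η σ

/-! ### transitions -/

theorem step_update {σ η : Λ → ℤˣ} (h : glauber Λ β σ η ≠ 0) :
    ∃ (x : Λ) (s : ℤˣ), η = Function.update σ x s := by
  classical
  unfold glauber at h
  have h1 : (∑ x : Λ, if ∀ y, y ≠ x → η y = σ y then
      ising Λ β η / ∑ s : ℤˣ, ising Λ β (Function.update σ x s) else 0) ≠ 0 := by
    intro h0
    apply h
    rw [h0, zero_div]
  obtain ⟨x, _, hx⟩ := Finset.exists_ne_zero_of_sum_ne_zero h1
  refine ⟨x, η x, ?_⟩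
  by_cases hc : ∀ y, y ≠ x → η y = σ y
  · funext y
    by_cases hy : y = x
    · subst hy; simp
    · rw [Function.update_of_ne hy]; exact hc y hy
  · rw [if_neg hc] at hx; exact absurd rfl hx

theorem mset_update (σ : Λ → ℤˣ) (x : Λ) (s : ℤˣ) :
    mset (Function.update σ x s) = mset σ ∨
      mset (Function.update σ x s) = symmDiff (mset σ) {x.1} := by
  classical
  by_cases h : s = σ x
  · left
    rw [h, Function.update_eq_self]
  · right
    ext y
    rw [Finset.mem_symmDiff, Finset.mem_singleton, mem_mset, mem_mset]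
    by_cases hy : y = x.1
    · subst hy
      have hs : s = -1 ↔ ¬ σ x = -1 := by
        rcases Int.units_eq_one_or s with h1 | h1 <;> rcases Int.units_eq_one_or (σ x) with h2 | h2
        · exact absurd (h1.trans h2.symm) h
        · rw [h1, h2]; decide
        · rw [h1, h2]; decide
        · exact absurd (h1.trans h2.symm) h
      constructor
      · rintro ⟨h1, h2⟩
        have h3 : Function.update σ x s ⟨x.1, h1⟩ = s := by
          have : (⟨x.1, h1⟩ : Λ) = x := rfl
          rw [this]; simp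
        rw [h3] at h2
        right
        refine ⟨rfl, ?_⟩
        rintro ⟨h4, h5⟩
        exact hs.mp h2 h5
      · rintro (⟨_, h2⟩ | ⟨_, h2⟩)
        · exact absurd rfl h2
        · refine ⟨x.2, ?_⟩
          have h3 : Function.update σ x s ⟨x.1, x.2⟩ = s := by
            have : (⟨x.1, x.2⟩ : Λ) = x := rfl
            rw [this]; simp
          rw [h3]
          apply hs.mpr
          intro h5
          exact h2 ⟨x.2, h5⟩
    · have key : ∀ hyΛ : y ∈ Λ, Function.update σ x s ⟨y, hyΛ⟩ = σ ⟨y, hyΛ⟩ := by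
        intro hyΛ
        apply Function.update_of_ne
        intro h'
        exact hy (congrArg Subtype.val h')
      constructor
      · rintro ⟨h1, h2⟩
        rw [key h1] at h2
        exact Or.inl ⟨⟨h1, h2⟩, hy⟩
      · rintro (⟨⟨h1, h2⟩, _⟩ | ⟨h1, _⟩)
        · exact ⟨h1, by rw [key h1]; exact h2⟩
        · exact absurd h1 hy

/-- quadratic variation of a function of the minus set -/
theorem variation (g : Finset (Fin d → ℤ) → ℝ) (a : ℝ) (σ : Λ → ℤˣ)
    (ha : ∀ x : Fin d → ℤ, |g (symmDiff (mset σ) {x}) - g (mset σ)| ≤ a) (ha0 : 0 ≤ a) :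
    ∑ η, glauber Λ β σ η * (g (mset η) - g (mset σ)) ^ 2 ≤
      a ^ 2 * ((Λ.filter (fun x => g (symmDiff (mset σ) {x}) ≠ g (mset σ))).card : ℝ) / Λ.card := by
  classical
  rw [glauber_sum Λ β (fun η => (g (mset η) - g (mset σ)) ^ 2) σ]
  unfold Pool.Agent.Helper580.IsingDyn.hb
  rw [Fintype.card_coe]
  apply div_le_div_of_nonneg_right _ (Nat.cast_nonneg _)
  have h1 : ∀ x : Λ, ∑ s, rate Λ β x σ s * (g (mset (Function.update σ x s)) - g (mset σ)) ^ 2 ≤
      (if g (symmDiff (mset σ) {x.1}) ≠ g (mset σ) then a ^ 2 else 0) := by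
    intro x
    by_cases hx : g (symmDiff (mset σ) {x.1}) ≠ g (mset σ)
    · rw [if_pos hx]
      have h2 : ∀ s, (g (mset (Function.update σ x s)) - g (mset σ)) ^ 2 ≤ a ^ 2 := by
        intro s
        rcases mset_update Λ σ x s with h | h <;> rw [h]
        · rw [sub_self, zero_pow two_ne_zero]; positivity
        · rw [← sq_abs (g (symmDiff (mset σ) {x.1}) - g (mset σ))]
          exact pow_le_pow_left₀ (abs_nonneg _) (ha x.1) 2
      calc ∑ s, rate Λ β x σ s * (g (mset (Function.update σ x s)) - g (mset σ)) ^ 2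
          ≤ ∑ s, rate Λ β x σ s * a ^ 2 := Finset.sum_le_sum fun s _ =>
            mul_le_mul_of_nonneg_left (h2 s) (rate_pos Λ β x σ s).le
        _ = a ^ 2 := by rw [← Finset.sum_mul, rate_sum, one_mul]
    · rw [if_neg hx]
      push Not at hx
      apply le_of_eq
      apply Finset.sum_eq_zero
      intro s _
      rcases mset_update Λ σ x s with h | h <;> rw [h]
      · rw [sub_self]; simp
      · rw [hx, sub_self]; simp
  refine (Finset.sum_le_sum fun x _ => h1 x).trans (le_of_eq ?_)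
  rw [Finset.sum_coe_sort Λ (fun x => if g (symmDiff (mset σ) {x}) ≠ g (mset σ) then a ^ 2 else 0),
    ← Finset.sum_filter, Finset.sum_const, nsmul_eq_mul, mul_comm]

/-- probabilities of events -/
theorem prob_eq (Q : Finset (Fin d → ℤ) → Prop) [DecidablePred Q] :
    ∑ σ ∈ Finset.univ.filter (fun σ : Λ → ℤˣ => Q (mset σ)), ising Λ β σ =
      (∑ S ∈ Λ.powerset.filter Q, wt nb β S) / Zf nb Λ β := by
  classical
  rw [Finset.sum_filter, Finset.sum_filter, Finset.sum_div,
    ← sum_config Λ (fun S => (if Q S then wt nb β S else 0) / Zf nb Λ β)]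
  refine Finset.sum_congr rfl fun σ _ => ?_
  split_ifs with h
  · rw [ising_eq]; rfl
  · rw [zero_div]

end mono

end Pool.Agent.Y995.IsingPlus.Dyn
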