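import Pool.Agent.Y995.IsingPlus.Dyn

/-!
Equilibrium estimates: droplets are present in equilibrium; a given box is mostly plus with positive
probability.
-/

set_option autoImplicit false

namespace Pool.Agent.Y995.IsingPlus.Equi

open Finset
open Pool.Agent.Helper580.IsingGKS Pool.Agent.Helper580.IsingGraph
  Pool.Agent.Helper580.IsingLat Pool.Agent.Helper580.IsingCut Pool.Agent.Helper580.IsingPeierls
  Pool.Agent.Y995.IsingPlus.Geo

/-- number of minus spins in `B` -/
def cnt (B S : Finset V) : ℕ := (B.filter (fun y => y ∈ S)).card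

theorem cnt_mono (B : Finset V) {S S' : Finset V} (h : S ⊆ S') : cnt B S ≤ cnt B S' := by
  unfold cnt
  apply Finset.card_le_card
  intro y hy
  rw [Finset.mem_filter] at hy ⊢
  exact ⟨hy.1, h hy.2⟩

theorem cnt_flip (B S : Finset V) : cnt B (symmDiff S B) + cnt B S = B.card := by
  unfold cnt
  rw [add_comm, ← Finset.card_filter_add_card_filter_not (s := B) (p := fun y => y ∈ S)]
  congr 2
  apply Finset.filter_congr
  intro y hy
  rw [Finset.mem_symmDiff]
  tauto

theorem cnt_flip_disj {B B' S : Finset V} (h : Disjoint B B') :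
    cnt B' (symmDiff S B) = cnt B' S := by
  unfold cnt
  congr 1
  apply Finset.filter_congr
  intro y hy
  have : y ∉ B := fun hB => (Finset.disjoint_left.mp h hB) hy
  rw [Finset.mem_symmDiff]
  tauto

theorem wt_flip {β : ℝ} (hβ : 0 ≤ β) (S B : Finset V) (m : ℕ) (hm : (ed B).card ≤ m) :
    Real.exp (-(2 * β * m)) * wt nb β S ≤ wt nb β (symmDiff S B) := by
  unfold wt
  rw [← Real.exp_add]
  apply Real.exp_le_exp.mpr
  rw [card_ed, card_ed, ed_symmDiff]
  have h1 : (symmDiff (ed S) (ed B)).card ≤ (ed S).card + (ed B).card := by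
    refine (Finset.card_le_card (t := ed S ∪ ed B) ?_).trans (Finset.card_union_le _ _)
    intro e he
    rw [Finset.mem_symmDiff] at he
    rw [Finset.mem_union]
    tauto
  have h2 : ((symmDiff (ed S) (ed B)).card : ℝ) ≤ (ed S).card + m := by
    have : (symmDiff (ed S) (ed B)).card ≤ (ed S).card + m := h1.trans (by omega)
    exact_mod_cast this
  nlinarith

/-- **No droplet anywhere** has small probability. -/
theorem no_droplet {β : ℝ} (hβ : 0 ≤ β) (Λ : Finset V) (m : ℕ) (ℬ : Finset (Finset V))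
    (hsub : ∀ B ∈ ℬ, B ⊆ Λ) (hdis : ∀ B ∈ ℬ, ∀ B' ∈ ℬ, B ≠ B' → Disjoint B B')
    (hm : ∀ B ∈ ℬ, (ed B).card ≤ m) :
    (1 + Real.exp (-(2 * β * m))) ^ ℬ.card *
      ∑ S ∈ Λ.powerset.filter (fun S => ∀ B ∈ ℬ, 2 * cnt B S < B.card), wt nb β S ≤
      Zf nb Λ β := by
  classical
  induction ℬ using Finset.induction_on with
  | empty =>
    simp only [Finset.card_empty, pow_zero, one_mul]
    unfold Zf
    apply Finset.sum_le_sum_of_subset_of_nonneg (Finset.filter_subset _ _)
    intro S _ _
    exact (wt_pos nb β S).le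
  | insert B ℬ hB ih =>
    have ih' := ih (fun B' h => hsub B' (Finset.mem_insert_of_mem h))
      (fun B' h B'' h' => hdis B' (Finset.mem_insert_of_mem h) B'' (Finset.mem_insert_of_mem h'))
      (fun B' h => hm B' (Finset.mem_insert_of_mem h))
    set 𝒜 := Λ.powerset.filter (fun S => ∀ B ∈ ℬ, 2 * cnt B S < B.card) with h𝒜
    set p0 := Real.exp (-(2 * β * m)) with hp0
    have hp0' : 0 < p0 := Real.exp_pos _
    have e1 : Λ.powerset.filter (fun S => ∀ B' ∈ insert B ℬ, 2 * cnt B' S < B'.card) =
        𝒜.filter (fun S => 2 * cnt B S < B.card) := by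
      ext S
      simp only [h𝒜, Finset.mem_filter, Finset.forall_mem_insert]
      tauto
    rw [e1, Finset.card_insert_of_notMem hB]
    have h1 : p0 * ∑ S ∈ 𝒜.filter (fun S => 2 * cnt B S < B.card), wt nb β S ≤
        ∑ S ∈ 𝒜.filter (fun S => ¬ 2 * cnt B S < B.card), wt nb β S := by
      rw [Finset.mul_sum]
      have hinj : Set.InjOn (fun S => symmDiff S B)
          ((𝒜.filter (fun S => 2 * cnt B S < B.card) : Finset (Finset V)) :
            Set (Finset V)) := by
        intro S _ S' _ h
        exact symmDiff_left_injective _ h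
      calc ∑ S ∈ 𝒜.filter (fun S => 2 * cnt B S < B.card), p0 * wt nb β S
          ≤ ∑ S ∈ 𝒜.filter (fun S => 2 * cnt B S < B.card), wt nb β (symmDiff S B) :=
            Finset.sum_le_sum fun S _ =>
              wt_flip hβ S B m (hm B (Finset.mem_insert_self _ _))
        _ = ∑ S ∈ (𝒜.filter (fun S => 2 * cnt B S < B.card)).image (fun S => symmDiff S B),
              wt nb β S := (Finset.sum_image hinj).symm
        _ ≤ _ := by
            apply Finset.sum_le_sum_of_subset_of_nonneg
            · intro S' hS'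
              rw [Finset.mem_image] at hS'
              obtain ⟨S, hS, rfl⟩ := hS'
              rw [Finset.mem_filter, h𝒜, Finset.mem_filter, Finset.mem_powerset] at hS
              rw [Finset.mem_filter, h𝒜, Finset.mem_filter, Finset.mem_powerset]
              refine ⟨⟨?_, ?_⟩, ?_⟩
              · intro x hx
                rw [Finset.mem_symmDiff] at hx
                rcases hx with hx | hx
                · exact hS.1.1 hx.1
                · exact hsub B (Finset.mem_insert_self _ _) hx.1
              · intro B' hB'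
                have hne : B ≠ B' := fun h => hB (h ▸ hB')
                rw [cnt_flip_disj (hdis B (Finset.mem_insert_self _ _) B'
                  (Finset.mem_insert_of_mem hB') hne)]
                exact hS.1.2 B' hB'
              · have h2 := cnt_flip B S
                have h3 := hS.2
                omega
            · intro S _ _
              exact (wt_pos nb β S).le
    have h2 := Finset.sum_filter_add_sum_filter_not 𝒜 (fun S => 2 * cnt B S < B.card)
      (fun S => wt nb β S)
    have h3 : (1 + p0) * ∑ S ∈ 𝒜.filter (fun S => 2 * cnt B S < B.card), wt nb β S ≤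
        ∑ S ∈ 𝒜, wt nb β S := by
      rw [← h2]; linarith
    calc (1 + p0) ^ (ℬ.card + 1) *
          ∑ S ∈ 𝒜.filter (fun S => 2 * cnt B S < B.card), wt nb β S
        = (1 + p0) ^ ℬ.card * ((1 + p0) *
            ∑ S ∈ 𝒜.filter (fun S => 2 * cnt B S < B.card), wt nb β S) := by ring
      _ ≤ (1 + p0) ^ ℬ.card * ∑ S ∈ 𝒜, wt nb β S :=
          mul_le_mul_of_nonneg_left h3 (by positivity)
      _ ≤ _ := ih'

/-! ### the boundary of a square -/

/-- the square with lower left corner `c` and side `l` -/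
noncomputable def sq (c : V) (l : ℕ) : Finset V :=
  Finset.Icc c (fun k => c k + (l : ℤ) - 1)

theorem mem_sq {c : V} {l : ℕ} {x : V} : x ∈ sq c l ↔ ∀ k, c k ≤ x k ∧ x k ≤ c k + l - 1 := by
  unfold sq
  rw [Finset.mem_Icc, Pi.le_def, Pi.le_def]
  exact ⟨fun h k => ⟨h.1 k, h.2 k⟩, fun h => ⟨fun k => (h k).1, fun k => (h k).2⟩⟩

theorem card_sq (c : V) (l : ℕ) : (sq c l).card = l ^ 2 := by
  unfold sq
  rw [Pi.card_Icc]
  simp only [Int.card_Icc]
  have h : ∀ k : Fin 2, (c k + (l : ℤ) - 1 + 1 - c k).toNat = l := by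
    intro k; omega
  simp only [h, Finset.prod_const, Finset.card_univ, Fintype.card_fin]

theorem uv_same (i : Fin 2) : uv i i = 1 := by simp [uv]

theorem card_ed_sq (c : V) (l : ℕ) : (ed (sq c l)).card ≤ 4 * l := by
  classical
  -- the four sides
  let f : Fin 2 × Bool → ℤ → Ed := fun p t =>
    (fun k => if k = p.1 then (if p.2 then c k - 1 else c k + l - 1) else t, p.1)
  have hsub : ed (sq c l) ⊆ (Finset.univ : Finset (Fin 2 × Bool)).biUnion
      (fun p => (Finset.Icc (c (1 - p.1)) (c (1 - p.1) + l - 1)).image (f p)) := by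
    intro e he
    rw [mem_ed, mem_sq, mem_sq] at he
    have hother : ∀ k : Fin 2, k ≠ e.2 → k = 1 - e.2 := by
      intro k hk
      generalize e.2 = i at hk
      revert hk
      fin_cases k <;> fin_cases i <;> simp
    have hadd : ∀ k : Fin 2, (e.1 + uv e.2) k = e.1 k + uv e.2 k := fun _ => rfl
    have hne1 : (1 - e.2 : Fin 2) ≠ e.2 := by
      generalize e.2 = i
      fin_cases i <;> simp
    have huv0 : uv e.2 (1 - e.2) = 0 := by
      unfold uv
      rw [Pi.single_eq_of_ne hne1]
    have huv1 := uv_same e.2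
    -- the transversal coordinate is in range
    have htr : c (1 - e.2) ≤ e.1 (1 - e.2) ∧ e.1 (1 - e.2) ≤ c (1 - e.2) + l - 1 := by
      by_contra hcon
      apply he
      constructor
      · intro h; exact absurd (h (1 - e.2)) hcon
      · intro h
        have := h (1 - e.2)
        rw [hadd, huv0, add_zero] at this
        exact absurd this hcon
    have hin : ∀ y : V, (∀ k, c k ≤ y k ∧ y k ≤ c k + l - 1) ↔
        ((c e.2 ≤ y e.2 ∧ y e.2 ≤ c e.2 + l - 1) ∧
          (c (1 - e.2) ≤ y (1 - e.2) ∧ y (1 - e.2) ≤ c (1 - e.2) + l - 1)) := by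
      intro y
      constructor
      · intro h; exact ⟨h _, h _⟩
      · rintro ⟨h1, h2⟩ k
        by_cases hk : k = e.2
        · rw [hk]; exact h1
        · rw [hother k hk]; exact h2
    rw [hin, hin, hadd, hadd, huv0, huv1, add_zero] at he
    rw [Finset.mem_biUnion]
    have hcase : e.1 e.2 = c e.2 - 1 ∨ e.1 e.2 = c e.2 + l - 1 := by
      by_contra hcon
      push Not at hcon
      apply he
      constructor
      · rintro ⟨h1, h2⟩
        exact ⟨⟨by omega, by omega⟩, h2⟩
      · rintro ⟨h1, h2⟩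
        exact ⟨⟨by omega, by omega⟩, h2⟩
    rcases hcase with hc | hc
    · refine ⟨(e.2, true), Finset.mem_univ _, ?_⟩
      rw [Finset.mem_image]
      refine ⟨e.1 (1 - e.2), Finset.mem_Icc.mpr htr, ?_⟩
      apply Prod.ext
      · funext k
        by_cases hk : k = e.2
        · simp only [f, if_true, hk]
          exact hc.symm
        · simp only [f, if_neg hk]
          rw [← hother k hk]
      · rfl
    · refine ⟨(e.2, false), Finset.mem_univ _, ?_⟩
      rw [Finset.mem_image]
      refine ⟨e.1 (1 - e.2), Finset.mem_Icc.mpr htr, ?_⟩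
      apply Prod.ext
      · funext k
        by_cases hk : k = e.2
        · simp only [f, if_true, hk]
          exact hc.symm
        · simp only [f, if_neg hk]
          rw [← hother k hk]
      · rfl
  refine (Finset.card_le_card hsub).trans ?_
  refine (Finset.card_biUnion_le_card_mul _ _ l (fun p _ => ?_)).trans ?_
  · refine Finset.card_image_le.trans ?_
    rw [Int.card_Icc]
    omega
  · rw [Finset.card_univ, Fintype.card_prod, Fintype.card_fin, Fintype.card_bool]

/-! ### a box is mostly plus with positive probability -/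

theorem half_le_ms {β : ℝ} (hβ : Real.exp (-(2 * β)) ≤ (1 / 5 : ℝ) * (1 / 2) ^ (8 * 2 + 1)) :
    1 / 2 ≤ ms 2 β := by
  obtain ⟨q, hq⟩ : ∃ q : ℝ, q = (1 / 5 : ℝ) * (1 / 2) ^ (8 * 2 + 1) := ⟨_, rfl⟩
  rw [← hq] at hβ
  have hq0 : 0 < q := by rw [hq]; positivity
  have hq1 : q ≤ 1 := by
    rw [hq]; norm_num
  have hle : -(Real.log q) / 2 ≤ β := by
    have h1 := Real.log_le_log (Real.exp_pos _) hβ
    rw [Real.log_exp] at h1
    clear hβ hq hq0 hq1
    linarith
  have hb0 : 0 ≤ -(Real.log q) / 2 := by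
    have h1 := Real.log_nonpos hq0.le hq1
    clear hβ hq hq0 hq1
    linarith
  have hexp : Real.exp (-(2 * (-(Real.log q) / 2))) = q := by
    rw [show -(2 * (-(Real.log q) / 2)) = Real.log q by ring, Real.exp_log hq0]
  refine le_trans ?_ (ms_mono hb0 hle)
  apply le_ciInf
  intro N
  have h01 : (1 : Fin 2) ≠ 0 := by decide
  have hp := peierls h01 N (β := -(Real.log q) / 2) (by rw [hexp, hq])
  unfold mg E
  rw [le_div_iff₀ (Zf_pos _ _ _)]
  have hsum : ∑ S ∈ (cube 2 N).powerset, chi {0} S * wt nb (-(Real.log q) / 2) S =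
      Zf nb (cube 2 N) (-(Real.log q) / 2) - 2 * ∑ S ∈ (cube 2 N).powerset.filter
        (fun S => (0 : V) ∈ S), wt nb (-(Real.log q) / 2) S := by
    unfold Zf
    rw [Finset.sum_filter, Finset.mul_sum, ← Finset.sum_sub_distrib]
    refine Finset.sum_congr rfl fun S _ => ?_
    rw [chi_singleton]
    unfold sgn
    split_ifs <;> ring
  rw [hsum]
  linarith

theorem site_bound {β : ℝ} (hβ0 : 0 ≤ β)
    (hβ : Real.exp (-(2 * β)) ≤ (1 / 5 : ℝ) * (1 / 2) ^ (8 * 2 + 1)) {L : ℕ} {x : V}
    (hx : x ∈ box 2 L) :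
    ∑ S ∈ (box 2 L).powerset.filter (fun S => x ∈ S), wt nb β S ≤ 1 / 4 * Zf nb (box 2 L) β := by
  have h1 := (half_le_ms hβ).trans (E_box_ge hβ0 hx)
  unfold E at h1
  rw [le_div_iff₀ (Zf_pos _ _ _)] at h1
  have hsum : ∑ S ∈ (box 2 L).powerset, chi {x} S * wt nb β S =
      Zf nb (box 2 L) β - 2 * ∑ S ∈ (box 2 L).powerset.filter (fun S => x ∈ S), wt nb β S := by
    unfold Zf
    rw [Finset.sum_filter, Finset.mul_sum, ← Finset.sum_sub_distrib]
    refine Finset.sum_congr rfl fun S _ => ?_
    rw [chi_singleton]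
    unfold sgn
    split_ifs <;> ring
  rw [hsum] at h1
  linarith

/-- a box has few minus spins with probability at least `1/3` -/
theorem mostly_plus {β : ℝ} (hβ0 : 0 ≤ β)
    (hβ : Real.exp (-(2 * β)) ≤ (1 / 5 : ℝ) * (1 / 2) ^ (8 * 2 + 1)) {L : ℕ} {B : Finset V}
    (hB : B ⊆ box 2 L) (hBpos : 0 < B.card) :
    1 / 3 * Zf nb (box 2 L) β ≤
      ∑ S ∈ (box 2 L).powerset.filter (fun S => 8 * cnt B S ≤ 3 * B.card), wt nb β S := by
  classical
  set Λ := box 2 L with hΛ
  have h1 : ∑ S ∈ Λ.powerset, wt nb β S * (cnt B S : ℝ) ≤ B.card * (1 / 4 * Zf nb Λ β) := by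
    have e : ∀ S, wt nb β S * (cnt B S : ℝ) = ∑ x ∈ B, (if x ∈ S then wt nb β S else 0) := by
      intro S
      unfold cnt
      rw [← Finset.sum_filter, Finset.sum_const, nsmul_eq_mul, mul_comm]
    simp_rw [e]
    rw [Finset.sum_comm]
    calc ∑ x ∈ B, ∑ S ∈ Λ.powerset, (if x ∈ S then wt nb β S else 0)
        ≤ ∑ x ∈ B, (1 / 4 * Zf nb Λ β) := by
          refine Finset.sum_le_sum fun x hx => ?_
          rw [← Finset.sum_filter]
          exact site_bound hβ0 hβ (hB hx)
      _ = _ := by rw [Finset.sum_const, nsmul_eq_mul]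
  have h2 : (3 / 8 * (B.card : ℝ)) *
      ∑ S ∈ Λ.powerset.filter (fun S => ¬ 8 * cnt B S ≤ 3 * B.card), wt nb β S ≤
      ∑ S ∈ Λ.powerset, wt nb β S * (cnt B S : ℝ) := by
    rw [Finset.mul_sum]
    refine (Finset.sum_le_sum (fun S hS => ?_)).trans
      (Finset.sum_le_sum_of_subset_of_nonneg (Finset.filter_subset _ _) (fun S _ _ => ?_))
    · rw [Finset.mem_filter] at hS
      have h3 : (3 * B.card : ℝ) ≤ 8 * cnt B S := by
        have := hS.2
        have : 3 * B.card ≤ 8 * cnt B S := by omega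
        exact_mod_cast this
      rw [mul_comm]
      apply mul_le_mul_of_nonneg_left _ (wt_pos nb β S).le
      linarith
    · exact mul_nonneg (wt_pos nb β S).le (Nat.cast_nonneg _)
  have h3 := Finset.sum_filter_add_sum_filter_not Λ.powerset
    (fun S => 8 * cnt B S ≤ 3 * B.card) (fun S => wt nb β S)
  have h4 : ∑ S ∈ Λ.powerset, wt nb β S = Zf nb Λ β := rfl
  have hBc : (0 : ℝ) < B.card := by exact_mod_cast hBpos
  have h5 := h2.trans h1
  have h6 : ∑ S ∈ Λ.powerset.filter (fun S => ¬ 8 * cnt B S ≤ 3 * B.card), wt nb β S ≤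
      2 / 3 * Zf nb Λ β := by
    have h7 : (B.card : ℝ) * (3 / 8 *
        ∑ S ∈ Λ.powerset.filter (fun S => ¬ 8 * cnt B S ≤ 3 * B.card), wt nb β S) ≤
        B.card * (1 / 4 * Zf nb Λ β) := by linarith
    have h8 := le_of_mul_le_mul_left h7 hBc
    linarith
  rw [h4] at h3
  linarith

end Pool.Agent.Y995.IsingPlus.Equi
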