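import Pool.Agent.Y995.IsingPlus.Geo

/-!
The filtered droplet volume: only the boundary components with at least `b` edges are kept.  A single
flip changes it only next to a long component.
-/

set_option autoImplicit false

namespace Pool.Agent.Y995.IsingPlus.Filt

open Finset Pool.Agent.Helper580.IsingGKS Pool.Agent.Helper580.IsingGraph
  Pool.Agent.Helper580.IsingLat Pool.Agent.Helper580.IsingCut Pool.Agent.Y995.IsingPlus.Geo

/-- edges in long components -/
noncomputable def big (b : ℕ) (T : Finset Ed) : Finset Ed :=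
  T.filter (fun e => b ≤ (cpt T e).card)

/-- edges in short components -/
noncomputable def sml (b : ℕ) (T : Finset Ed) : Finset Ed :=
  T.filter (fun e => ¬ b ≤ (cpt T e).card)

/-- edges next to the four edges at `x` -/
def N (x : V) : Finset Ed := (ed ({x} : Finset V)).biUnion pn

theorem card_ed_one (x : V) : (ed ({x} : Finset V)).card ≤ 4 := by
  rw [← card_ed]
  unfold bd
  rw [Finset.sum_singleton]
  refine (Finset.card_le_card Finset.sdiff_subset).trans ?_
  have := card_nb_le x
  omega

theorem card_N (x : V) : (N x).card ≤ 64 := by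
  unfold N
  refine (Finset.card_biUnion_le_card_mul _ _ 16 (fun u _ => ?_)).trans ?_
  · have := card_pn u; omega
  · have := card_ed_one x; omega

theorem ed_one_close {x : V} {w : Ed} (hw : w ∈ ed ({x} : Finset V)) (k : Fin 2) :
    |w.1 k - x k| ≤ 1 := by
  rw [mem_ed, Finset.mem_singleton, Finset.mem_singleton] at hw
  have h := uv_bd w.2 k
  by_cases h1 : w.1 = x
  · rw [h1, sub_self, abs_zero]; norm_num
  · have h2 : w.1 + uv w.2 = x := by
      by_contra h2
      exact hw ⟨fun h => absurd h h1, fun h => absurd h h2⟩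
    have h3 : x k = w.1 k + uv w.2 k := by rw [← h2]; rfl
    rw [h3, abs_le]; constructor <;> omega

theorem N_close {x : V} {u : Ed} (hu : u ∈ N x) (k : Fin 2) : |u.1 k - x k| ≤ 2 := by
  unfold N at hu
  rw [Finset.mem_biUnion] at hu
  obtain ⟨w, hw, hu⟩ := hu
  have h1 := ed_one_close hw k
  have h2 := pn_close hu k
  have h3 : u.1 k - x k = (u.1 k - w.1 k) + (w.1 k - x k) := by ring
  rw [h3]
  refine (abs_add_le _ _).trans ?_
  linarith

theorem ed_one_sub (x : V) : ed ({x} : Finset V) ⊆ N x := fun u hu =>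
  Finset.mem_biUnion.mpr ⟨u, hu, self_mem_pn u⟩

/-- number of sites to which a given edge is close -/
theorem card_sites (e : Ed) (Λ : Finset V) : (Λ.filter (fun x => e ∈ N x)).card ≤ 32 := by
  classical
  have hsub : Λ.filter (fun x => e ∈ N x) ⊆
      (pn e).biUnion (fun w => ({w.1, w.1 + uv w.2} : Finset V)) := by
    intro x hx
    rw [Finset.mem_filter] at hx
    have h := hx.2
    unfold N at h
    rw [Finset.mem_biUnion] at h
    obtain ⟨w, hw, he⟩ := h
    rw [Finset.mem_biUnion]
    refine ⟨w, pn_symm.mp he, ?_⟩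
    rw [mem_ed, Finset.mem_singleton, Finset.mem_singleton] at hw
    rw [Finset.mem_insert, Finset.mem_singleton]
    by_cases h1 : w.1 = x
    · exact Or.inl h1.symm
    · right
      by_contra h2
      exact hw ⟨fun h => absurd h h1, fun h => absurd h.symm h2⟩
  refine (Finset.card_le_card hsub).trans ?_
  refine (Finset.card_biUnion_le_card_mul _ _ 2 (fun w _ => Finset.card_le_two)).trans ?_
  have := card_pn e
  omega

/-- edges whose component comes next to `x` -/
noncomputable def aff (T : Finset Ed) (x : V) : Finset Ed := by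
  classical
  exact T.filter (fun e => ∃ u ∈ cpt T e, u ∈ N x)

theorem mem_aff {T : Finset Ed} {x : V} {e : Ed} :
    e ∈ aff T x ↔ e ∈ T ∧ ∃ u ∈ cpt T e, u ∈ N x := by
  classical
  unfold aff
  rw [Finset.mem_filter]

theorem aff_cpt {T : Finset Ed} {x : V} {e v : Ed} (he : e ∈ aff T x) (hv : v ∈ cpt T e) :
    v ∈ aff T x := by
  rw [mem_aff] at he ⊢
  obtain ⟨h1, u, hu, hN⟩ := he
  exact ⟨cpt_sub T e hv, u, by rw [cpt_eq h1 hv]; exact hu, hN⟩

theorem unaff {T T' : Finset Ed} {x : V}
    (h : ∀ v, v ∉ ed ({x} : Finset V) → (v ∈ T ↔ v ∈ T')) {e : Ed} (he : e ∈ T)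
    (hn : e ∉ aff T x) : e ∈ T' ∧ cpt T e = cpt T' e := by
  have hno : ∀ u ∈ cpt T e, u ∉ N x := by
    intro u hu hN
    exact hn (mem_aff.mpr ⟨he, u, hu, hN⟩)
  have hsub : cpt T e ⊆ T' := by
    intro u hu
    have h1 : u ∉ ed ({x} : Finset V) := fun h' => hno u hu (ed_one_sub x h')
    exact (h u h1).mp (cpt_sub T e hu)
  refine ⟨hsub (self_mem he), ?_⟩
  refine cpt_congr (C := cpt T e) (cpt_sub T e) hsub (fun u hu v hv huv => cpt_cl hu hv huv) ?_
    (self_mem he)
  intro u hu v hv huv
  by_cases h1 : v ∈ ed ({x} : Finset V)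
  · exfalso
    exact hno u hu (Finset.mem_biUnion.mpr ⟨v, h1, pn_symm.mp huv⟩)
  · exact cpt_cl hu ((h v h1).mpr hv) huv

theorem unaff' {T T' : Finset Ed} {x : V}
    (h : ∀ v, v ∉ ed ({x} : Finset V) → (v ∈ T ↔ v ∈ T')) {e : Ed} (he : e ∈ T)
    (hn : e ∉ aff T x) : e ∉ aff T' x := by
  obtain ⟨h1, h2⟩ := unaff h he hn
  intro h3
  rw [mem_aff] at h3
  obtain ⟨_, u, hu, hN⟩ := h3
  rw [← h2] at hu
  exact hn (mem_aff.mpr ⟨he, u, hu, hN⟩)

theorem big_unaff (b : ℕ) {T T' : Finset Ed} {x : V}
    (h : ∀ v, v ∉ ed ({x} : Finset V) → (v ∈ T ↔ v ∈ T')) :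
    big b T \ aff T x = big b T' \ aff T' x := by
  have key : ∀ A B : Finset Ed, (∀ v, v ∉ ed ({x} : Finset V) → (v ∈ A ↔ v ∈ B)) →
      big b A \ aff A x ⊆ big b B \ aff B x := by
    intro A B hAB e he
    rw [Finset.mem_sdiff] at he ⊢
    unfold big at he ⊢
    rw [Finset.mem_filter] at he ⊢
    obtain ⟨h1, h2⟩ := unaff hAB he.1.1 he.2
    exact ⟨⟨h1, by rw [← h2]; exact he.1.2⟩, unaff' hAB he.1.1 he.2⟩
  exact Finset.Subset.antisymm (key T T' h) (key T' T (fun v hv => (h v hv).symm))

theorem sml_unaff (b : ℕ) {T T' : Finset Ed} {x : V}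
    (h : ∀ v, v ∉ ed ({x} : Finset V) → (v ∈ T ↔ v ∈ T')) :
    sml b T \ aff T x = sml b T' \ aff T' x := by
  have key : ∀ A B : Finset Ed, (∀ v, v ∉ ed ({x} : Finset V) → (v ∈ A ↔ v ∈ B)) →
      sml b A \ aff A x ⊆ sml b B \ aff B x := by
    intro A B hAB e he
    rw [Finset.mem_sdiff] at he ⊢
    unfold sml at he ⊢
    rw [Finset.mem_filter] at he ⊢
    obtain ⟨h1, h2⟩ := unaff hAB he.1.1 he.2
    exact ⟨⟨h1, by rw [← h2]; exact he.1.2⟩, unaff' hAB he.1.1 he.2⟩
  exact Finset.Subset.antisymm (key T T' h) (key T' T (fun v hv => (h v hv).symm))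

theorem big_sml_union (b : ℕ) (T : Finset Ed) : big b T ∪ sml b T = T :=
  Finset.filter_union_filter_not_eq _ _

theorem big_sml_disj (b : ℕ) (T : Finset Ed) : Disjoint (big b T) (sml b T) :=
  Finset.disjoint_filter_filter_not _ _ _

theorem pot_big_sml (b : ℕ) (T : Finset Ed) (y : V) :
    pot 0 T y = pot 0 (big b T) y + pot 0 (sml b T) y := by
  conv_lhs => rw [← big_sml_union b T]
  exact pot_union _ _ (big_sml_disj b T) y

/-- unions of components are closed -/
theorem closed_part {S : Finset V} {A : Finset Ed} (hA : A ⊆ ed S)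
    (h : ∀ u ∈ A, cpt (ed S) u ⊆ A) : Closed A :=
  closed_of_closure S A hA (fun u hu v hv huv =>
    h u hu (cpt_cl (self_mem (hA hu)) hv huv))

theorem sml_cpt {b : ℕ} {T : Finset Ed} {u : Ed} (hu : u ∈ sml b T) : cpt T u ⊆ sml b T := by
  intro v hv
  unfold sml at hu ⊢
  rw [Finset.mem_filter] at hu ⊢
  exact ⟨cpt_sub T u hv, by rw [cpt_eq hu.1 hv]; exact hu.2⟩

theorem sml_aff_zero (b : ℕ) (S : Finset V) (x y : V) (hy : ¬ ∀ k, |y k - x k| ≤ b + 1) :
    pot 0 (sml b (ed S) ∩ aff (ed S) x) y = 0 := by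
  have hsub : sml b (ed S) ∩ aff (ed S) x ⊆ ed S :=
    Finset.inter_subset_left.trans (Finset.filter_subset _ _)
  have hcl : Closed (sml b (ed S) ∩ aff (ed S) x) := by
    apply closed_part hsub
    intro u hu v hv
    rw [Finset.mem_inter] at hu ⊢
    exact ⟨sml_cpt hu.1 hv, aff_cpt hu.2 hv⟩
  have hbr : BR (fun k => x k - (b + 1)) (fun k => x k + (b + 1))
      (sml b (ed S) ∩ aff (ed S) x) := by
    intro e he
    rw [Finset.mem_inter] at he
    refine ⟨e.1, fun k => ?_, Or.inl rfl⟩
    obtain ⟨h1, u, hu, hN⟩ := mem_aff.mp he.2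
    have h2 := (Finset.mem_filter.mp he.1).2
    have h3 := cc_close (cpt_cc h1) (self_mem h1) hu k
    have h4 := N_close hN k
    have h5 : ((cpt (ed S) e).card : ℤ) + 1 ≤ b := by
      push Not at h2; exact_mod_cast h2
    rw [abs_le] at h3 h4
    show x k - (b + 1) ≤ e.1 k ∧ e.1 k ≤ x k + (b + 1)
    constructor <;> omega
  apply zero_out hbr hcl
  intro h
  apply hy
  intro k
  have := h k
  rw [abs_le]; constructor <;> omega

theorem symm_edge (S : Finset V) (x : V) (v : Ed) (hv : v ∉ ed ({x} : Finset V)) :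
    v ∈ ed S ↔ v ∈ ed (symmDiff S {x}) := by
  rw [ed_symmDiff, Finset.mem_symmDiff]
  exact ⟨fun h => Or.inl ⟨h, hv⟩, fun h => h.elim (fun h => h.1) (fun h => absurd h.1 hv)⟩

/-- a flip changes the filtered configuration only close by -/
theorem local_change (b : ℕ) (S : Finset V) (x y : V) (hy : ¬ ∀ k, |y k - x k| ≤ b + 1) :
    pot 0 (big b (ed S)) y = pot 0 (big b (ed (symmDiff S {x}))) y := by
  have h := symm_edge S x
  have h1 := pot_big_sml b (ed S) y
  have h2 := pot_big_sml b (ed (symmDiff S {x})) y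
  have h3 : pot 0 (ed (symmDiff S {x})) y = pot 0 (ed S) y := by
    rw [ed_symmDiff, pot_symmDiff]
    have : pot 0 (ed ({x} : Finset V)) y = 0 := by
      rw [pot_ed, if_neg]
      rw [Finset.mem_singleton]
      rintro rfl
      apply hy
      intro k
      rw [sub_self, abs_zero]
      positivity
    rw [this, add_zero]
  have h4 : pot 0 (sml b (ed S)) y = pot 0 (sml b (ed (symmDiff S {x}))) y := by
    have e1 : ∀ A : Finset V, pot 0 (sml b (ed A)) y =
        pot 0 (sml b (ed A) \ aff (ed A) x) y + pot 0 (sml b (ed A) ∩ aff (ed A) x) y := by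
      intro A
      conv_lhs => rw [← Finset.sdiff_union_inter (sml b (ed A)) (aff (ed A) x)]
      apply pot_union
      rw [Finset.disjoint_left]
      intro e; simp only [Finset.mem_sdiff, Finset.mem_inter]; tauto
    rw [e1 S, e1 (symmDiff S {x}), sml_aff_zero b S x y hy,
      sml_aff_zero b (symmDiff S {x}) x y hy, sml_unaff b h]
  rw [h1, h2, h4] at h3
  exact (add_right_cancel h3).symm

theorem card_aff_le {T : Finset Ed} {x : V} {b' : ℕ}
    (hsmall : ∀ e ∈ T, e ∈ N x → (cpt T e).card < b') : (aff T x).card ≤ 64 * b' := by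
  classical
  have hsub : aff T x ⊆ ((N x).filter (fun u => u ∈ T)).biUnion (fun u => cpt T u) := by
    intro e he
    obtain ⟨h1, u, hu, hN⟩ := mem_aff.mp he
    rw [Finset.mem_biUnion]
    exact ⟨u, Finset.mem_filter.mpr ⟨hN, cpt_sub T e hu⟩, cpt_symm h1 hu⟩
  refine (Finset.card_le_card hsub).trans ?_
  refine (Finset.card_biUnion_le_card_mul _ _ b' (fun u hu => ?_)).trans ?_
  · rw [Finset.mem_filter] at hu
    exact (hsmall u hu.2 hu.1).le
  · exact Nat.mul_le_mul_right _ ((Finset.card_filter_le _ _).trans (card_N x))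

/-- a flip changes the filtered configuration only next to a long component -/
theorem pivot (b b' : ℕ) (hb : 64 * b' + 4 < b) (S : Finset V) (x y : V)
    (hne : pot 0 (big b (ed S)) y ≠ pot 0 (big b (ed (symmDiff S {x}))) y) :
    ∃ e ∈ ed S, e ∈ N x ∧ b' ≤ (cpt (ed S) e).card := by
  by_contra hcon
  push Not at hcon
  apply hne
  have h := symm_edge S x
  set T := ed S with hT
  set T' := ed (symmDiff S {x}) with hT'
  have hc1 := card_aff_le hcon
  have hb1 : big b T ∩ aff T x = ∅ := by
    rw [Finset.eq_empty_iff_forall_notMem]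
    intro e he
    rw [Finset.mem_inter] at he
    have h2 := (Finset.mem_filter.mp he.1).2
    have h3 : cpt T e ⊆ aff T x := fun v hv => aff_cpt he.2 hv
    have := Finset.card_le_card h3
    omega
  have hsub : aff T' x ⊆ ed ({x} : Finset V) ∪ aff T x := by
    intro e he
    rw [Finset.mem_union]
    by_contra hc
    push Not at hc
    have he' : e ∈ T := (h e hc.1).mpr (mem_aff.mp he).1
    exact unaff' h he' hc.2 he
  have hc2 : (aff T' x).card ≤ 4 + 64 * b' := by
    refine (Finset.card_le_card hsub).trans ((Finset.card_union_le _ _).trans ?_)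
    have := card_ed_one x
    omega
  have hb2 : big b T' ∩ aff T' x = ∅ := by
    rw [Finset.eq_empty_iff_forall_notMem]
    intro e he
    rw [Finset.mem_inter] at he
    have h2 := (Finset.mem_filter.mp he.1).2
    have h3 : cpt T' e ⊆ aff T' x := fun v hv => aff_cpt he.2 hv
    have := Finset.card_le_card h3
    omega
  have e1 : big b T \ aff T x = big b T := by
    rw [Finset.sdiff_eq_self_iff_disjoint, Finset.disjoint_iff_inter_eq_empty]; exact hb1
  have e2 : big b T' \ aff T' x = big b T' := by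
    rw [Finset.sdiff_eq_self_iff_disjoint, Finset.disjoint_iff_inter_eq_empty]; exact hb2
  rw [← e1, ← e2, big_unaff b h]

/-- the filtered volume in `B` -/
noncomputable def fl (b : ℕ) (B : Finset V) (S : Finset V) : ℕ :=
  (B.filter (fun y => pot 0 (big b (ed S)) y = 1)).card

/-- the box of radius `r` around `x` -/
noncomputable def ball (x : V) (r : ℕ) : Finset V :=
  Finset.Icc (fun k => x k - r) (fun k => x k + r)

theorem mem_ball {x y : V} {r : ℕ} : y ∈ ball x r ↔ ∀ k, |y k - x k| ≤ r := by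
  unfold ball
  rw [Finset.mem_Icc, Pi.le_def, Pi.le_def]
  constructor
  · rintro ⟨h1, h2⟩ k
    have a : x k - r ≤ y k := h1 k
    have b : y k ≤ x k + r := h2 k
    rw [abs_le]; constructor <;> omega
  · intro h
    refine ⟨fun k => ?_, fun k => ?_⟩
    · have := abs_le.mp (h k)
      show x k - r ≤ y k
      omega
    · have := abs_le.mp (h k)
      show y k ≤ x k + r
      omega

theorem card_ball (x : V) (r : ℕ) : (ball x r).card = (2 * r + 1) ^ 2 := by
  unfold ball
  rw [Pi.card_Icc]
  simp only [Int.card_Icc]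
  have h : ∀ k : Fin 2, (x k + (r : ℤ) + 1 - (x k - r)).toNat = 2 * r + 1 := by
    intro k; omega
  simp only [h, Finset.prod_const, Finset.card_univ, Fintype.card_fin]

theorem fl_change (b : ℕ) (B S : Finset V) (x : V) :
    |(fl b B (symmDiff S {x}) : ℝ) - fl b B S| ≤ ((2 * b + 3) ^ 2 : ℕ) := by
  set A := B.filter (fun y => pot 0 (big b (ed S)) y = 1) with hA
  set A' := B.filter (fun y => pot 0 (big b (ed (symmDiff S {x}))) y = 1) with hA'
  have hsub1 : A ⊆ A' ∪ ball x (b + 1) := by
    intro y hy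
    rw [Finset.mem_union]
    by_cases h : y ∈ ball x (b + 1)
    · exact Or.inr h
    · left
      rw [mem_ball] at h
      rw [hA, Finset.mem_filter] at hy
      rw [hA', Finset.mem_filter]
      refine ⟨hy.1, ?_⟩
      rw [← local_change b S x y (by push_cast at h; exact h)]
      exact hy.2
  have hsub2 : A' ⊆ A ∪ ball x (b + 1) := by
    intro y hy
    rw [Finset.mem_union]
    by_cases h : y ∈ ball x (b + 1)
    · exact Or.inr h
    · left
      rw [mem_ball] at h
      rw [hA', Finset.mem_filter] at hy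
      rw [hA, Finset.mem_filter]
      refine ⟨hy.1, ?_⟩
      rw [local_change b S x y (by push_cast at h; exact h)]
      exact hy.2
  have h1 := (Finset.card_le_card hsub1).trans (Finset.card_union_le _ _)
  have h2 := (Finset.card_le_card hsub2).trans (Finset.card_union_le _ _)
  rw [card_ball] at h1 h2
  have e : 2 * (b + 1) + 1 = 2 * b + 3 := by ring
  rw [e] at h1 h2
  have hf1 : fl b B S = A.card := rfl
  have hf2 : fl b B (symmDiff S {x}) = A'.card := rfl
  rw [hf1, hf2, abs_le]
  have h1' : (A.card : ℝ) ≤ A'.card + ((2 * b + 3) ^ 2 : ℕ) := by exact_mod_cast h1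
  have h2' : (A'.card : ℝ) ≤ A.card + ((2 * b + 3) ^ 2 : ℕ) := by exact_mod_cast h2
  constructor <;> linarith

theorem fl_pivot (b b' : ℕ) (hb : 64 * b' + 4 < b) (B S : Finset V) (x : V)
    (hne : fl b B (symmDiff S {x}) ≠ fl b B S) :
    (∃ y ∈ B, ∀ k, |y k - x k| ≤ b + 1) ∧
      ∃ e ∈ ed S, e ∈ N x ∧ b' ≤ (cpt (ed S) e).card := by
  have hex : ∃ y ∈ B, pot 0 (big b (ed S)) y ≠ pot 0 (big b (ed (symmDiff S {x}))) y := by
    by_contra hcon
    push Not at hcon
    apply hne
    unfold fl
    congr 1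
    apply Finset.filter_congr
    intro y hy
    rw [hcon y hy]
  obtain ⟨y, hy, hyne⟩ := hex
  refine ⟨⟨y, hy, ?_⟩, pivot b b' hb S x y hyne⟩
  by_contra h
  exact hyne (local_change b S x y h)

/-- the number of sites of `B` which are inside short components -/
theorem sml_count (b : ℕ) (B S : Finset V) (E : Finset Ed)
    (hE : ∀ e : Ed, (∃ y ∈ B, ∀ k, |y k - e.1 k| ≤ b) → e ∈ E) :
    (B.filter (fun y => pot 0 (sml b (ed S)) y = 1)).card ≤
      ∑ e ∈ (sml b (ed S)).filter (fun e => e ∈ E), (2 * (cpt (ed S) e).card + 1) ^ 2 := by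
  classical
  have hsub : B.filter (fun y => pot 0 (sml b (ed S)) y = 1) ⊆
      ((sml b (ed S)).filter (fun e => e ∈ E)).biUnion
        (fun e => ball e.1 (cpt (ed S) e).card) := by
    intro y hy
    rw [Finset.mem_filter] at hy
    obtain ⟨hyB, hy1⟩ := hy
    have hun : sml b (ed S) = ((sml b (ed S)).image (cpt (ed S))).biUnion id := by
      ext e
      simp only [Finset.mem_biUnion, Finset.mem_image, id]
      constructor
      · intro he
        exact ⟨_, ⟨e, he, rfl⟩, self_mem ((Finset.mem_filter.mp he).1)⟩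
      · rintro ⟨_, ⟨u, hu, rfl⟩, he⟩
        exact sml_cpt hu he
    have hex : ∃ u ∈ sml b (ed S), pot 0 (cpt (ed S) u) y ≠ 0 := by
      by_contra hcon
      push Not at hcon
      rw [hun, pot_biUnion] at hy1
      · rw [Finset.sum_eq_zero] at hy1
        · exact absurd hy1 (by decide)
        · intro γ hγ
          rw [Finset.mem_image] at hγ
          obtain ⟨u, hu, rfl⟩ := hγ
          exact hcon u hu
      · intro γ hγ γ' hγ' hne
        rw [Finset.mem_image] at hγ hγ'
        obtain ⟨u, hu, rfl⟩ := hγ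
        obtain ⟨u', hu', rfl⟩ := hγ'
        rw [Finset.disjoint_left]
        intro e he he'
        apply hne
        show cpt (ed S) u = cpt (ed S) u'
        rw [← cpt_eq (Finset.mem_filter.mp hu).1 he, cpt_eq (Finset.mem_filter.mp hu').1 he']
    obtain ⟨u, hu, hpu⟩ := hex
    have huT := (Finset.mem_filter.mp hu).1
    have hcl : Closed (cpt (ed S) u) := by
      apply closed_part (cpt_sub _ _)
      intro v hv
      rw [cpt_eq huT hv]
    have hbr : BR (fun k => u.1 k - (cpt (ed S) u).card) (fun k => u.1 k + (cpt (ed S) u).card)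
        (cpt (ed S) u) := by
      intro e he
      refine ⟨e.1, fun k => ?_, Or.inl rfl⟩
      have h3 := cc_close (cpt_cc huT) (self_mem huT) he k
      rw [abs_le] at h3
      show u.1 k - ((cpt (ed S) u).card : ℤ) ≤ e.1 k ∧ e.1 k ≤ u.1 k + ((cpt (ed S) u).card : ℤ)
      constructor <;> omega
    have hin : ∀ k, |y k - u.1 k| ≤ (cpt (ed S) u).card := by
      by_contra hcon
      apply hpu
      apply zero_out hbr hcl
      intro h
      apply hcon
      intro k
      have := h k
      rw [abs_le]; constructor <;> omega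
    have hlt : (cpt (ed S) u).card < b := by
      have := (Finset.mem_filter.mp hu).2
      omega
    rw [Finset.mem_biUnion]
    refine ⟨u, Finset.mem_filter.mpr ⟨hu, hE u ⟨y, hyB, fun k => ?_⟩⟩, mem_ball.mpr hin⟩
    have := hin k
    have h2 : ((cpt (ed S) u).card : ℤ) < b := by exact_mod_cast hlt
    omega
  refine (Finset.card_le_card hsub).trans (Finset.card_biUnion_le.trans ?_)
  apply Finset.sum_le_sum
  intro e _
  rw [card_ball]

/-- the filtered volume is close to the volume -/
theorem fl_close (b : ℕ) (B S : Finset V) :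
    |((B.filter (fun y => y ∈ S)).card : ℝ) - fl b B S| ≤
      ((B.filter (fun y => pot 0 (sml b (ed S)) y = 1)).card : ℝ) := by
  set A := B.filter (fun y => y ∈ S) with hA
  set A' := B.filter (fun y => pot 0 (big b (ed S)) y = 1) with hA'
  set C := B.filter (fun y => pot 0 (sml b (ed S)) y = 1) with hC
  have hkey : ∀ y, (y ∈ S ↔ pot 0 (big b (ed S)) y + pot 0 (sml b (ed S)) y = 1) := by
    intro y
    rw [← pot_big_sml, pot_ed]
    by_cases h : y ∈ S <;> simp [h]
  have hsub1 : A ⊆ A' ∪ C := by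
    intro y hy
    rw [hA, Finset.mem_filter] at hy
    rw [Finset.mem_union, hA', hC, Finset.mem_filter, Finset.mem_filter]
    have h1 := (hkey y).mp hy.2
    rcases z2cases (pot 0 (sml b (ed S)) y) with h | h
    · rw [h, add_zero] at h1
      exact Or.inl ⟨hy.1, h1⟩
    · exact Or.inr ⟨hy.1, h⟩
  have hsub2 : A' ⊆ A ∪ C := by
    intro y hy
    rw [hA', Finset.mem_filter] at hy
    rw [Finset.mem_union, hA, hC, Finset.mem_filter, Finset.mem_filter]
    rcases z2cases (pot 0 (sml b (ed S)) y) with h | h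
    · left
      refine ⟨hy.1, (hkey y).mpr ?_⟩
      rw [h, add_zero]; exact hy.2
    · exact Or.inr ⟨hy.1, h⟩
  have h1 := (Finset.card_le_card hsub1).trans (Finset.card_union_le _ _)
  have h2 := (Finset.card_le_card hsub2).trans (Finset.card_union_le _ _)
  have hf : fl b B S = A'.card := rfl
  rw [hf, abs_le]
  have h1' : (A.card : ℝ) ≤ A'.card + C.card := by exact_mod_cast h1
  have h2' : (A'.card : ℝ) ≤ A.card + C.card := by exact_mod_cast h2
  constructor <;> linarith

end Pool.Agent.Y995.IsingPlus.Filt
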