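import Mathlib

/-!
Arithmetic of the parameters.
-/

set_option autoImplicit false

namespace Pool.Agent.Y995.IsingPlus.Params

theorem params {β x l b a : ℝ} (hβ : 1 ≤ β) (hx : 1 ≤ x) (hM : 8000000000 * β * x ^ 2 ≤ l)
    (hb1 : 1 ≤ b) (hb : b ≤ 389 * x) (ha : a = (2 * b + 3) ^ 2) :
    2 * (b + 3) ≤ l ∧ a ≤ l ^ 2 / 64 ∧ 2 * (1536 * β / l) * a ≤ 1 ∧
      80 * β * l ≤ l ^ 2 / (576 * b ^ 2) ∧ a ≤ 640000 * x ^ 2 := by
  have hx2 : x ≤ x ^ 2 := by nlinarith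
  have hx21 : 1 ≤ x ^ 2 := hx.trans hx2
  have hβx : x ^ 2 ≤ β * x ^ 2 := by nlinarith
  have hl : 8000000000 * x ^ 2 ≤ l := by linarith
  have hl1 : 1 ≤ l := by linarith
  have hl0 : 0 < l := by linarith
  have ha5 : a ≤ 640000 * x ^ 2 := by
    have h1 : 2 * b + 3 ≤ 800 * x := by linarith
    have h2 : 0 ≤ 2 * b + 3 := by linarith
    rw [ha]
    calc (2 * b + 3) ^ 2 ≤ (800 * x) ^ 2 := by gcongr
      _ = 640000 * x ^ 2 := by ring
  refine ⟨by linarith, ?_, ?_, ?_, ha5⟩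
  · have : l ≤ l ^ 2 := by nlinarith
    linarith
  · have h3 : 3072 * β * a ≤ l := by
      have : β * a ≤ β * (640000 * x ^ 2) := mul_le_mul_of_nonneg_left ha5 (by linarith)
      have h0 : 0 ≤ β * x ^ 2 := by positivity
      linarith
    have : 2 * (1536 * β / l) * a = 3072 * β * a / l := by ring
    rw [this, div_le_one hl0]
    exact h3
  · have hb2 : b ^ 2 ≤ 151321 * x ^ 2 := by
      calc b ^ 2 ≤ (389 * x) ^ 2 := by gcongr
        _ = 151321 * x ^ 2 := by ring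
    have hb0 : 0 < b ^ 2 := by positivity
    rw [le_div_iff₀ (by positivity)]
    have h3 : 46080 * (β * b ^ 2) ≤ l := by
      have : β * b ^ 2 ≤ β * (151321 * x ^ 2) := mul_le_mul_of_nonneg_left hb2 (by linarith)
      have h0 : 0 ≤ β * x ^ 2 := by positivity
      linarith
    calc 80 * β * l * (576 * b ^ 2) = 46080 * (β * b ^ 2) * l := by ring
      _ ≤ l * l := mul_le_mul_of_nonneg_right h3 hl0.le
      _ = l ^ 2 := by ring

theorem term1 {β l a L : ℝ} {t : ℕ} (hβ : 1 ≤ β) (hl : 1 ≤ l) (hL : 1 ≤ L)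
    (ha : a ≤ l ^ 2 / 64)
    (ht : (t : ℝ) * (2560 * 64 * 1536 * β ^ 2 * a ^ 2) ≤ L ^ 2 * l ^ 2) :
    Real.exp (-((1536 * β / l) * (l ^ 2 / 16 - a))) *
      (1 + (1536 * β / l) ^ 2 * (a ^ 2 * (32 * (80 * β * l)) / L ^ 2)) ^ t ≤
      Real.exp (-(48 * β * l)) := by
  have hl0 : 0 < l := by linarith
  have hL0 : 0 < L := by linarith
  have hβ0 : 0 < β := by linarith
  set u := (1536 * β / l) ^ 2 * (a ^ 2 * (32 * (80 * β * l)) / L ^ 2) with hu
  have hu0 : 0 ≤ u := by positivity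
  have h1 : (1 + u) ^ t ≤ Real.exp (t * u) := by
    rw [Real.exp_nat_mul]
    apply pow_le_pow_left₀ (by linarith)
    have := Real.add_one_le_exp u
    linarith
  have h2 : (t : ℝ) * u ≤ 24 * β * l := by
    have e : (t : ℝ) * u = ((t : ℝ) * (2560 * 64 * 1536 * β ^ 2 * a ^ 2)) *
        (24 * β / (l * L ^ 2)) := by
      rw [hu]; field_simp; norm_num; ring
    rw [e]
    calc _ ≤ (L ^ 2 * l ^ 2) * (24 * β / (l * L ^ 2)) :=
          mul_le_mul_of_nonneg_right ht (by positivity)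
      _ = 24 * β * l := by field_simp
  have h3 : 72 * β * l ≤ (1536 * β / l) * (l ^ 2 / 16 - a) := by
    calc 72 * β * l = (1536 * β / l) * (l ^ 2 / 16 - l ^ 2 / 64) := by field_simp; norm_num
      _ ≤ _ := mul_le_mul_of_nonneg_left (by linarith) (by positivity)
  calc _ ≤ Real.exp (-((1536 * β / l) * (l ^ 2 / 16 - a))) * Real.exp (t * u) :=
        mul_le_mul_of_nonneg_left h1 (Real.exp_pos _).le
    _ = Real.exp (-((1536 * β / l) * (l ^ 2 / 16 - a)) + t * u) := by rw [Real.exp_add]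
    _ ≤ _ := by
        apply Real.exp_le_exp.mpr
        linarith

theorem term2 {β l b L : ℝ} {t : ℕ} (hl : 1 ≤ l) (hL : 1 ≤ L)
    (hLe : L ^ 2 ≤ Real.exp (32 * β * l)) (ht : (t : ℝ) ≤ L ^ 2 * l ^ 2)
    (hb : 80 * β * l ≤ l ^ 2 / (576 * b ^ 2)) :
    (2 * (t : ℝ) + 1) * (Real.exp (1 - 80 * β * l) + Real.exp (-(l ^ 2 / (576 * b ^ 2)))) ≤
      12 * l ^ 2 * Real.exp (-(48 * β * l)) := by
  have h1 : 1 ≤ L ^ 2 * l ^ 2 := by
    have h2 : 1 ≤ L ^ 2 := one_le_pow₀ hL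
    have h3 : 1 ≤ l ^ 2 := one_le_pow₀ hl
    nlinarith
  have h2 : 2 * (t : ℝ) + 1 ≤ 3 * (L ^ 2 * l ^ 2) := by linarith
  have h3 : 2 * (t : ℝ) + 1 ≤ 3 * (Real.exp (32 * β * l) * l ^ 2) := by
    have : L ^ 2 * l ^ 2 ≤ Real.exp (32 * β * l) * l ^ 2 :=
      mul_le_mul_of_nonneg_right hLe (by positivity)
    linarith
  have h4 : Real.exp (1 - 80 * β * l) ≤ 3 * Real.exp (-(80 * β * l)) := by
    rw [sub_eq_add_neg, Real.exp_add]
    apply mul_le_mul_of_nonneg_right _ (Real.exp_pos _).le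
    have := Real.exp_one_lt_d9
    linarith
  have h5 : Real.exp (-(l ^ 2 / (576 * b ^ 2))) ≤ Real.exp (-(80 * β * l)) :=
    Real.exp_le_exp.mpr (by linarith)
  have h6 : Real.exp (1 - 80 * β * l) + Real.exp (-(l ^ 2 / (576 * b ^ 2))) ≤
      4 * Real.exp (-(80 * β * l)) := by linarith
  have h7 : 0 ≤ 2 * (t : ℝ) + 1 := by positivity
  calc _ ≤ (2 * (t : ℝ) + 1) * (4 * Real.exp (-(80 * β * l))) :=
        mul_le_mul_of_nonneg_left h6 h7
    _ ≤ 3 * (Real.exp (32 * β * l) * l ^ 2) * (4 * Real.exp (-(80 * β * l))) :=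
        mul_le_mul_of_nonneg_right h3 (by positivity)
    _ = 12 * l ^ 2 * (Real.exp (32 * β * l) * Real.exp (-(80 * β * l))) := by ring
    _ = 12 * l ^ 2 * Real.exp (-(48 * β * l)) := by
        rw [← Real.exp_add]; congr 2; ring

/-- the error for one box, summed over all boxes -/
theorem total {β l L m : ℝ} (hβ : 1 ≤ β) (hl : 1 ≤ l)
    (hLe : L ^ 2 ≤ Real.exp (32 * β * l)) (hm0 : 0 ≤ m) (hm : m * l ≤ L) :
    m ^ 2 * (3 * (Real.exp (-(48 * β * l)) + 12 * l ^ 2 * Real.exp (-(48 * β * l)))) ≤ 1 / 4 := by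
  have h1 : (m * l) ^ 2 ≤ L ^ 2 := by
    have : 0 ≤ m * l := by positivity
    gcongr
  have h2 : 1 ≤ l ^ 2 := one_le_pow₀ hl
  have hE := Real.exp_pos (-(48 * β * l))
  have h3 : 3 * (Real.exp (-(48 * β * l)) + 12 * l ^ 2 * Real.exp (-(48 * β * l))) ≤
      39 * l ^ 2 * Real.exp (-(48 * β * l)) := by
    have : 1 * Real.exp (-(48 * β * l)) ≤ l ^ 2 * Real.exp (-(48 * β * l)) :=
      mul_le_mul_of_nonneg_right h2 hE.le
    linarith
  have h4 : Real.exp (32 * β * l) * Real.exp (-(48 * β * l)) = Real.exp (-(16 * β * l)) := by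
    rw [← Real.exp_add]; congr 1; ring
  have h5 : Real.exp (-(16 * β * l)) ≤ 1 / 256 := by
    have h6 : 1 ≤ β * l := by nlinarith
    have h7 : Real.exp (-(16 * β * l)) ≤ Real.exp (-16) := Real.exp_le_exp.mpr (by linarith)
    have h8 : (256 : ℝ) ≤ Real.exp 16 := by
      have h9 : (16 : ℝ) = ((16 : ℕ) : ℝ) * 1 := by norm_num
      rw [h9, Real.exp_nat_mul]
      have h10 := Real.add_one_le_exp (1 : ℝ)
      calc (256 : ℝ) ≤ 2 ^ 16 := by norm_num
        _ ≤ _ := pow_le_pow_left₀ (by norm_num) (by linarith) 16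
    refine h7.trans ?_
    rw [Real.exp_neg, one_div]
    exact inv_anti₀ (by norm_num) h8
  calc _ ≤ m ^ 2 * (39 * l ^ 2 * Real.exp (-(48 * β * l))) :=
        mul_le_mul_of_nonneg_left h3 (by positivity)
    _ = 39 * ((m * l) ^ 2 * Real.exp (-(48 * β * l))) := by ring
    _ ≤ 39 * (Real.exp (32 * β * l) * Real.exp (-(48 * β * l))) := by
        have := mul_le_mul_of_nonneg_right (h1.trans hLe) hE.le
        linarith
    _ = 39 * Real.exp (-(16 * β * l)) := by rw [h4]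
    _ ≤ 1 / 4 := by linarith

/-- the equilibrium has a droplet somewhere -/
theorem drop {β : ℝ} {L l m : ℕ} (hβ : 1 ≤ β) (hl : 1 ≤ l) (hlo : Real.exp (8 * β * l) ≤ L)
    (hm1 : m * l ≤ L) (hm2 : L < (m + 1) * l) :
    4 ≤ (1 + Real.exp (-(2 * β * ((4 * l : ℕ) : ℝ)))) ^ (m * m) := by
  have hlr : (1 : ℝ) ≤ l := by exact_mod_cast hl
  have hl0 : (0 : ℝ) < l := by linarith
  have hL : 16 * (l : ℝ) ^ 2 ≤ L := by
    have h1 : 4 * (l : ℝ) + 1 ≤ Real.exp (4 * (l : ℝ)) := Real.add_one_le_exp _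
    have h2 : Real.exp (8 * (l : ℝ)) ≤ Real.exp (8 * β * l) := by
      apply Real.exp_le_exp.mpr
      nlinarith
    have h3 : Real.exp (8 * (l : ℝ)) = Real.exp (4 * (l : ℝ)) ^ 2 := by
      rw [← Real.exp_nat_mul]; congr 1; push_cast; ring
    have h4 : (4 * (l : ℝ)) ^ 2 ≤ Real.exp (4 * (l : ℝ)) ^ 2 := by
      apply pow_le_pow_left₀ (by positivity)
      linarith
    calc 16 * (l : ℝ) ^ 2 = (4 * (l : ℝ)) ^ 2 := by ring
      _ ≤ _ := h4
      _ ≤ _ := by rw [← h3]; exact h2.trans hlo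
  have hL0 : (0 : ℝ) < L := by
    have : 0 < (l : ℝ) ^ 2 := by positivity
    linarith
  have hm : 1 ≤ m := by
    by_contra h
    have h0 : m = 0 := by omega
    subst h0
    have h2 : L < l := by linarith
    have h3 : (L : ℝ) < l := by exact_mod_cast h2
    have h4 : (l : ℝ) ≤ (l : ℝ) ^ 2 := by nlinarith
    linarith
  have hm3 : (L : ℝ) ≤ 2 * m * l := by
    have h1 : (m + 1) * l ≤ 2 * m * l := Nat.mul_le_mul_right l (by omega)
    have h2 : L ≤ 2 * m * l := hm2.le.trans h1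
    exact_mod_cast h2
  have hp : 1 / (L : ℝ) ≤ Real.exp (-(2 * β * ((4 * l : ℕ) : ℝ))) := by
    have e : 2 * β * ((4 * l : ℕ) : ℝ) = 8 * β * l := by push_cast; ring
    rw [e, Real.exp_neg, one_div]
    exact inv_anti₀ (Real.exp_pos _) hlo
  have hpow := one_add_mul_le_pow (a := Real.exp (-(2 * β * ((4 * l : ℕ) : ℝ))))
    (by have := Real.exp_pos (-(2 * β * ((4 * l : ℕ) : ℝ))); linarith) (m * m)
  refine le_trans ?_ hpow
  have h5 : 3 ≤ ((m * m : ℕ) : ℝ) * (1 / (L : ℝ)) := by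
    rw [mul_one_div, le_div_iff₀ hL0]
    push_cast
    have h6 : (L : ℝ) ^ 2 ≤ (2 * (m : ℝ) * (l : ℝ)) ^ 2 := by gcongr
    have h7 : 4 * (l : ℝ) ^ 2 * (3 * (L : ℝ)) ≤ 4 * (l : ℝ) ^ 2 * ((m : ℝ) * (m : ℝ)) := by
      calc 4 * (l : ℝ) ^ 2 * (3 * L) = 12 * (l : ℝ) ^ 2 * (L : ℝ) := by ring
        _ ≤ (L : ℝ) * (L : ℝ) := by
            apply mul_le_mul_of_nonneg_right _ hL0.le
            have : 0 ≤ (l : ℝ) ^ 2 := by positivity
            linarith
        _ = (L : ℝ) ^ 2 := by ring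
        _ ≤ (2 * (m : ℝ) * (l : ℝ)) ^ 2 := h6
        _ = 4 * (l : ℝ) ^ 2 * ((m : ℝ) * (m : ℝ)) := by ring
    exact le_of_mul_le_mul_left h7 (by positivity)
  have h8 := mul_le_mul_of_nonneg_left hp (Nat.cast_nonneg (α := ℝ) (m * m))
  linarith

end Pool.Agent.Y995.IsingPlus.Params
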