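import Pool.Agent.Y995.IsingPlus.Core
import Pool.Agent.Y995.IsingPlus.Params

/-!
The lower bound for the mixing time from all plus.
-/

set_option autoImplicit false

namespace Pool.Agent.Y995.IsingPlus.Final

open Finset Matrix
open Pool.Agent.Results.MP_4cb49c_pr.RandomStart (glauber ising mset glauber_nonneg glauber_row
  glauber_balance ising_pos ising_sum mset_subset tv tmix betaC spontaneous spontaneous_eq
  tmix_set_nonempty)
open Pool.Agent.Helper580.IsingLat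
  Pool.Agent.Y995.IsingPlus.Equi Pool.Agent.Y995.IsingPlus.Core

theorem three_mono {X E F G H : ℝ} (h : X ≤ 3 * (E + F)) (h1 : E ≤ G) (h2 : F ≤ H) :
    X ≤ 3 * (G + H) := by linarith

theorem tv_lower {β : ℝ} (hβ1 : 1 ≤ β) (hβ : Real.exp (-(2 * β)) ≤ (1 / 2 : ℝ) ^ 36) (L l : ℕ)
    (hl : 1 ≤ Real.log l) (hM : 8000000000 * β * (Real.log l) ^ 2 ≤ l)
    (hlo : Real.exp (8 * β * l) ≤ L) (hup : (L : ℝ) ^ 2 ≤ Real.exp (32 * β * l)) (t : ℕ)
    (ht : (t : ℝ) * (2560 * 64 * 1536 * β ^ 2 * (640000 * (Real.log l) ^ 2) ^ 2) ≤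
      (L : ℝ) ^ 2 * (l : ℝ) ^ 2) :
    1 / 4 < tv (plus (box 2 L) ᵥ* glauber (box 2 L) β ^ t) (ising (box 2 L) β) := by
  have hβ0 : 0 ≤ β := by linarith
  set x := Real.log l with hx
  have hβx : 1 ≤ β * x ^ 2 := by
    have : 1 ≤ x ^ 2 := one_le_pow₀ hl
    nlinarith
  have hl1 : (1 : ℝ) ≤ l := by linarith
  have hl0 : (0 : ℝ) < l := by linarith
  have hlN : 1 ≤ l := by exact_mod_cast hl1
  have hL1 : (1 : ℝ) ≤ L := by
    have h1 : 1 ≤ Real.exp (8 * β * l) := Real.one_le_exp (by positivity)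
    linarith
  have hLN : 1 ≤ L := by exact_mod_cast hL1
  obtain ⟨b', hb'⟩ : ∃ b' : ℕ, b' = ⌈Real.log (8 * (l : ℝ) ^ 2)⌉₊ := ⟨_, rfl⟩
  obtain ⟨b, hb⟩ : ∃ b : ℕ, b = 64 * b' + 5 := ⟨_, rfl⟩
  have hlog : Real.log (8 * (l : ℝ) ^ 2) = 3 * Real.log 2 + 2 * x := by
    rw [Real.log_mul (by norm_num) (by positivity), Real.log_pow, hx]
    have : (8 : ℝ) = 2 ^ 3 := by norm_num
    rw [this, Real.log_pow]
    push_cast; ring
  have hlog0 : 0 ≤ Real.log (8 * (l : ℝ) ^ 2) := by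
    rw [hlog]
    have := Real.log_nonneg (one_le_two (α := ℝ))
    linarith
  have hb'le : (b' : ℝ) ≤ 6 * x := by
    have h1 : (b' : ℝ) < Real.log (8 * (l : ℝ) ^ 2) + 1 := by
      rw [hb']; exact Nat.ceil_lt_add_one hlog0
    have h2 := Real.log_two_lt_d9
    rw [hlog] at h1
    linarith
  have hb'ge : Real.log (8 * (l : ℝ) ^ 2) ≤ b' := by rw [hb']; exact Nat.le_ceil _
  have hbr : (b : ℝ) = 64 * b' + 5 := by rw [hb]; push_cast; ring
  have hb1 : (1 : ℝ) ≤ b := by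
    rw [hbr]
    have : (0 : ℝ) ≤ b' := Nat.cast_nonneg _
    linarith
  have hble : (b : ℝ) ≤ 389 * x := by linarith
  have hexp : 8 * (l : ℝ) ^ 2 * Real.exp (-(b' : ℝ)) ≤ 1 := by
    have h1 : 8 * (l : ℝ) ^ 2 ≤ Real.exp b' := by
      rw [← Real.log_le_iff_le_exp (by positivity)]
      exact hb'ge
    rw [Real.exp_neg, ← div_eq_mul_inv, div_le_one (Real.exp_pos _)]
    exact h1
  have hacast : (((2 * b + 3) ^ 2 : ℕ) : ℝ) = (2 * (b : ℝ) + 3) ^ 2 := by push_cast; ring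
  obtain ⟨p1, p2, p3, p4, p5⟩ := Params.params (a := (((2 * b + 3) ^ 2 : ℕ) : ℝ)) hβ1 hl hM hb1
    hble hacast
  have hbl : 2 * (b + 3) ≤ l := by exact_mod_cast p1
  have ha0 : (0 : ℝ) ≤ (((2 * b + 3) ^ 2 : ℕ) : ℝ) := Nat.cast_nonneg _
  have ht1 : (t : ℝ) * (2560 * 64 * 1536 * β ^ 2 * (((2 * b + 3) ^ 2 : ℕ) : ℝ) ^ 2) ≤
      (L : ℝ) ^ 2 * (l : ℝ) ^ 2 := by
    refine le_trans ?_ ht
    have h1 : (((2 * b + 3) ^ 2 : ℕ) : ℝ) ^ 2 ≤ (640000 * x ^ 2) ^ 2 := pow_le_pow_left₀ ha0 p5 2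
    have h2 : (0 : ℝ) ≤ 2560 * 64 * 1536 * β ^ 2 := by positivity
    exact mul_le_mul_of_nonneg_left (mul_le_mul_of_nonneg_left h1 h2) (Nat.cast_nonneg t)
  have ht2 : (t : ℝ) ≤ (L : ℝ) ^ 2 * (l : ℝ) ^ 2 := by
    refine le_trans ?_ ht
    have h1 : (1 : ℝ) ≤ 2560 * 64 * 1536 * β ^ 2 * (640000 * x ^ 2) ^ 2 := by
      have h3 : (1 : ℝ) ≤ β ^ 2 := one_le_pow₀ hβ1
      have h4 : (1 : ℝ) ≤ x ^ 2 := one_le_pow₀ hl
      have h5 : (1 : ℝ) ≤ (640000 * x ^ 2) ^ 2 := one_le_pow₀ (by linarith)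
      have h6 : (1 : ℝ) ≤ 2560 * 64 * 1536 * β ^ 2 := by linarith
      nlinarith
    have h2 : (0 : ℝ) ≤ t := Nat.cast_nonneg t
    nlinarith
  clear_value x
  have hm1 : L / l * l ≤ L := Nat.div_mul_le_self L l
  have hm2 : L < (L / l + 1) * l := by
    have := Nat.lt_div_mul_add (a := L) hlN
    rw [add_mul, one_mul]
    exact this
  obtain ⟨m, hm⟩ : ∃ m : ℕ, m = L / l := ⟨_, rfl⟩
  rw [← hm] at hm1 hm2
  have hmr : (m : ℝ) * l ≤ L := by exact_mod_cast hm1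
  refine tv_core hβ0 L l m hLN hlN hm1 t
    (3 * (Real.exp (-(48 * β * l)) + 12 * (l : ℝ) ^ 2 * Real.exp (-(48 * β * l)))) ?_
    (Params.total hβ1 hl1 hup (Nat.cast_nonneg m) hmr)
    (Params.drop hβ1 hlN hlo hm1 hm2)
  intro p hp
  have hone := OneBox.one_box hβ0 hβ L b b' l (corner l p) hLN (sq_sub hm1 hp) (by omega) hbl hexp
    (80 * β * l) (1536 * β / l) (by positivity) (by positivity) p3 t
  have e1 := Params.term1 hβ1 hl1 hL1 p2 ht1
  have e2 := Params.term2 hl1 hL1 hup ht2 p4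
  exact three_mono hone e1 e2

theorem exp_13 {β : ℝ} (hβ : 13 ≤ β) : Real.exp (-(2 * β)) ≤ (1 / 2 : ℝ) ^ 36 := by
  have h1 : Real.exp (-(2 * β)) ≤ Real.exp (-26) := Real.exp_le_exp.mpr (by linarith)
  refine h1.trans ?_
  have h2 : (2 : ℝ) ^ 36 ≤ Real.exp 26 := by
    have h9 : (26 : ℝ) = ((26 : ℕ) : ℝ) * 1 := by norm_num
    rw [h9, Real.exp_nat_mul]
    have h10 := Real.exp_one_gt_d9
    calc (2 : ℝ) ^ 36 ≤ 2.7 ^ 26 := by norm_num
      _ ≤ _ := pow_le_pow_left₀ (by norm_num) (by linarith) 26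
  rw [Real.exp_neg, one_div, inv_pow]
  exact inv_anti₀ (by positivity) h2

theorem betaC_lt {β : ℝ} (hβ : 13 ≤ β) : betaC 2 < β := by
  have h12 : betaC 2 ≤ 12 := by
    apply csInf_le
    · exact ⟨0, fun _ h => h.1⟩
    · refine ⟨by norm_num, ?_⟩
      rw [spontaneous_eq]
      have h : Real.exp (-(2 * 12)) ≤ (1 / 5 : ℝ) * (1 / 2) ^ (8 * 2 + 1) := by
        have h2 : (2 : ℝ) ^ 24 ≤ Real.exp (2 * 12) := by
          have h9 : (2 * 12 : ℝ) = ((24 : ℕ) : ℝ) * 1 := by norm_num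
          rw [h9, Real.exp_nat_mul]
          have h10 := Real.add_one_le_exp (1 : ℝ)
          exact pow_le_pow_left₀ (by norm_num) (by linarith) 24
        rw [Real.exp_neg]
        refine (inv_anti₀ (by positivity) h2).trans ?_
        norm_num
      have := half_le_ms h
      linarith
  linarith

/-- the mixing time from all plus is at least a multiple of
`n (log L)^2 / (log log L)^4` -/
theorem lower {β : ℝ} (hβ : 13 ≤ β) : ∃ c : ℝ, 0 < c ∧ ∃ L₀ : ℕ, ∀ L : ℕ, L₀ ≤ L →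
    c * ((L : ℝ) ^ 2 * Real.log L ^ 2 / Real.log (Real.log L) ^ 4) ≤
      tmix (box 2 L) β (plus (box 2 L)) := by
  have hβ1 : 1 ≤ β := by linarith
  have hβ0 : 0 < β := by linarith
  have hexp := exp_13 hβ
  obtain ⟨C, hC⟩ : ∃ C : ℝ, C = 2560 * 64 * 1536 * β ^ 2 * 640000 ^ 2 := ⟨_, rfl⟩
  have hC0 : 0 < C := by rw [hC]; positivity
  -- eventual conditions on the side
  have hev : ∀ᶠ l : ℕ in Filter.atTop, 1 ≤ Real.log l ∧
      8000000000 * β * (Real.log l) ^ 2 ≤ l := by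
    have h1 : Filter.Tendsto (fun l : ℕ => Real.log (l : ℝ)) Filter.atTop Filter.atTop :=
      Real.tendsto_log_atTop.comp tendsto_natCast_atTop_atTop
    have h2 := (Real.isLittleO_pow_log_id_atTop (n := 2)).bound
      (c := (8000000000 * β)⁻¹) (by positivity)
    have h3 := tendsto_natCast_atTop_atTop (R := ℝ) |>.eventually h2
    filter_upwards [h1.eventually_ge_atTop 1, h3] with l hl1 hl2
    refine ⟨hl1, ?_⟩
    simp only [id_eq, Real.norm_eq_abs] at hl2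
    rw [abs_of_nonneg (by positivity), abs_of_nonneg (Nat.cast_nonneg l)] at hl2
    have h4 := mul_le_mul_of_nonneg_left hl2 (show (0 : ℝ) ≤ 8000000000 * β by positivity)
    rwa [← mul_assoc, mul_inv_cancel₀ (by positivity), one_mul] at h4
  have hLl : Filter.Tendsto (fun L : ℕ => ⌊Real.log L / (8 * β)⌋₊) Filter.atTop Filter.atTop := by
    apply tendsto_nat_floor_atTop.comp
    apply Filter.Tendsto.atTop_div_const (by positivity)
    exact Real.tendsto_log_atTop.comp tendsto_natCast_atTop_atTop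
  have hev2 := hLl.eventually hev
  obtain ⟨L₀, hL₀⟩ := Filter.eventually_atTop.mp hev2
  refine ⟨1 / (256 * β ^ 2 * C), by positivity, max L₀ 1, fun L hL => ?_⟩
  obtain ⟨hl1, hM⟩ := hL₀ L ((le_max_left _ _).trans hL)
  obtain ⟨l, hl⟩ : ∃ l : ℕ, l = ⌊Real.log L / (8 * β)⌋₊ := ⟨_, rfl⟩
  rw [← hl] at hl1 hM
  have hLN : 1 ≤ L := (le_max_right _ _).trans hL
  have hLr : (1 : ℝ) ≤ L := by exact_mod_cast hLN
  have hlogL : 0 ≤ Real.log L := Real.log_nonneg hLr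
  have hlr : (1 : ℝ) ≤ l := by
    have : 1 ≤ β * Real.log l ^ 2 := by
      have : 1 ≤ Real.log l ^ 2 := one_le_pow₀ hl1
      nlinarith
    linarith
  have hle1 : (l : ℝ) ≤ Real.log L / (8 * β) := by
    rw [hl]; exact Nat.floor_le (by positivity)
  have hle2 : Real.log L / (8 * β) < l + 1 := by
    rw [hl]; exact Nat.lt_floor_add_one _
  have hlo : 8 * β * l ≤ Real.log L := by
    rw [le_div_iff₀ (by positivity)] at hle1
    linarith
  have hhi : Real.log L ≤ 16 * β * l := by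
    rw [div_lt_iff₀ (by positivity)] at hle2
    have : β ≤ β * l := by nlinarith
    linarith
  have hlo' : Real.exp (8 * β * l) ≤ L := by
    rw [← Real.le_log_iff_exp_le (by linarith)]
    exact hlo
  have hup : (L : ℝ) ^ 2 ≤ Real.exp (32 * β * l) := by
    have h1 : (L : ℝ) ≤ Real.exp (16 * β * l) := by
      rw [← Real.log_le_iff_le_exp (by linarith)]
      exact hhi
    have h2 : Real.exp (32 * β * l) = Real.exp (16 * β * l) ^ 2 := by
      rw [← Real.exp_nat_mul]; congr 1; push_cast; ring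
    rw [h2]
    exact pow_le_pow_left₀ (by linarith) h1 2
  have hΛne : (box 2 L).Nonempty := by
    refine ⟨fun _ => 1, ?_⟩
    rw [mem_box]
    intro i
    constructor
    · exact le_refl _
    · exact_mod_cast hLN
  have hplus : ∑ σ, plus (box 2 L) σ = 1 := by
    classical
    unfold plus
    rw [Finset.sum_eq_single (fun _ => (1 : ℤˣ))]
    · simp
    · intro σ _ hσ
      rw [if_neg]
      intro h
      exact hσ (funext h)
    · intro h
      exact absurd (Finset.mem_univ _) h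
  have hmem := Nat.sInf_mem (tmix_set_nonempty (box 2 L) hΛne β (plus (box 2 L)) hplus)
  change tv (plus (box 2 L) ᵥ* glauber (box 2 L) β ^ (tmix (box 2 L) β (plus (box 2 L))))
    (ising (box 2 L) β) ≤ 1 / 4 at hmem
  have hnot : ¬ ((tmix (box 2 L) β (plus (box 2 L)) : ℝ) *
      (2560 * 64 * 1536 * β ^ 2 * (640000 * (Real.log l) ^ 2) ^ 2) ≤
      (L : ℝ) ^ 2 * (l : ℝ) ^ 2) := by
    intro h
    exact absurd hmem (not_le.mpr (tv_lower hβ1 hexp L l hl1 hM hlo' hup _ h))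
  rw [not_le] at hnot
  have hloglog : Real.log l ≤ Real.log (Real.log L) := by
    apply Real.log_le_log (by linarith)
    have : (l : ℝ) ≤ 8 * β * l := by nlinarith
    linarith
  have e1 : 2560 * 64 * 1536 * β ^ 2 * (640000 * (Real.log l) ^ 2) ^ 2 = C * Real.log l ^ 4 := by
    rw [hC]; ring
  rw [e1] at hnot
  have hLL : 1 ≤ Real.log (Real.log L) := hl1.trans hloglog
  have hLL4 : 0 < Real.log (Real.log L) ^ 4 := by positivity
  have hT0 : (0 : ℝ) ≤ tmix (box 2 L) β (plus (box 2 L)) := Nat.cast_nonneg _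
  have h5 : C * Real.log l ^ 4 ≤ C * Real.log (Real.log L) ^ 4 := by
    apply mul_le_mul_of_nonneg_left _ hC0.le
    exact pow_le_pow_left₀ (by linarith) hloglog 4
  have h6 : Real.log L ^ 2 ≤ 256 * β ^ 2 * (l : ℝ) ^ 2 := by
    calc Real.log L ^ 2 ≤ (16 * β * l) ^ 2 := pow_le_pow_left₀ hlogL hhi 2
      _ = _ := by ring
  have h7 : (L : ℝ) ^ 2 * (l : ℝ) ^ 2 ≤
      (tmix (box 2 L) β (plus (box 2 L)) : ℝ) * (C * Real.log (Real.log L) ^ 4) :=
    hnot.le.trans (mul_le_mul_of_nonneg_left h5 hT0)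
  have h8 : (L : ℝ) ^ 2 * Real.log L ^ 2 ≤ 256 * β ^ 2 *
      ((tmix (box 2 L) β (plus (box 2 L)) : ℝ) * (C * Real.log (Real.log L) ^ 4)) := by
    calc (L : ℝ) ^ 2 * Real.log L ^ 2 ≤ (L : ℝ) ^ 2 * (256 * β ^ 2 * (l : ℝ) ^ 2) :=
          mul_le_mul_of_nonneg_left h6 (by positivity)
      _ = 256 * β ^ 2 * ((L : ℝ) ^ 2 * (l : ℝ) ^ 2) := by ring
      _ ≤ _ := mul_le_mul_of_nonneg_left h7 (by positivity)
  have h9 : (L : ℝ) ^ 2 * Real.log L ^ 2 / Real.log (Real.log L) ^ 4 ≤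
      256 * β ^ 2 * C * (tmix (box 2 L) β (plus (box 2 L)) : ℝ) := by
    rw [div_le_iff₀ hLL4]
    linarith
  calc 1 / (256 * β ^ 2 * C) * ((L : ℝ) ^ 2 * Real.log L ^ 2 / Real.log (Real.log L) ^ 4)
      ≤ 1 / (256 * β ^ 2 * C) * (256 * β ^ 2 * C * (tmix (box 2 L) β (plus (box 2 L)) : ℝ)) :=
        mul_le_mul_of_nonneg_left h9 (by positivity)
    _ = _ := by
        rw [← mul_assoc, one_div, inv_mul_cancel₀ (by positivity), one_mul]

/-- so it is not `O(n log n)` -/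
theorem unbounded {β : ℝ} (hβ : 13 ≤ β) : ¬ ∃ C : ℝ, ∀ L : ℕ, 2 ≤ L →
    (tmix (box 2 L) β (plus (box 2 L)) : ℝ) ≤ C * ((L : ℝ) ^ 2 * Real.log ((L : ℝ) ^ 2)) := by
  rintro ⟨C, hC⟩
  obtain ⟨c, hc, L₀, hL₀⟩ := lower hβ
  -- `log L / (log log L)^4` tends to infinity
  have hev : ∀ᶠ L : ℕ in Filter.atTop, 1 ≤ Real.log (Real.log L) ∧
      (2 * |C| / c + 1) * (Real.log (Real.log L)) ^ 4 ≤ Real.log L := by
    have h0 : Filter.Tendsto (fun L : ℕ => Real.log (L : ℝ)) Filter.atTop Filter.atTop :=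
      Real.tendsto_log_atTop.comp tendsto_natCast_atTop_atTop
    have h1 : Filter.Tendsto (fun L : ℕ => Real.log (Real.log (L : ℝ))) Filter.atTop
        Filter.atTop := Real.tendsto_log_atTop.comp h0
    have h2 := (Real.isLittleO_pow_log_id_atTop (n := 4)).bound
      (c := (2 * |C| / c + 1)⁻¹) (by positivity)
    have h3 := h0.eventually h2
    filter_upwards [h1.eventually_ge_atTop 1, h3, h0.eventually_ge_atTop 0] with L hl1 hl2 hl3
    refine ⟨hl1, ?_⟩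
    simp only [id_eq, Real.norm_eq_abs] at hl2
    rw [abs_of_nonneg (by positivity), abs_of_nonneg hl3] at hl2
    have h4 := mul_le_mul_of_nonneg_left hl2 (show (0 : ℝ) ≤ 2 * |C| / c + 1 by positivity)
    rwa [← mul_assoc, mul_inv_cancel₀ (by positivity), one_mul] at h4
  obtain ⟨L₁, hL₁⟩ := Filter.eventually_atTop.mp hev
  obtain ⟨L, hL⟩ : ∃ L : ℕ, L = max (max L₀ L₁) 2 := ⟨_, rfl⟩
  have hLa : L₀ ≤ L := by rw [hL]; exact (le_max_left _ _).trans (le_max_left _ _)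
  have hLb : L₁ ≤ L := by rw [hL]; exact (le_max_right _ _).trans (le_max_left _ _)
  have hLc : 2 ≤ L := by rw [hL]; exact le_max_right _ _
  obtain ⟨k1, k2⟩ := hL₁ L hLb
  have h1 := hL₀ L hLa
  have h2 := hC L hLc
  have h3 := h1.trans h2
  have hlog : Real.log ((L : ℝ) ^ 2) = 2 * Real.log L := by
    rw [Real.log_pow]; push_cast; ring
  rw [hlog] at h3
  have hLr : (2 : ℝ) ≤ L := by exact_mod_cast hLc
  have hL2 : (0 : ℝ) < (L : ℝ) ^ 2 := by positivity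
  have hlogpos : 0 < Real.log L := Real.log_pos (by linarith)
  have hLL4 : 0 < Real.log (Real.log L) ^ 4 := by positivity
  have h4 : c * (Real.log L / Real.log (Real.log L) ^ 4) ≤ 2 * C := by
    have e : c * ((L : ℝ) ^ 2 * Real.log L ^ 2 / Real.log (Real.log L) ^ 4) =
        (c * (Real.log L / Real.log (Real.log L) ^ 4)) * ((L : ℝ) ^ 2 * Real.log L) := by
      field_simp
    have e' : C * ((L : ℝ) ^ 2 * (2 * Real.log L)) = (2 * C) * ((L : ℝ) ^ 2 * Real.log L) := by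
      ring
    rw [e, e'] at h3
    exact le_of_mul_le_mul_right h3 (by positivity)
  have h5 : 2 * |C| / c + 1 ≤ Real.log L / Real.log (Real.log L) ^ 4 := by
    rw [le_div_iff₀ hLL4]
    exact k2
  have h6 := mul_le_mul_of_nonneg_left h5 hc.le
  have h7 : c * (2 * |C| / c + 1) = 2 * |C| + c := by field_simp
  have h8 := le_abs_self C
  linarith

end Pool.Agent.Y995.IsingPlus.Final
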