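import Pool.Agent.Helper580.IsingPeierls

/-!
Edge boundaries, potentials in rectangles and plaquette components.
-/

set_option autoImplicit false

namespace Pool.Agent.Y995.IsingPlus.Geo

open Finset Pool.Agent.Helper580.IsingGKS Pool.Agent.Helper580.IsingGraph
  Pool.Agent.Helper580.IsingLat Pool.Agent.Helper580.IsingCut

/-- sites of the square lattice -/
abbrev V := Fin 2 → ℤ

/-- edges: `(x,i)` is the edge from `x` to `x + uv i` -/
abbrev Ed := (Fin 2 → ℤ) × Fin 2

/-! ### edge boundaries -/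

theorem ed_symmDiff (S F : Finset V) : ed (symmDiff S F) = symmDiff (ed S) (ed F) := by
  ext e
  rw [Finset.mem_symmDiff, mem_ed, mem_ed, mem_ed, Finset.mem_symmDiff, Finset.mem_symmDiff]
  tauto

theorem bd_le_card_ed (F : Finset V) : bd nb F ≤ (ed F).card := by
  classical
  unfold bd
  rw [← Finset.card_sigma]
  apply Finset.card_le_card_of_surjOn (fun e => if e.1 ∈ F then (⟨e.1, e.1 + uv e.2⟩ :
    Σ _ : V, V) else ⟨e.1 + uv e.2, e.1⟩)
  rintro ⟨x, y⟩ h
  rw [Finset.mem_coe, Finset.mem_sigma, Finset.mem_sdiff, mem_nb] at h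
  obtain ⟨hx, ⟨i, hi | hi⟩, hy⟩ := h
  · refine ⟨(x, i), ?_, ?_⟩
    · rw [Finset.mem_coe, mem_ed]
      simp only at hx hy ⊢
      rw [← hi]
      exact fun h => hy (h.mp hx)
    · simp only at hx hy hi ⊢
      rw [if_pos hx, hi]
  · refine ⟨(y, i), ?_, ?_⟩
    · rw [Finset.mem_coe, mem_ed]
      simp only at hx hy hi ⊢
      have : y + uv i = x := by rw [hi]; abel
      rw [this]
      exact fun h => hy (h.mpr hx)
    · simp only at hx hy hi ⊢
      have : y + uv i = x := by rw [hi]; abel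
      rw [if_neg hy, this]

theorem card_ed (F : Finset V) : bd nb F = (ed F).card :=
  le_antisymm (bd_le_card_ed F) (card_ed_le F)

/-! ### adjacency of edges -/

theorem mem_pn_iff {u v : Ed} : v ∈ pn u ↔ ∃ z i j, u ∈ plaq z i j ∧ v ∈ plaq z i j := by
  constructor
  · intro h
    unfold pn at h
    rw [Finset.mem_biUnion] at h
    obtain ⟨j, _, h⟩ := h
    rw [Finset.mem_union] at h
    rcases h with h | h
    · exact ⟨u.1, u.2, j, by simp [plaq], h⟩
    · refine ⟨u.1 - uv j, u.2, j, ?_, h⟩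
      unfold plaq
      simp
  · rintro ⟨z, i, j, hu, hv⟩
    exact mem_pn_of_plaq hu hv

theorem pn_symm {u v : Ed} : v ∈ pn u ↔ u ∈ pn v := by
  rw [mem_pn_iff, mem_pn_iff]
  constructor <;> rintro ⟨z, i, j, h1, h2⟩ <;> exact ⟨z, i, j, h2, h1⟩

theorem self_mem_pn (u : Ed) : u ∈ pn u := by
  rw [mem_pn_iff]
  exact ⟨u.1, u.2, u.2, by simp [plaq], by simp [plaq]⟩

theorem uv_bd (i k : Fin 2) : 0 ≤ uv i k ∧ uv i k ≤ 1 := by
  unfold uv
  by_cases h : k = i
  · subst h; simp
  · simp [h]

theorem pn_close {u v : Ed} (h : v ∈ pn u) (k : Fin 2) : |v.1 k - u.1 k| ≤ 1 := by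
  unfold pn at h
  rw [Finset.mem_biUnion] at h
  obtain ⟨j, _, h⟩ := h
  rw [Finset.mem_union] at h
  unfold plaq at h
  simp only [Finset.mem_insert, Finset.mem_singleton] at h
  have h1 := uv_bd u.2 k
  have h2 := uv_bd j k
  rw [abs_le]
  rcases h with (h | h | h | h) | (h | h | h | h) <;> rw [h] <;>
    simp only [Pi.add_apply, Pi.sub_apply] <;> constructor <;> omega

/-! ### potentials in rectangles -/

/-- every edge of `T` has an end in the rectangle `[lo, hi]` -/
def BR (lo hi : V) (T : Finset Ed) : Prop :=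
  ∀ e ∈ T, ∃ y : V, (∀ i, lo i ≤ y i ∧ y i ≤ hi i) ∧ (y = e.1 ∨ y = e.1 + uv e.2)

theorem BR.bdd {lo hi : V} {T : Finset Ed} (h : BR lo hi T) : ∃ n : ℕ, Bdd n T := by
  refine ⟨(∑ i, (|lo i| + |hi i|)).toNat, fun e he => ?_⟩
  obtain ⟨y, hy, h2⟩ := h e he
  refine ⟨y, ?_, h2⟩
  rw [mem_cube]
  intro i
  have h3 : |lo i| + |hi i| ≤ ∑ i, (|lo i| + |hi i|) :=
    Finset.single_le_sum (f := fun i => |lo i| + |hi i|) (fun j _ => by positivity)
      (Finset.mem_univ i)
  have h4 := Int.self_le_toNat (∑ i, (|lo i| + |hi i|))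
  have h5 := hy i
  have h6 := neg_abs_le (lo i)
  have h7 := le_abs_self (hi i)
  have h8 := abs_nonneg (lo i)
  have h9 := abs_nonneg (hi i)
  constructor <;> omega

theorem step {lo hi : V} {T : Finset Ed} (h : BR lo hi T) (hcl : Closed T) (i0 i : Fin 2) (x : V) :
    pot i0 T x = pot i0 T (x + uv i) + om T (x, i) := by
  obtain ⟨n, hn⟩ := h.bdd
  exact pot_step i0 hn hcl i x

theorem zero_large {lo hi : V} {T : Finset Ed} (h : BR lo hi T) {x : V} (hx : hi 0 < x 0) :
    pot 0 T x = 0 := by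
  unfold pot
  rw [Finset.filter_eq_empty_iff.mpr]
  · simp
  · rintro e he ⟨h1, h2, h3⟩
    obtain ⟨y, hy, h4 | h4⟩ := h e he
    · have := hy 0
      rw [h4] at this
      omega
    · have := hy 0
      rw [h4, h1] at this
      simp [uv] at this
      omega

theorem zero_side {lo hi : V} {T : Finset Ed} (h : BR lo hi T) {x : V}
    (hx : ¬ (lo 1 ≤ x 1 ∧ x 1 ≤ hi 1)) : pot 0 T x = 0 := by
  unfold pot
  rw [Finset.filter_eq_empty_iff.mpr]
  · simp
  · rintro e he ⟨h1, h2, h3⟩
    have h5 := h2 1 (by decide)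
    obtain ⟨y, hy, h4 | h4⟩ := h e he
    · have := hy 1
      rw [h4, h5] at this
      exact hx this
    · have := hy 1
      rw [h4, h1] at this
      simp [uv] at this
      rw [h5] at this
      exact hx this

theorem om_zero {lo hi : V} {T : Finset Ed} (h : BR lo hi T) {x : V} {i : Fin 2}
    (h1 : ¬ ∀ k, lo k ≤ x k ∧ x k ≤ hi k)
    (h2 : ¬ ∀ k, lo k ≤ (x + uv i) k ∧ (x + uv i) k ≤ hi k) : om T (x, i) = 0 := by
  unfold om
  rw [if_neg]
  intro he
  obtain ⟨y, hy, h4 | h4⟩ := h _ he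
  · rw [h4] at hy; exact h1 hy
  · rw [h4] at hy; exact h2 hy

theorem zero_out {lo hi : V} {T : Finset Ed} (h : BR lo hi T) (hcl : Closed T) {x : V}
    (hx : ¬ ∀ k, lo k ≤ x k ∧ x k ≤ hi k) : pot 0 T x = 0 := by
  by_cases h1 : lo 1 ≤ x 1 ∧ x 1 ≤ hi 1
  · by_cases h2 : hi 0 < x 0
    · exact zero_large h h2
    · have h3 : x 0 < lo 0 := by
        by_contra h4
        apply hx
        intro k
        fin_cases k
        · simp only [Fin.zero_eta]; constructor <;> omega
        · exact h1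
      have key : ∀ (m : ℕ) (z : V), z 0 < lo 0 → hi 1 < z 1 + m → pot 0 T z = 0 := by
        intro m
        induction m with
        | zero =>
          intro z _ hz
          exact zero_side h (fun h' => by push_cast at hz; omega)
        | succ m ih =>
          intro z hz0 hz
          have e0 : (z + (uv 1 : V)) 0 = z 0 := by simp [uv]
          have e1 : (z + (uv 1 : V)) 1 = z 1 + 1 := by simp [uv]
          rw [step h hcl 0 1 z, ih (z + uv 1) (by rw [e0]; exact hz0)
            (by rw [e1]; push_cast at hz; omega), zero_add]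
          apply om_zero h
          · intro h'; have := (h' 0).1; omega
          · intro h'; have := (h' 0).1; rw [e0] at this; omega
      refine key (hi 1 + 1 - x 1).toNat x h3 ?_
      have := Int.self_le_toNat (hi 1 + 1 - x 1)
      omega
  · exact zero_side h h1

theorem br_ed {lo hi : V} {S : Finset V} (hS : ∀ x ∈ S, ∀ i, lo i ≤ x i ∧ x i ≤ hi i) :
    BR lo hi (ed S) := by
  intro e he
  rw [mem_ed] at he
  by_cases h1 : e.1 ∈ S
  · exact ⟨e.1, hS _ h1, Or.inl rfl⟩
  · refine ⟨e.1 + uv e.2, hS _ ?_, Or.inr rfl⟩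
    by_contra h2
    exact he ⟨fun h => absurd h h1, fun h => absurd h h2⟩

theorem BR.mono {lo hi : V} {T T' : Finset Ed} (h : BR lo hi T) (hT : T' ⊆ T) : BR lo hi T' :=
  fun e he => h e (hT he)

theorem closed_ed (S : Finset V) : Closed (ed S) :=
  closed_of_closure S (ed S) (Finset.Subset.refl _) (fun _ _ _ hv _ => hv)

theorem exists_rect (S : Finset V) : ∃ lo hi : V, ∀ x ∈ S, ∀ i, lo i ≤ x i ∧ x i ≤ hi i := by
  classical
  refine ⟨fun i => -∑ x ∈ S, |x i|, fun i => ∑ x ∈ S, |x i|, fun x hx i => ?_⟩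
  have h1 : |x i| ≤ ∑ y ∈ S, |y i| :=
    Finset.single_le_sum (f := fun y : V => |y i|) (fun y _ => abs_nonneg _) hx
  have h2 := neg_abs_le (x i)
  have h3 := le_abs_self (x i)
  constructor
  · show -∑ x ∈ S, |x i| ≤ x i
    linarith
  · show x i ≤ ∑ x ∈ S, |x i|
    linarith

/-- the potential of the edge boundary is the indicator -/
theorem pot_ed (S : Finset V) (x : V) : pot 0 (ed S) x = if x ∈ S then 1 else 0 := by
  obtain ⟨lo, hi, hS⟩ := exists_rect S
  have hb := br_ed hS
  have key : ∀ (m : ℕ) (z : V), hi 0 < z 0 + m → pot 0 (ed S) z = if z ∈ S then 1 else 0 := by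
    intro m
    induction m with
    | zero =>
      intro z hz
      have hz' : hi 0 < z 0 := by simpa using hz
      rw [zero_large hb hz', if_neg]
      intro h
      have := (hS z h 0).2
      omega
    | succ m ih =>
      intro z hz
      rw [pot_step0, ih (z + uv 0) (by simp [uv]; push_cast at hz; omega)]
      unfold om
      by_cases h1 : z ∈ S <;> by_cases h2 : z + uv 0 ∈ S
      · rw [if_pos h2, if_pos h1, if_neg (by rw [mem_ed]; simp [h1, h2])]; decide
      · rw [if_neg h2, if_pos h1, if_pos (by rw [mem_ed]; simp [h1, h2])]; decide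
      · rw [if_pos h2, if_neg h1, if_pos (by rw [mem_ed]; simp [h1, h2])]; decide
      · rw [if_neg h2, if_neg h1, if_neg (by rw [mem_ed]; simp [h1, h2])]; decide
  refine key (hi 0 + 1 - x 0).toNat x ?_
  have := Int.self_le_toNat (hi 0 + 1 - x 0)
  omega

/-- additivity of the potential -/
theorem pot_union (T T' : Finset Ed) (h : Disjoint T T') (x : V) :
    pot 0 (T ∪ T') x = pot 0 T x + pot 0 T' x := by
  unfold pot
  rw [Finset.filter_union, Finset.card_union_of_disjoint]
  · push_cast; rfl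
  · exact Finset.disjoint_filter_filter h

theorem z2add (a : ZMod 2) : a + a = 0 := by revert a; decide

theorem z2cases (a : ZMod 2) : a = 0 ∨ a = 1 := by revert a; decide

theorem pot_symmDiff (T T' : Finset Ed) (x : V) :
    pot 0 (symmDiff T T') x = pot 0 T x + pot 0 T' x := by
  have h1 : T = (T \ T') ∪ (T ∩ T') := by rw [Finset.sdiff_union_inter]
  have h2 : T' = (T' \ T) ∪ (T ∩ T') := by rw [Finset.inter_comm, Finset.sdiff_union_inter]
  have h3 : symmDiff T T' = (T \ T') ∪ (T' \ T) := rfl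
  have d1 : Disjoint (T \ T') (T ∩ T') := by
    rw [Finset.disjoint_left]; intro e; simp only [Finset.mem_sdiff, Finset.mem_inter]; tauto
  have d2 : Disjoint (T' \ T) (T ∩ T') := by
    rw [Finset.disjoint_left]; intro e; simp only [Finset.mem_sdiff, Finset.mem_inter]; tauto
  have d3 : Disjoint (T \ T') (T' \ T) := by
    rw [Finset.disjoint_left]; intro e; simp only [Finset.mem_sdiff]; tauto
  have e1 : pot 0 T x = pot 0 (T \ T') x + pot 0 (T ∩ T') x := by
    conv_lhs => rw [h1]
    exact pot_union _ _ d1 x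
  have e2 : pot 0 T' x = pot 0 (T' \ T) x + pot 0 (T ∩ T') x := by
    conv_lhs => rw [h2]
    exact pot_union _ _ d2 x
  rw [h3, pot_union _ _ d3, e1, e2]
  have := z2add (pot 0 (T ∩ T') x)
  calc pot 0 (T \ T') x + pot 0 (T' \ T) x =
      pot 0 (T \ T') x + pot 0 (T' \ T) x + 0 := by rw [add_zero]
    _ = pot 0 (T \ T') x + pot 0 (T' \ T) x + (pot 0 (T ∩ T') x + pot 0 (T ∩ T') x) := by
        rw [this]
    _ = _ := by ring

theorem pot_biUnion {ι : Type*} [DecidableEq ι] (s : Finset ι) (g : ι → Finset Ed)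
    (h : ∀ i ∈ s, ∀ j ∈ s, i ≠ j → Disjoint (g i) (g j)) (x : V) :
    pot 0 (s.biUnion g) x = ∑ i ∈ s, pot 0 (g i) x := by
  unfold pot
  rw [Finset.filter_biUnion, Finset.card_biUnion]
  · push_cast; rfl
  · intro i hi j hj hij
    exact Finset.disjoint_filter_filter (h i hi j hj hij)

/-! ### components -/

/-- the component of `e` in `T` -/
noncomputable def cpt (T : Finset Ed) (e : Ed) : Finset Ed := by
  classical
  exact T.filter (fun v => Relation.ReflTransGen (fun a b => b ∈ pn a ∧ b ∈ T) e v)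

theorem mem_cpt {T : Finset Ed} {e v : Ed} :
    v ∈ cpt T e ↔ v ∈ T ∧ Relation.ReflTransGen (fun a b => b ∈ pn a ∧ b ∈ T) e v := by
  classical
  unfold cpt
  rw [Finset.mem_filter]

theorem cpt_sub (T : Finset Ed) (e : Ed) : cpt T e ⊆ T := fun _ h => (mem_cpt.mp h).1

theorem self_mem {T : Finset Ed} {e : Ed} (he : e ∈ T) : e ∈ cpt T e :=
  mem_cpt.mpr ⟨he, Relation.ReflTransGen.refl⟩

theorem cpt_cl {T : Finset Ed} {e u v : Ed} (hu : u ∈ cpt T e) (hv : v ∈ T) (huv : v ∈ pn u) :
    v ∈ cpt T e := by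
  rw [mem_cpt] at hu ⊢
  exact ⟨hv, hu.2.tail ⟨huv, hv⟩⟩

theorem path_symm {T : Finset Ed} {e v : Ed} (he : e ∈ T)
    (h : Relation.ReflTransGen (fun a b => b ∈ pn a ∧ b ∈ T) e v) :
    v ∈ T ∧ Relation.ReflTransGen (fun a b => b ∈ pn a ∧ b ∈ T) v e := by
  induction h with
  | refl => exact ⟨he, Relation.ReflTransGen.refl⟩
  | tail _ hbc ih => exact ⟨hbc.2, Relation.ReflTransGen.head ⟨pn_symm.mp hbc.1, ih.1⟩ ih.2⟩

theorem cpt_eq {T : Finset Ed} {e v : Ed} (he : e ∈ T) (hv : v ∈ cpt T e) : cpt T v = cpt T e := by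
  have h := mem_cpt.mp hv
  have h' := path_symm he h.2
  ext w
  rw [mem_cpt, mem_cpt]
  constructor
  · rintro ⟨hw, h2⟩; exact ⟨hw, h.2.trans h2⟩
  · rintro ⟨hw, h2⟩; exact ⟨hw, h'.2.trans h2⟩

theorem cpt_symm {T : Finset Ed} {e v : Ed} (he : e ∈ T) (hv : v ∈ cpt T e) : e ∈ cpt T v := by
  rw [cpt_eq he hv]; exact self_mem he

theorem cpt_cc {T : Finset Ed} {e : Ed} (he : e ∈ T) : CC pn (cpt T e) := by
  intro T1 hT1 hne hcl
  apply Finset.Subset.antisymm hT1
  obtain ⟨u, hu⟩ := hne
  have hu' := hT1 hu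
  intro v hv
  rw [← cpt_eq he hu'] at hv
  have hp := (mem_cpt.mp hv).2
  have key : ∀ w, Relation.ReflTransGen (fun a b => b ∈ pn a ∧ b ∈ T) u w → w ∈ T1 := by
    intro w hw
    induction hw with
    | refl => exact hu
    | tail _ hbc ih => exact hcl _ ih _ (cpt_cl (hT1 ih) hbc.2 hbc.1) hbc.1
  exact key v hp

/-- components only depend on closed pieces -/
theorem cpt_congr {T T' C : Finset Ed} (hT : C ⊆ T) (hT' : C ⊆ T')
    (hcl : ∀ u ∈ C, ∀ v ∈ T, v ∈ pn u → v ∈ C) (hcl' : ∀ u ∈ C, ∀ v ∈ T', v ∈ pn u → v ∈ C)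
    {e : Ed} (he : e ∈ C) : cpt T e = cpt T' e := by
  have key : ∀ (A B : Finset Ed), C ⊆ A → C ⊆ B → (∀ u ∈ C, ∀ v ∈ A, v ∈ pn u → v ∈ C) →
      ∀ v, v ∈ cpt A e → v ∈ cpt B e := by
    intro A B hA hB hclA v hv
    have hp := (mem_cpt.mp hv).2
    have : v ∈ C ∧ Relation.ReflTransGen (fun a b => b ∈ pn a ∧ b ∈ B) e v := by
      clear hv
      induction hp with
      | refl => exact ⟨he, Relation.ReflTransGen.refl⟩
      | tail _ hbc ih =>
        have hc := hclA _ ih.1 _ hbc.2 hbc.1
        exact ⟨hc, ih.2.tail ⟨hbc.1, hB hc⟩⟩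
    exact mem_cpt.mpr ⟨hB this.1, this.2⟩
  ext v
  exact ⟨key T T' hT hT' hcl v, key T' T hT' hT hcl' v⟩

/-- a connected set is contained in a ball of radius its size -/
theorem cc_close {γ : Finset Ed} (hγ : CC pn γ) {u v : Ed} (hu : u ∈ γ) (hv : v ∈ γ) (k : Fin 2) :
    |v.1 k - u.1 k| ≤ γ.card := by
  classical
  let g : ℕ → Finset Ed := fun m => γ.filter (fun w => ∀ k, |w.1 k - u.1 k| ≤ m)
  have hg : ∀ m, g m = γ ∨ m + 1 ≤ (g m).card := by
    intro m
    induction m with
    | zero =>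
      right
      have : u ∈ g 0 := Finset.mem_filter.mpr ⟨hu, fun k => by simp⟩
      have := Finset.card_pos.mpr ⟨u, this⟩
      omega
    | succ m ih =>
      have hmono : g m ⊆ g (m + 1) := by
        intro w hw
        rw [Finset.mem_filter] at hw ⊢
        refine ⟨hw.1, fun k => ?_⟩
        have := hw.2 k
        push_cast
        linarith
      rcases ih with ih | ih
      · left
        exact Finset.Subset.antisymm (Finset.filter_subset _ _) (ih ▸ hmono)
      · by_cases hm : g m = γ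
        · left
          exact Finset.Subset.antisymm (Finset.filter_subset _ _) (hm ▸ hmono)
        · right
          have h1 := mt (hγ (g m) (Finset.filter_subset _ _)
            ⟨u, Finset.mem_filter.mpr ⟨hu, fun k => by simp⟩⟩) hm
          push Not at h1
          obtain ⟨a, ha, w, hw, hwa, hwn⟩ := h1
          have hw' : w ∈ g (m + 1) := by
            refine Finset.mem_filter.mpr ⟨hw, fun k => ?_⟩
            have h2 := (Finset.mem_filter.mp ha).2 k
            have h3 := pn_close hwa k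
            have h4 : w.1 k - u.1 k = (w.1 k - a.1 k) + (a.1 k - u.1 k) := by ring
            rw [h4]
            refine (abs_add_le _ _).trans ?_
            push_cast
            linarith
          have h2 : (insert w (g m)).card ≤ (g (m + 1)).card :=
            Finset.card_le_card (Finset.insert_subset hw' hmono)
          rw [Finset.card_insert_of_notMem hwn] at h2
          omega
  have : g γ.card = γ := by
    rcases hg γ.card with h | h
    · exact h
    · have := Finset.card_le_card (Finset.filter_subset (fun w : Ed => ∀ k, |w.1 k - u.1 k| ≤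
        (γ.card : ℤ)) γ)
      exfalso
      have h2 : (g γ.card).card ≤ γ.card := this
      omega
  have hv' : v ∈ g γ.card := by rw [this]; exact hv
  exact (Finset.mem_filter.mp hv').2 k

end Pool.Agent.Y995.IsingPlus.Geo
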