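import Pool.Agent.Y995.IsingPlus.Box

/-!
The estimate for one box: from the all-plus state it is very unlikely to see a droplet in the box.
-/

set_option autoImplicit false

namespace Pool.Agent.Y995.IsingPlus.OneBox

open Finset Matrix
open Pool.Agent.Results.MP_4cb49c_pr.RandomStart (glauber ising mset glauber_nonneg glauber_row
  glauber_balance ising_pos ising_sum mset_subset)
open Pool.Agent.Helper580.IsingGraph Pool.Agent.Helper580.IsingLat Pool.Agent.Helper580.IsingCut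
  Pool.Agent.Y995.IsingPlus.Geo Pool.Agent.Y995.IsingPlus.Filt Pool.Agent.Y995.IsingPlus.Expo
  Pool.Agent.Y995.IsingPlus.Equi Pool.Agent.Y995.IsingPlus.Dyn Pool.Agent.Y995.IsingPlus.Box

theorem arith {X E1 E2 R T1 G : ℝ} (hT : 0 ≤ T1) (hG : G ≤ E2)
    (h6 : X * (1 / 3) ≤ E1 * R + T1 * G) : X ≤ 3 * (E1 * R + T1 * E2) := by
  have := mul_le_mul_of_nonneg_left hG hT
  linarith

/-- **One box.** -/
theorem one_box {β : ℝ} (hβ0 : 0 ≤ β) (hβ : Real.exp (-(2 * β)) ≤ (1 / 2 : ℝ) ^ 36)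
    (L b b' l : ℕ) (c : V) (hL : 1 ≤ L) (hsub : sq c l ⊆ box 2 L) (hb : 64 * b' + 4 < b)
    (hbl : 2 * (b + 3) ≤ l) (hexp : 8 * (l : ℝ) ^ 2 * Real.exp (-(b' : ℝ)) ≤ 1)
    (Y θ : ℝ) (hY : 0 ≤ Y) (hθ0 : 0 ≤ θ) (hθ : 2 * θ * (((2 * b + 3) ^ 2 : ℕ) : ℝ) ≤ 1) (t : ℕ) :
    ∑ η ∈ Finset.univ.filter (fun η : box 2 L → ℤˣ => ¬ 2 * cnt (sq c l) (mset η) < (sq c l).card),
      (glauber (box 2 L) β ^ t) (fun _ => 1) η ≤
    3 * (Real.exp (-(θ * ((l : ℝ) ^ 2 / 16 - (((2 * b + 3) ^ 2 : ℕ) : ℝ)))) *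
      (1 + θ ^ 2 * ((((2 * b + 3) ^ 2 : ℕ) : ℝ) ^ 2 * (32 * Y) / (L : ℝ) ^ 2)) ^ t +
      (2 * t + 1) * (Real.exp (1 - Y) + Real.exp (-((l : ℝ) ^ 2 / (576 * (b : ℝ) ^ 2))))) := by
  classical
  set Λ := box 2 L with hΛ
  set B := sq c l with hB
  set a : ℝ := (((2 * b + 3) ^ 2 : ℕ) : ℝ) with ha
  have hcardB : B.card = l ^ 2 := card_sq c l
  have hlpos : 0 < l := by omega
  have hBpos : 0 < B.card := by rw [hcardB]; positivity
  have hb1 : 1 ≤ b := by omega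
  have hΛne : Λ.Nonempty := by
    obtain ⟨x, hx⟩ := Finset.card_pos.mp hBpos
    exact ⟨x, hsub hx⟩
  have hΛcard : (Λ.card : ℝ) = (L : ℝ) ^ 2 := by
    rw [hΛ, card_box]; push_cast; rfl
  set 𝒢 : Finset (Λ → ℤˣ) := Finset.univ.filter (fun σ => Good b b' l c Y (mset σ)) with h𝒢
  have h𝒢' : ∀ σ, σ ∈ 𝒢 ↔ Good b b' l c Y (mset σ) := by
    intro σ; rw [h𝒢, Finset.mem_filter]; exact ⟨fun h => h.2, fun h => ⟨Finset.mem_univ _, h⟩⟩
  have hbad := bad_rare hβ L b b' l c hb1 hbl hexp Y 𝒢 h𝒢'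
  set 𝒜 := Finset.univ.filter (fun η : Λ → ℤˣ => ¬ 2 * cnt B (mset η) < B.card) with h𝒜
  set 𝒟 := Finset.univ.filter (fun η : Λ → ℤˣ => 8 * cnt B (mset η) ≤ 3 * B.card) with h𝒟
  have hclose : ∀ σ ∈ 𝒢, |(cnt B (mset σ) : ℝ) - fl b B (mset σ)| ≤ (l : ℝ) ^ 2 / 32 := by
    intro σ hσ
    have h1 := close_count b hb1 c l (mset σ)
    have h2 := ((h𝒢' σ).mp hσ).2
    have hb0 : (0 : ℝ) < b := by exact_mod_cast hb1
    refine h1.trans ?_
    calc 9 * (b : ℝ) ^ 2 * ∑ e ∈ (ed (mset σ)).filter (fun e => e ∈ near c l b),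
          hsm b (cpt (ed (mset σ)) e).card
        ≤ 9 * (b : ℝ) ^ 2 * ((l : ℝ) ^ 2 / (288 * (b : ℝ) ^ 2)) :=
          mul_le_mul_of_nonneg_left h2.le (by positivity)
      _ = (l : ℝ) ^ 2 / 32 := by field_simp; norm_num
  have hmain := Chain.main (glauber Λ β) (glauber_nonneg Λ β) (glauber_row Λ hΛne β) (ising Λ β)
    (fun σ => (ising_pos Λ β σ).le) (ising_sum Λ β) (glauber_balance Λ β)
    (fun σ => (fl b B (mset σ) : ℝ)) a (a ^ 2 * (32 * Y) / (L : ℝ) ^ 2) θ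
    ((l : ℝ) ^ 2 / 2 - (l : ℝ) ^ 2 / 32) (3 * (l : ℝ) ^ 2 / 8 + (l : ℝ) ^ 2 / 32) 𝒢 𝒜 𝒟
    (by
      intro σ η hση
      obtain ⟨x, s, rfl⟩ := step_update Λ β hση
      show |(fl b B (mset (Function.update σ x s)) : ℝ) - (fl b B (mset σ) : ℝ)| ≤ a
      rcases mset_update Λ σ x s with h | h <;> rw [h]
      · rw [sub_self, abs_zero, ha]; positivity
      · exact fl_change b B (mset σ) x.1)
    (by rw [ha]; positivity) (by positivity)
    (by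
      intro σ hσ
      have h1 := variation Λ β (fun S => (fl b B S : ℝ)) a σ
        (fun x => fl_change b B (mset σ) x) (by rw [ha]; positivity)
      refine h1.trans ?_
      rw [hΛcard]
      apply div_le_div_of_nonneg_right _ (by positivity)
      apply mul_le_mul_of_nonneg_left _ (by positivity)
      have h2 := piv_count b b' hb c l Λ (mset σ)
      have h3 := ((h𝒢' σ).mp hσ).1
      have e : (Λ.filter (fun x => (fl b B (symmDiff (mset σ) {x}) : ℝ) ≠ fl b B (mset σ))) =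
          (Λ.filter (fun x => fl b (sq c l) (symmDiff (mset σ) {x}) ≠ fl b (sq c l) (mset σ))) := by
        apply Finset.filter_congr
        intro x _
        rw [Ne, Nat.cast_inj]
      rw [e]
      linarith)
    hθ0 hθ
    (by
      intro σ hσ hG
      rw [h𝒜, Finset.mem_filter, hcardB] at hσ
      have h1 := abs_le.mp (hclose σ hG)
      have h2 : (l : ℝ) ^ 2 ≤ 2 * (cnt B (mset σ) : ℝ) := by
        have : l ^ 2 ≤ 2 * cnt B (mset σ) := by omega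
        exact_mod_cast this
      linarith [h1.1, h1.2])
    (by
      intro σ hσ hG
      rw [h𝒟, Finset.mem_filter, hcardB] at hσ
      have h1 := abs_le.mp (hclose σ hG)
      have h2 : 8 * (cnt B (mset σ) : ℝ) ≤ 3 * (l : ℝ) ^ 2 := by exact_mod_cast hσ.2
      linarith [h1.1, h1.2]) t
  have hflow := plus_flow Λ β hβ0 (fun S => ¬ 2 * cnt B S < B.card)
    (fun S S' hSS h h' => h (lt_of_le_of_lt (Nat.mul_le_mul_left 2 (cnt_mono B hSS)) h')) 𝒟 t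
  have hD : 1 / 3 ≤ ∑ σ ∈ 𝒟, ising Λ β σ := by
    rw [h𝒟, prob_eq Λ β (fun S => 8 * cnt B S ≤ 3 * B.card), le_div_iff₀ (Zf_pos nb Λ β)]
    exact mostly_plus hβ0 (hβ.trans (by norm_num)) hsub hBpos
  have hX0 : 0 ≤ ∑ η ∈ 𝒜, (glauber Λ β ^ t) (fun _ => 1) η :=
    Finset.sum_nonneg fun η _ => Chain.pow_nn _ (glauber_nonneg Λ β) t _ _
  have hk : (l : ℝ) ^ 2 / 2 - (l : ℝ) ^ 2 / 32 - (3 * (l : ℝ) ^ 2 / 8 + (l : ℝ) ^ 2 / 32) - a =
      (l : ℝ) ^ 2 / 16 - a := by ring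
  rw [hk] at hmain
  have h5 : (∑ η ∈ 𝒜, (glauber Λ β ^ t) (fun _ => 1) η) * (1 / 3) ≤
      (∑ η ∈ 𝒜, (glauber Λ β ^ t) (fun _ => 1) η) * ∑ σ ∈ 𝒟, ising Λ β σ :=
    mul_le_mul_of_nonneg_left hD hX0
  have h60 : (∑ η ∈ 𝒜, (glauber Λ β ^ t) (fun _ => 1) η) * ∑ σ ∈ 𝒟, ising Λ β σ ≤
      ∑ σ ∈ 𝒜, ∑ η ∈ 𝒟, ising Λ β σ * (glauber Λ β ^ t) σ η := hflow
  have h61 := h60.trans hmain
  have h6 := h5.trans h61
  have hT : 0 ≤ 2 * (t : ℝ) + 1 := by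
    have := Nat.cast_nonneg (α := ℝ) t
    clear * - this
    linarith
  exact arith hT hbad h6

end Pool.Agent.Y995.IsingPlus.OneBox
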